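import Pool.Agent.Lib.MP_aecbcf_co.Parity

set_option autoImplicit false

namespace MP_aecbcf

theorem tr_iff (x y z : Bool) (h1 : x = true → y = true → z = true)
    (h2 : x = true → z = true → y = true) (h3 : y = true → z = true → x = true) :
    tr x y z = true := by
  revert h1 h2 h3
  revert x y z
  decide

theorem parity_fun (E : Fin 4 → Fin 4 → Fin 4 → Bool)
    (hs : ∀ i j k, E i j k = E i k j)
    (ht : ∀ i j k l, E i j k = true → E i j l = true → E i k l = true)
    (hn : ∀ i j k, i ≠ j → i ≠ k → j ≠ k → E i j k = true → E j i k = true → E k i j = true →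
      False) :
    ∃ b : Fin 4 → Fin 4 → Bool, (∀ i j, i ≠ j → b i j = !(b j i)) ∧
      ∀ i j k, i ≠ j → i ≠ k → E i j k = true → b i j = b i k := by
  have T : ∀ i j k l, tr (E i j k) (E i j l) (E i k l) = true := fun i j k l =>
    tr_iff _ _ _ (ht i j k l)
      (fun h1 h2 => ht i k j l ((hs i k j).trans h1) h2)
      (fun h1 h2 => ht i l j k ((hs i l j).trans h1) ((hs i l k).trans h2))
  have N : ∀ i j k, i ≠ j → i ≠ k → j ≠ k → (E i j k && E j i k && E k i j) = false := by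
    intro i j k h1 h2 h3
    rw [Bool.eq_false_iff]
    intro h
    rw [Bool.and_eq_true, Bool.and_eq_true] at h
    exact hn i j k h1 h2 h3 h.1.1 h.1.2 h.2
  obtain ⟨b01, b02, b03, b12, b13, b23, hb⟩ := parity_bool (E 0 1 2) (E 0 1 3) (E 0 2 3)
    (T 0 1 2 3) (E 1 0 2) (E 1 0 3) (E 1 2 3) (T 1 0 2 3) (E 2 0 1) (E 2 0 3) (E 2 1 3)
    (T 2 0 1 3) (N 0 1 2 (by decide) (by decide) (by decide)) (E 3 0 1) (E 3 0 2) (E 3 1 2)
    (T 3 0 1 2) (N 0 1 3 (by decide) (by decide) (by decide))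
    (N 0 2 3 (by decide) (by decide) (by decide)) (N 1 2 3 (by decide) (by decide) (by decide))
  simp only [Bool.and_eq_true, Bool.or_eq_true, Bool.not_eq_true', beq_iff_eq] at hb
  obtain ⟨⟨⟨⟨⟨⟨⟨⟨⟨⟨⟨h0, h1⟩, h2⟩, h3⟩, h4⟩, h5⟩, h6⟩, h7⟩, h8⟩, h9⟩, h10⟩, h11⟩ := hb
  refine ⟨![![false, b01, b02, b03], ![!b01, false, b12, b13], ![!b02, !b12, false, b23],
    ![!b03, !b13, !b23, false]], ?_, ?_⟩
  · intro i j hij
    fin_cases i <;> fin_cases j <;> first | exact absurd rfl hij | simp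
  · have key : ∀ i j k, i ≠ j → i ≠ k → j < k → E i j k = true →
        (![![false, b01, b02, b03], ![!b01, false, b12, b13], ![!b02, !b12, false, b23],
          ![!b03, !b13, !b23, false]] : Fin 4 → Fin 4 → Bool) i j =
        (![![false, b01, b02, b03], ![!b01, false, b12, b13], ![!b02, !b12, false, b23],
          ![!b03, !b13, !b23, false]] : Fin 4 → Fin 4 → Bool) i k := by
      intro i j k hij hik hjk hE
      fin_cases i <;> fin_cases j <;> fin_cases k <;>
        first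
        | exact absurd rfl hij
        | exact absurd rfl hik
        | exact absurd hjk (by decide)
        | (simp at hE ⊢; simp [hE] at h0 h1 h2 h3 h4 h5 h6 h7 h8 h9 h10 h11; simp_all)
    intro i j k hij hik hE
    rcases lt_trichotomy j k with h | h | h
    · exact key i j k hij hik h hE
    · rw [h]
    · exact (key i k j hik hij h ((hs i k j).trans hE)).symm

/-- **Sparse colour classes.**  A graph with a proper colouring by `Fin 4`, at most one edge between
any two colour classes and no triangle is two-colourable. -/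
theorem two_col {α : Type*} (Γ : SimpleGraph α) (c : α → Fin 4)
    (hc : ∀ u v, Γ.Adj u v → c u ≠ c v)
    (h1 : ∀ u v u' v', Γ.Adj u v → Γ.Adj u' v' → c u = c u' → c v = c v' → u = u')
    (htri : ∀ x y z, Γ.Adj x y → Γ.Adj y z → Γ.Adj x z → False) :
    ∃ f : α → Bool, ∀ u v, Γ.Adj u v → f u ≠ f v := by
  classical
  -- `End i j u`: the vertex `u` of colour `i` is an end of the edge between `i` and `j`
  let End : Fin 4 → Fin 4 → α → Prop := fun i j u => ∃ v, Γ.Adj u v ∧ c u = i ∧ c v = j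
  have hEu : ∀ i j u u', End i j u → End i j u' → u = u' := by
    rintro i j u u' ⟨v, h2, h3, h4⟩ ⟨v', h5, h6, h7⟩
    exact h1 u v u' v' h2 h5 (h3.trans h6.symm) (h4.trans h7.symm)
  let E : Fin 4 → Fin 4 → Fin 4 → Bool := fun i j k => decide (∃ u, End i j u ∧ End i k u)
  have hE : ∀ i j k, E i j k = true ↔ ∃ u, End i j u ∧ End i k u := fun i j k =>
    decide_eq_true_iff
  obtain ⟨b, hb1, hb2⟩ := parity_fun E (fun i j k => by
      have h2 : E i j k = true ↔ E i k j = true := by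
        rw [hE, hE]
        exact ⟨fun ⟨u, h3, h4⟩ => ⟨u, h4, h3⟩, fun ⟨u, h3, h4⟩ => ⟨u, h4, h3⟩⟩
      exact Bool.eq_iff_iff.2 h2)
    (fun i j k l h2 h3 => by
      obtain ⟨u, h4, h5⟩ := (hE i j k).1 h2
      obtain ⟨u', h6, h7⟩ := (hE i j l).1 h3
      rw [hEu i j u' u h6 h4] at h7
      exact (hE i k l).2 ⟨u, h5, h7⟩)
    (fun i j k _ _ _ h2 h3 h4 => by
      obtain ⟨u, hu1, hu2⟩ := (hE i j k).1 h2
      obtain ⟨v, hv1, hv2⟩ := (hE j i k).1 h3
      obtain ⟨w, hw1, hw2⟩ := (hE k i j).1 h4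
      have sym : ∀ i j u v, Γ.Adj u v → c u = i → c v = j → End i j u ∧ End j i v :=
        fun i j u v h5 h6 h7 => ⟨⟨v, h5, h6, h7⟩, ⟨u, h5.symm, h7, h6⟩⟩
      have e1 : Γ.Adj u v := by
        obtain ⟨x, hx, hx1, hx2⟩ := hu1
        rwa [hEu j i v x hv1 (sym i j u x hx hx1 hx2).2]
      have e2 : Γ.Adj u w := by
        obtain ⟨x, hx, hx1, hx2⟩ := hu2
        rwa [hEu k i w x hw1 (sym i k u x hx hx1 hx2).2]
      have e3 : Γ.Adj v w := by
        obtain ⟨x, hx, hx1, hx2⟩ := hv2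
        rwa [hEu k j w x hw2 (sym j k v x hx hx1 hx2).2]
      exact htri u v w e1 e3 e2)
  refine ⟨fun u => if h : ∃ j, End (c u) j u then b (c u) h.choose else false, fun u v huv => ?_⟩
  have hne := hc u v huv
  have hu : End (c u) (c v) u := ⟨v, huv, rfl, rfl⟩
  have hv : End (c v) (c u) v := ⟨u, huv.symm, rfl, rfl⟩
  have val : ∀ w j, End (c w) j w →
      (if h : ∃ j, End (c w) j w then b (c w) h.choose else false) = b (c w) j := by
    intro w j hj
    have hex : ∃ j, End (c w) j w := ⟨j, hj⟩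
    rw [dif_pos hex]
    have hd : ∀ j, End (c w) j w → c w ≠ j := by
      rintro j ⟨x, hx, -, hx2⟩
      rw [← hx2]
      exact hc w x hx
    exact hb2 _ _ _ (hd _ hex.choose_spec) (hd _ hj) ((hE _ _ _).2 ⟨w, hex.choose_spec, hj⟩)
  simp only
  rw [val u _ hu, val v _ hv, hb1 _ _ hne]
  simp

end MP_aecbcf
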