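import Pool.Agent.Lib.MP_aecbcf_co.Defs
import Pool.Agent.Lib.MP_aecbcf_co.Sparse

/-!
# Counting the edges of Kempe subgraphs
-/

set_option autoImplicit false

namespace MP_aecbcf

open Finset

/-- A cut-connected set spans at least as many pairs as a tree. -/
theorem growth {V : Type*} [DecidableEq V] (r : V → V → Prop) [DecidableRel r]
    (hs : ∀ x y, r x y → r y x) (Z : Finset V) (hZ : Z.Nonempty)
    (hcut : ∀ S ⊆ Z, S.Nonempty → S ≠ Z → ∃ x ∈ S, ∃ y ∈ Z \ S, r x y) :
    2 * Z.card ≤ 2 + ((Z ×ˢ Z).filter (fun q => r q.1 q.2)).card := by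
  have key : ∀ k, 1 ≤ k → k ≤ Z.card → ∃ S ⊆ Z, S.card = k ∧
      2 * k ≤ 2 + ((S ×ˢ S).filter (fun q => r q.1 q.2)).card := by
    intro k hk
    induction k, hk using Nat.le_induction with
    | base =>
      intro _
      obtain ⟨z, hz⟩ := hZ
      exact ⟨{z}, by simpa using hz, by simp, by omega⟩
    | succ k hk ih =>
      intro hk2
      obtain ⟨S, hS, hSc, hSk⟩ := ih (by omega)
      obtain ⟨x, hx, y, hy, hxy⟩ := hcut S hS (card_pos.1 (by omega)) (by rintro rfl; omega)
      rw [mem_sdiff] at hy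
      have hne : x ≠ y := by
        rintro rfl
        exact hy.2 hx
      refine ⟨insert y S, ?_, ?_, ?_⟩
      · intro z hz
        rcases mem_insert.1 hz with rfl | h
        · exact hy.1
        · exact hS h
      · rw [card_insert_of_notMem hy.2, hSc]
      · have hsub : insert (x, y) (insert (y, x) ((S ×ˢ S).filter (fun q => r q.1 q.2))) ⊆
            ((insert y S ×ˢ insert y S).filter (fun q => r q.1 q.2)) := by
          intro q hq
          rw [mem_insert, mem_insert, mem_filter, mem_product] at hq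
          rw [mem_filter, mem_product]
          rcases hq with rfl | rfl | ⟨⟨h1, h2⟩, h3⟩
          · exact ⟨⟨mem_insert_of_mem hx, mem_insert_self _ _⟩, hxy⟩
          · exact ⟨⟨mem_insert_self _ _, mem_insert_of_mem hx⟩, hs _ _ hxy⟩
          · exact ⟨⟨mem_insert_of_mem h1, mem_insert_of_mem h2⟩, h3⟩
        have hcard := card_le_card hsub
        rw [card_insert_of_notMem, card_insert_of_notMem] at hcard
        · omega
        · rw [mem_filter, mem_product]
          rintro ⟨⟨h1, -⟩, -⟩
          exact hy.2 h1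
        · rw [mem_insert, mem_filter, mem_product]
          rintro (h | ⟨⟨-, h1⟩, -⟩)
          · exact hne (congrArg Prod.fst h)
          · exact hy.2 h1
  obtain ⟨S, hS, hSc, h⟩ := key Z.card (card_pos.2 hZ) le_rfl
  rwa [eq_of_subset_of_card_le hS hSc.ge] at h

section Kempe

variable {V : Type*}

/-- colour of `x` belongs to the pair `p`. -/
def InP (c : V → Fin 4) (p : Fin 4 × Fin 4) (x : V) : Prop := c x = p.1 ∨ c x = p.2

instance (c : V → Fin 4) (p : Fin 4 × Fin 4) : DecidablePred (InP c p) := fun x =>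
  inferInstanceAs (Decidable (c x = p.1 ∨ c x = p.2))

/-- edges of the Kempe graph of the pair `p` off `W`. -/
def KE (G : SimpleGraph V) (W : Finset V) (c : V → Fin 4) (p : Fin 4 × Fin 4) (u v : V) : Prop :=
  G.Adj u v ∧ u ∉ W ∧ v ∉ W ∧ InP c p u ∧ InP c p v

/-- `D` is a set of neighbours of `w` whose edges to `w` are superfluous for the pair `p`. -/
def Good (G : SimpleGraph V) (W : Finset V) (c : V → Fin 4) (p : Fin 4 × Fin 4) (w : V)
    (D : Finset V) : Prop :=
  ∀ x ∈ D, G.Adj w x ∧ x ∉ W ∧ InP c p x ∧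
    ∃ y, y ∉ D ∧ G.Adj w y ∧ y ∉ W ∧ InP c p y ∧ Relation.ReflTransGen (KE G W c p) x y

/-- the vertices of `W` and those with colour in `p`. -/
def ZP [Fintype V] [DecidableEq V] (W : Finset V) (c : V → Fin 4) (p : Fin 4 × Fin 4) : Finset V :=
  univ.filter (fun v => v ∈ W ∨ InP c p v)

theorem pair_ineq [Fintype V] [DecidableEq V] (G : SimpleGraph V) [DecidableRel G.Adj]
    (hcut : ¬ HasBipartiteCut G) (W : Finset V)
    (c : V → Fin 4) (hc : ∀ u v, u ∉ W → v ∉ W → G.Adj u v → c u ≠ c v)
    (p : Fin 4 × Fin 4) (hp : p.1 ≠ p.2) (D : V → Finset V)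
    (hD : ∀ w ∈ W, Good G W c p w (D w)) :
    2 * (ZP W c p).card + 2 * ∑ w ∈ W, (D w).card ≤
      2 + ((ZP W c p ×ˢ ZP W c p).filter (fun q => G.Adj q.1 q.2)).card := by
  classical
  set Z := ZP W c p with hZdef
  have hmem : ∀ v, v ∈ Z ↔ v ∈ W ∨ InP c p v := fun v => by
    simp [hZdef, ZP]
  -- the reduced relation
  let rem : V → V → Prop := fun u v => u ∈ W ∧ v ∈ D u
  let r : V → V → Prop := fun u v => G.Adj u v ∧ ¬ rem u v ∧ ¬ rem v u
  have hrs : ∀ x y, r x y → r y x := fun x y h => ⟨h.1.symm, h.2.2, h.2.1⟩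
  -- the complement of `Z` is bipartite
  have hG : ∀ S ⊆ Z, S.Nonempty → S ≠ Z → ∃ x ∈ S, ∃ y ∈ Z \ S, G.Adj x y := by
    intro S hS hne hSZ
    by_contra hno
    push Not at hno
    apply hcut
    have hR : (Z \ S).Nonempty := by
      rw [sdiff_nonempty]
      intro h
      exact hSZ (Subset.antisymm hS h)
    -- another colour outside `p`
    obtain ⟨k, l, hkl⟩ : ∃ k l : Fin 4, ∀ a : Fin 4, a = p.1 ∨ a = p.2 ∨ a = k ∨ a = l := by
      have : ∀ i j : Fin 4, i ≠ j → ∃ k l : Fin 4, ∀ a : Fin 4, a = i ∨ a = j ∨ a = k ∨ a = l := by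
        decide
      exact this _ _ hp
    refine HasBipartiteCut.mk' {v | v ∉ Z} {v | v ∈ S} {v | v ∈ Z \ S} hne hR ?_ ?_ ?_ ?_ ?_
      (fun v => decide (c v = k)) ?_
    · rw [Set.disjoint_left]
      intro v h1 h2
      exact h1 (hS h2)
    · rw [Set.disjoint_left]
      intro v h1 h2
      exact h1 (mem_sdiff.1 h2).1
    · rw [Set.disjoint_left]
      intro v h1 h2
      exact (mem_sdiff.1 h2).2 h1
    · intro v
      by_cases h1 : v ∈ Z
      · by_cases h2 : v ∈ S
        · exact Or.inr (Or.inl h2)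
        · exact Or.inr (Or.inr (mem_sdiff.2 ⟨h1, h2⟩))
      · exact Or.inl h1
    · intro x hx y hy
      exact hno x hx y hy
    · intro u hu v hv huv heq
      have hu' : ¬ (u ∈ W ∨ InP c p u) := fun h => hu ((hmem u).2 h)
      have hv' : ¬ (v ∈ W ∨ InP c p v) := fun h => hv ((hmem v).2 h)
      have hcc := hc u v (fun h => hu' (Or.inl h)) (fun h => hv' (Or.inl h)) huv
      have hcu : c u = k ∨ c u = l := by
        rcases hkl (c u) with h | h | h | h
        · exact absurd (Or.inr (Or.inl h)) hu'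
        · exact absurd (Or.inr (Or.inr h)) hu'
        · exact Or.inl h
        · exact Or.inr h
      have hcv : c v = k ∨ c v = l := by
        rcases hkl (c v) with h | h | h | h
        · exact absurd (Or.inr (Or.inl h)) hv'
        · exact absurd (Or.inr (Or.inr h)) hv'
        · exact Or.inl h
        · exact Or.inr h
      have hiff : c u = k ↔ c v = k := by
        have := decide_eq_decide.1 heq
        exact this
      rcases hcu with h1 | h1 <;> rcases hcv with h2 | h2
      · exact hcc (h1.trans h2.symm)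
      · exact hcc (h1.trans (hiff.1 h1).symm)
      · exact hcc ((hiff.2 h2).trans h2.symm)
      · exact hcc (h1.trans h2.symm)
  -- the reduced relation is still connected
  have hr : ∀ S ⊆ Z, S.Nonempty → S ≠ Z → ∃ x ∈ S, ∃ y ∈ Z \ S, r x y := by
    intro S hS hne hSZ
    by_contra hno
    push Not at hno
    have hKr : ∀ u v, KE G W c p u v → r u v := fun u v h =>
      ⟨h.1, fun h1 => h.2.1 h1.1, fun h1 => h.2.2.1 h1.1⟩
    have hKZ : ∀ u v, KE G W c p u v → v ∈ Z := fun u v h => (hmem v).2 (Or.inr h.2.2.2.2)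
    have hKZ' : ∀ u v, KE G W c p u v → u ∈ Z := fun u v h => (hmem u).2 (Or.inr h.2.2.2.1)
    have side : ∀ x y, Relation.ReflTransGen (KE G W c p) x y → (x ∈ S ↔ y ∈ S) := by
      intro x y hxy
      induction hxy with
      | refl => exact Iff.rfl
      | tail h1 h2 ih =>
        rename_i b d
        refine ih.trans ⟨fun hb => ?_, fun hd => ?_⟩
        · by_contra hd
          exact hno b hb d (mem_sdiff.2 ⟨hKZ _ _ h2, hd⟩) (hKr _ _ h2)
        · by_contra hb
          exact hno d hd b (mem_sdiff.2 ⟨hKZ' _ _ h2, hb⟩) (hrs _ _ (hKr _ _ h2))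
    have bad : ∀ w x, w ∈ W → x ∈ D w → (w ∈ S ↔ x ∈ S) := by
      intro w x hw hx
      obtain ⟨-, -, -, y, hyD, hwy, hyW, hyp, hxy⟩ := hD w hw x hx
      rw [side x y hxy]
      have hry : r w y := ⟨hwy, fun h => hyD h.2, fun h => hyW h.1⟩
      have hyZ : y ∈ Z := (hmem y).2 (Or.inr hyp)
      have hwZ : w ∈ Z := (hmem w).2 (Or.inl hw)
      constructor
      · intro h
        by_contra h2
        exact hno w h y (mem_sdiff.2 ⟨hyZ, h2⟩) hry
      · intro h
        by_contra h2
        exact hno y h w (mem_sdiff.2 ⟨hwZ, h2⟩) (hrs _ _ hry)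
    obtain ⟨x, hx, y, hy, hxy⟩ := hG S hS hne hSZ
    have hyS := (mem_sdiff.1 hy).2
    have : ¬ r x y := hno x hx y hy
    have h2 : rem x y ∨ rem y x := by
      by_contra h3
      push Not at h3
      exact this ⟨hxy, h3.1, h3.2⟩
    rcases h2 with h2 | h2
    · exact hyS ((bad x y h2.1 h2.2).1 hx)
    · exact hyS ((bad y x h2.1 h2.2).2 hx)
  by_cases hZ : Z.Nonempty
  · have hg := growth r hrs Z hZ hr
    -- count the removed pairs
    have hsplit : ((Z ×ˢ Z).filter (fun q => r q.1 q.2)).card + 2 * ∑ w ∈ W, (D w).card ≤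
        ((Z ×ˢ Z).filter (fun q => G.Adj q.1 q.2)).card := by
      have e1 : (W.sigma (fun w => D w)).card = ∑ w ∈ W, (D w).card := card_sigma _ _
      set A := (W.sigma (fun w => D w)).image (fun q : (_ : V) × V => (q.1, q.2)) with hA
      set B := (W.sigma (fun w => D w)).image (fun q : (_ : V) × V => (q.2, q.1)) with hB
      have hAc : A.card = ∑ w ∈ W, (D w).card := by
        rw [← e1, hA]
        apply card_image_of_injective
        rintro ⟨a, b⟩ ⟨a', b'⟩ h
        simp only [Prod.mk.injEq] at h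
        obtain ⟨rfl, rfl⟩ := h
        rfl
      have hBc : B.card = ∑ w ∈ W, (D w).card := by
        rw [← e1, hB]
        apply card_image_of_injective
        rintro ⟨a, b⟩ ⟨a', b'⟩ h
        simp only [Prod.mk.injEq] at h
        obtain ⟨rfl, rfl⟩ := h
        rfl
      have mA : ∀ q, q ∈ A ↔ rem q.1 q.2 := by
        rintro ⟨u, v⟩
        simp only [hA, mem_image, mem_sigma, Prod.mk.injEq, Sigma.exists]
        constructor
        · rintro ⟨a, b, ⟨h1, h2⟩, rfl, rfl⟩
          exact ⟨h1, h2⟩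
        · rintro ⟨h1, h2⟩
          exact ⟨u, v, ⟨h1, h2⟩, rfl, rfl⟩
      have mB : ∀ q, q ∈ B ↔ rem q.2 q.1 := by
        rintro ⟨u, v⟩
        simp only [hB, mem_image, mem_sigma, Prod.mk.injEq, Sigma.exists]
        constructor
        · rintro ⟨a, b, ⟨h1, h2⟩, rfl, rfl⟩
          exact ⟨h1, h2⟩
        · rintro ⟨h1, h2⟩
          exact ⟨v, u, ⟨h1, h2⟩, rfl, rfl⟩
      have hrem : ∀ u v, rem u v → G.Adj u v ∧ u ∈ Z ∧ v ∈ Z ∧ v ∉ W := by
        rintro u v ⟨h1, h2⟩
        obtain ⟨h3, h4, h5, -⟩ := hD u h1 v h2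
        exact ⟨h3, (hmem u).2 (Or.inl h1), (hmem v).2 (Or.inr h5), h4⟩
      have hAB : Disjoint A B := by
        rw [disjoint_left]
        intro q h1 h2
        rw [mA] at h1
        rw [mB] at h2
        exact (hrem _ _ h1).2.2.2 h2.1
      have hrA : Disjoint ((Z ×ˢ Z).filter (fun q => r q.1 q.2)) (A ∪ B) := by
        rw [disjoint_left]
        intro q h1 h2
        rw [mem_filter] at h1
        rw [mem_union, mA, mB] at h2
        rcases h2 with h2 | h2
        · exact h1.2.2.1 h2
        · exact h1.2.2.2 h2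
      have hsub : (Z ×ˢ Z).filter (fun q => r q.1 q.2) ∪ (A ∪ B) ⊆
          (Z ×ˢ Z).filter (fun q => G.Adj q.1 q.2) := by
        intro q hq
        rw [mem_union, mem_union, mem_filter, mA, mB] at hq
        rw [mem_filter, mem_product]
        rcases hq with hq | hq | hq
        · exact ⟨mem_product.1 hq.1, hq.2.1⟩
        · obtain ⟨h1, h2, h3, -⟩ := hrem _ _ hq
          exact ⟨⟨h2, h3⟩, h1⟩
        · obtain ⟨h1, h2, h3, -⟩ := hrem _ _ hq
          exact ⟨⟨h3, h2⟩, h1.symm⟩
      have h3 := card_le_card hsub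
      rw [card_union_of_disjoint hrA, card_union_of_disjoint hAB, hAc, hBc] at h3
      omega
    omega
  · rw [not_nonempty_iff_eq_empty] at hZ
    have hW0 : W = ∅ := by
      rw [eq_empty_iff_forall_notMem]
      intro w hw
      have : w ∈ Z := (hmem w).2 (Or.inl hw)
      rw [hZ] at this
      exact notMem_empty _ this
    rw [hZ, hW0]
    simp

end Kempe

end MP_aecbcf
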