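import Mathlib

/-!
# Bipartite cuts (problem MP_aecbcf_co)
-/

set_option autoImplicit false

namespace MP_aecbcf

variable {V : Type*}

/-- `G` has a bipartite cut: `V = M ⊔ L ⊔ R` with `L`, `R` non-empty, no edge between `L` and `R`,
and `G[M]` bipartite. -/
def HasBipartiteCut (G : SimpleGraph V) : Prop :=
  ∃ M L R : Set V, L.Nonempty ∧ R.Nonempty ∧ Disjoint M L ∧ Disjoint M R ∧ Disjoint L R ∧
    M ∪ L ∪ R = Set.univ ∧ (∀ x ∈ L, ∀ y ∈ R, ¬ G.Adj x y) ∧ (G.induce M).Colorable 2

/-- The vertex `w` lies in a complete subgraph on four vertices. -/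
def InK4 (G : SimpleGraph V) (w : V) : Prop :=
  ∃ x y z, G.Adj w x ∧ G.Adj w y ∧ G.Adj w z ∧ G.Adj x y ∧ G.Adj x z ∧ G.Adj y z

open Classical in
/-- The cost of a vertex `w` of degree `d` with respect to a set `W`: `2d - 9` if `w` lies in a `K₄`
or has a neighbour in `W`, otherwise `2d - 10` (truncated at `0`). -/
noncomputable def cost (G : SimpleGraph V) [Fintype V] (W : Finset V) (w : V) : ℕ :=
  if InK4 G w ∨ (∃ x ∈ W, G.Adj w x) then 2 * G.degree w - 9 else 2 * G.degree w - 10

open Classical in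
/-- The number of edges of `G` with both ends in `W`. -/
noncomputable def inner (G : SimpleGraph V) [Fintype V] (W : Finset V) : ℕ :=
  (G.edgeFinset.filter (fun e => ∀ x ∈ e, x ∈ W)).card

/-- A cut given by a two-colouring of `M`. -/
theorem HasBipartiteCut.mk' {G : SimpleGraph V} (M L R : Set V) (hL : L.Nonempty)
    (hR : R.Nonempty) (h1 : Disjoint M L) (h2 : Disjoint M R) (h3 : Disjoint L R)
    (h4 : ∀ v, v ∈ M ∨ v ∈ L ∨ v ∈ R) (h5 : ∀ x ∈ L, ∀ y ∈ R, ¬ G.Adj x y) (f : V → Bool)
    (hf : ∀ u ∈ M, ∀ v ∈ M, G.Adj u v → f u ≠ f v) : HasBipartiteCut G := by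
  refine ⟨M, L, R, hL, hR, h1, h2, h3, ?_, h5, ?_⟩
  · ext v
    simp only [Set.mem_union, Set.mem_univ, iff_true]
    rcases h4 v with h | h | h
    · exact Or.inl (Or.inl h)
    · exact Or.inl (Or.inr h)
    · exact Or.inr h
  · have C : (G.induce M).Coloring Bool :=
      SimpleGraph.Coloring.mk (fun v => f v.1) (fun {u v} huv => hf u.1 u.2 v.1 v.2 huv)
    have := C.colorable
    rwa [Fintype.card_bool] at this

/-- In a graph without bipartite cut no neighbourhood is bipartite. -/
theorem nbr_not_bip {G : SimpleGraph V} [Fintype V] (hn : 4 ≤ Fintype.card V)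
    (h : ¬ HasBipartiteCut G) (v : V) :
    ¬ ∃ f : V → Bool, ∀ x y, G.Adj v x → G.Adj v y → G.Adj x y → f x ≠ f y := by
  classical
  rintro ⟨f, hf⟩
  by_cases hout : ∃ u, u ≠ v ∧ ¬ G.Adj v u
  · obtain ⟨u, hu1, hu2⟩ := hout
    apply h
    refine HasBipartiteCut.mk' {x | G.Adj v x} {v} {x | x ≠ v ∧ ¬ G.Adj v x} ⟨v, rfl⟩
      ⟨u, hu1, hu2⟩ ?_ ?_ ?_ ?_ ?_ f ?_
    · rw [Set.disjoint_left]
      rintro x hx rfl
      exact G.loopless.irrefl _ hx
    · rw [Set.disjoint_left]
      rintro x hx ⟨-, hx2⟩
      exact hx2 hx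
    · rw [Set.disjoint_left]
      rintro x hx ⟨hx1, -⟩
      exact hx1 hx
    · intro x
      by_cases hx : x = v
      · exact Or.inr (Or.inl hx)
      · by_cases hx2 : G.Adj v x
        · exact Or.inl hx2
        · exact Or.inr (Or.inr ⟨hx, hx2⟩)
    · rintro x rfl y ⟨-, hy⟩
      exact hy
    · intro x hx y hy
      exact hf x y hx hy
  · push Not at hout
    -- every vertex other than `v` is a neighbour of `v`
    have hcard : 3 ≤ (Finset.univ.erase v).card := by
      rw [Finset.card_erase_of_mem (Finset.mem_univ v), Finset.card_univ]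
      omega
    -- two neighbours with the same colour
    have key : ∃ b : Bool, ∃ x y, x ≠ v ∧ y ≠ v ∧ x ≠ y ∧ f x = b ∧ f y = b := by
      obtain ⟨x, hx, y, hy, hxy, hf'⟩ := Finset.exists_ne_map_eq_of_card_lt_of_maps_to
        (s := Finset.univ.erase v) (t := (Finset.univ : Finset Bool)) (by
          rw [Finset.card_univ, Fintype.card_bool]
          omega) (f := f) (fun _ _ => Finset.mem_univ _)
      exact ⟨f x, x, y, Finset.ne_of_mem_erase hx, Finset.ne_of_mem_erase hy, hxy, rfl, hf'.symm⟩
    obtain ⟨b, x, y, hxv, hyv, hxy, hx, hy⟩ := key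
    apply h
    refine HasBipartiteCut.mk' {z | z = v ∨ f z ≠ b} {z | z = x}
      {z | z ≠ v ∧ f z = b ∧ z ≠ x} ⟨x, rfl⟩ ⟨y, hyv, hy, hxy.symm⟩ ?_ ?_ ?_ ?_ ?_
      (fun z => decide (z = v)) ?_
    · rw [Set.disjoint_left]
      rintro z (hz | hz) hz2
      · exact hxv (hz2.symm.trans hz)
      · have hz3 : z = x := hz2
        rw [hz3] at hz
        exact hz hx
    · rw [Set.disjoint_left]
      rintro z (hz | hz) ⟨h1, h2, -⟩
      · exact h1 hz
      · exact hz h2
    · rw [Set.disjoint_left]
      rintro z hz ⟨-, -, h3⟩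
      exact h3 hz
    · intro z
      by_cases h1 : z = v
      · exact Or.inl (Or.inl h1)
      · by_cases h2 : f z = b
        · by_cases h3 : z = x
          · exact Or.inr (Or.inl h3)
          · exact Or.inr (Or.inr ⟨h1, h2, h3⟩)
        · exact Or.inl (Or.inr h2)
    · rintro z hz z' ⟨h1, h2, h3⟩ hadj
      have hz3 : z = x := hz
      rw [hz3] at hadj
      exact hf x z' (hout x hxv) (hout z' h1) hadj (hx.trans h2.symm)
    · rintro z hz z' hz' hadj
      rcases hz with hz | hz <;> rcases hz' with hz' | hz'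
      · rw [hz, hz'] at hadj
        exact absurd hadj (G.loopless.irrefl _)
      · have : z' ≠ v := by
          rintro rfl
          rw [hz] at hadj
          exact G.loopless.irrefl _ hadj
        simp [hz, this]
      · have : z ≠ v := by
          rintro rfl
          rw [hz'] at hadj
          exact G.loopless.irrefl _ hadj
        simp [hz', this]
      · by_cases h1 : z = v
        · have : z' ≠ v := by
            rintro rfl
            rw [h1] at hadj
            exact G.loopless.irrefl _ hadj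
          simp [h1, this]
        · by_cases h2 : z' = v
          · simp [h1, h2]
          · exfalso
            have h3 := hf z z' (hout z h1) (hout z' h2) hadj
            revert h3 hz hz'
            cases f z <;> cases f z' <;> cases b <;> simp

end MP_aecbcf
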