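import Pool.Agent.Lib.MP_aecbcf_co.Kempe

/-!
# Averaging over the classes of a 5-colouring
-/

set_option autoImplicit false

namespace MP_aecbcf

open Finset

variable {V : Type*}

/-- In a graph without bipartite cut every vertex of degree at most four lies in a `K₄`. -/
theorem small_nbr [Fintype V] (G : SimpleGraph V) [DecidableRel G.Adj]
    (hn : 4 ≤ Fintype.card V) (hcut : ¬ HasBipartiteCut G) (v : V) (h4 : G.degree v ≤ 4) :
    InK4 G v := by
  classical
  by_contra hK
  apply nbr_not_bip hn hcut v
  have hcard : Fintype.card {x // x ∈ G.neighborFinset v} ≤ Fintype.card (Fin 4) := by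
    rw [Fintype.card_coe, Fintype.card_fin, SimpleGraph.card_neighborFinset_eq_degree]
    exact h4
  obtain ⟨e⟩ := Function.Embedding.nonempty_of_card_le hcard
  obtain ⟨f, hf⟩ := two_col (G.comap (Subtype.val : {x // G.Adj v x} → V))
    (fun x => e ⟨x.1, (G.mem_neighborFinset v x.1).2 x.2⟩)
    (by
      intro x y hxy h
      have h2 := e.injective h
      have h3 : x.1 = y.1 := by
        rw [Subtype.mk.injEq] at h2
        exact h2
      have h4 : G.Adj x.1 y.1 := hxy
      rw [h3] at h4
      exact G.loopless.irrefl _ h4)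
    (by
      intro x y x' y' _ _ h _
      have h2 := e.injective h
      have h3 : x.1 = x'.1 := by
        rw [Subtype.mk.injEq] at h2
        exact h2
      exact Subtype.ext h3)
    (by
      intro x y z h1 h2 h3
      exact hK ⟨x.1, y.1, z.1, x.2, y.2, z.2, h1, h3, h2⟩)
  refine ⟨fun x => if h : G.Adj v x then f ⟨x, h⟩ else false, fun x y hx hy hxy => ?_⟩
  simp only [dif_pos hx, dif_pos hy]
  exact hf ⟨x, hx⟩ ⟨y, hy⟩ hxy

/-- In a graph without bipartite cut all degrees are at least three. -/
theorem three_le_degree [Fintype V] (G : SimpleGraph V) [DecidableRel G.Adj]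
    (hn : 4 ≤ Fintype.card V) (hcut : ¬ HasBipartiteCut G) (v : V) : 3 ≤ G.degree v := by
  classical
  by_contra hlt
  obtain ⟨x, y, z, hx, hy, hz, hxy, hxz, hyz⟩ := small_nbr G hn hcut v (by omega)
  have h3 : ({x, y, z} : Finset V).card = 3 := by
    rw [card_eq_three]
    exact ⟨x, y, z, hxy.ne, hxz.ne, hyz.ne, rfl⟩
  have hsub : ({x, y, z} : Finset V) ⊆ G.neighborFinset v := by
    intro u hu
    rw [mem_insert, mem_insert, mem_singleton] at hu
    rw [SimpleGraph.mem_neighborFinset]
    rcases hu with rfl | rfl | rfl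
    · exact hx
    · exact hy
    · exact hz
  have := card_le_card hsub
  rw [h3, SimpleGraph.card_neighborFinset_eq_degree] at this
  omega

/-- Inequality (A) for a stable set. -/
theorem ineqS [Fintype V] (G : SimpleGraph V) [DecidableRel G.Adj]
    (hn : 4 ≤ Fintype.card V) (hcut : ¬ HasBipartiteCut G) (W : Finset V)
    (hW : ∀ x ∈ W, ∀ y ∈ W, ¬ G.Adj x y)
    (hc : ∃ c : V → Fin 4, ∀ u v, u ∉ W → v ∉ W → G.Adj u v → c u ≠ c v) :
    3 * Fintype.card V ≤ G.edgeFinset.card + 6 + ∑ w ∈ W, cost G ∅ w := by
  classical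
  have h1 := ineqA G hn hcut W hc
  have h2 : inner G W = 0 := by
    unfold inner
    rw [card_eq_zero, filter_eq_empty_iff]
    intro e he hall
    induction e with
    | _ u v =>
      simp only [SimpleGraph.mem_edgeFinset, SimpleGraph.mem_edgeSet] at he
      exact hW u (hall u (Sym2.mem_mk_left _ _)) v (hall v (Sym2.mem_mk_right _ _)) he
  have h3 : ∑ w ∈ W, cost G W w = ∑ w ∈ W, cost G ∅ w := by
    apply sum_congr rfl
    intro w hw
    unfold cost
    have h4 : ¬ ∃ x ∈ W, G.Adj w x := by
      rintro ⟨x, hx, hwx⟩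
      exact hW w hw x hx hwx
    have h5 : ¬ ∃ x ∈ (∅ : Finset V), G.Adj w x := by
      rintro ⟨x, hx, -⟩
      exact notMem_empty _ hx
    by_cases h : InK4 G w
    · rw [if_pos (Or.inl h), if_pos (Or.inl h)]
    · rw [if_neg (fun h' => h'.elim h h4), if_neg (fun h' => h'.elim h h5)]
  omega

/-- **The averaged inequality** for graphs with a proper colouring by five colours. -/
theorem ineq5 [Fintype V] (G : SimpleGraph V) [DecidableRel G.Adj]
    (hn : 4 ≤ Fintype.card V) (hcut : ¬ HasBipartiteCut G) (h5 : G.Colorable 5) :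
    15 * Fintype.card V ≤ 5 * G.edgeFinset.card + 30 + ∑ v, cost G ∅ v := by
  classical
  obtain ⟨c⟩ := h5
  have hk : ∀ k : Fin 5, 3 * Fintype.card V ≤
      G.edgeFinset.card + 6 + ∑ w ∈ univ.filter (fun v => c v = k), cost G ∅ w := by
    intro k
    apply ineqS G hn hcut
    · intro x hx y hy hxy
      exact c.valid hxy ((mem_filter.1 hx).2.trans (mem_filter.1 hy).2.symm)
    · have hex : ∀ v : V, ∃ a : Fin 4, c v ≠ k → k.succAbove a = c v := by
        intro v
        by_cases h : c v = k
        · exact ⟨0, fun h' => absurd h h'⟩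
        · obtain ⟨a, ha⟩ := Fin.exists_succAbove_eq h
          exact ⟨a, fun _ => ha⟩
      choose c' hc' using hex
      refine ⟨c', fun u v hu hv huv h => ?_⟩
      have hu' : c u ≠ k := fun h => hu (mem_filter.2 ⟨mem_univ _, h⟩)
      have hv' : c v ≠ k := fun h => hv (mem_filter.2 ⟨mem_univ _, h⟩)
      apply c.valid huv
      rw [← hc' u hu', ← hc' v hv', h]
  have hsum := sum_le_sum (fun k (_ : k ∈ (univ : Finset (Fin 5))) => hk k)
  rw [sum_add_distrib, sum_fiberwise, sum_const, sum_const, card_univ, Fintype.card_fin,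
    smul_eq_mul, smul_eq_mul] at hsum
  omega

/-- 5-colourable graphs without `K₄`. -/
theorem ineq5free [Fintype V] (G : SimpleGraph V) [DecidableRel G.Adj]
    (hn : 4 ≤ Fintype.card V) (hcut : ¬ HasBipartiteCut G) (h5 : G.Colorable 5)
    (hK : G.CliqueFree 4) :
    25 * Fintype.card V ≤ 9 * G.edgeFinset.card + 30 := by
  classical
  have hno : ∀ v, ¬ InK4 G v := by
    rintro v ⟨x, y, z, hx, hy, hz, hxy, hxz, hyz⟩
    apply hK {v, x, y, z}
    rw [SimpleGraph.isNClique_iff]
    constructor
    · intro a ha b hb hab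
      simp only [coe_insert, coe_singleton, Set.mem_insert_iff, Set.mem_singleton_iff] at ha hb
      rcases ha with rfl | rfl | rfl | rfl <;> rcases hb with rfl | rfl | rfl | rfl <;>
        first
        | exact absurd rfl hab
        | assumption
        | (apply SimpleGraph.Adj.symm; assumption)
    · rw [card_insert_of_notMem, card_insert_of_notMem, card_pair hyz.ne]
      · rw [mem_insert, mem_singleton]
        rintro (h | h)
        · exact hxy.ne h
        · exact hxz.ne h
      · rw [mem_insert, mem_insert, mem_singleton]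
        rintro (h | h | h)
        · exact hx.ne h
        · exact hy.ne h
        · exact hz.ne h
  have h1 := ineq5 G hn hcut h5
  have h2 : ∑ v, (cost G ∅ v + 10) ≤ ∑ v, 2 * G.degree v := by
    apply sum_le_sum
    intro v _
    have h3 : 5 ≤ G.degree v := by
      by_contra h
      exact hno v (small_nbr G hn hcut v (by omega))
    have h4 : cost G ∅ v = 2 * G.degree v - 10 := by
      unfold cost
      have h5 : ¬ ∃ x ∈ (∅ : Finset V), G.Adj v x := by
        rintro ⟨x, hx, -⟩
        exact notMem_empty _ hx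
      rw [if_neg (fun h' => h'.elim (hno v) h5), deg_inst G v _ _]
    omega
  rw [sum_add_distrib, ← mul_sum, G.sum_degrees_eq_twice_card_edges, sum_const, card_univ,
    smul_eq_mul] at h2
  omega

end MP_aecbcf
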