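import Pool.Agent.Lib.MP_aecbcf_co.Heavy

/-! Graphs without a bipartite cut that admit none of the reductions. -/

set_option autoImplicit false

namespace Pool.Agent.Lib.MP_aecbcf_co.Gen

open Finset Pool.Agent.Results.MP_aecbcf_co.FourColourable Pool.Agent.Lib.MP_aecbcf_co.Heavy

variable {V : Type*} [Fintype V] [DecidableEq V] {G : SimpleGraph V} [DecidableRel G.Adj]

/-- exchange argument -/
theorem exch {S : Finset V} (hS : IsStable G S) (hmax : ∀ T, IsStable G T → wt G T ≤ wt G S)
    {T R : Finset V} (hT : IsStable G T) (hTS : Disjoint T S) (hR : R ⊆ S)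
    (h : ∀ x ∈ T, ∀ y ∈ S, G.Adj x y → y ∈ R) : wt G T ≤ wt G R := by
  have h1 : IsStable G (T ∪ (S \ R)) := by
    intro x hx y hy hxy
    rw [mem_union, mem_sdiff] at hx hy
    rcases hx with hx | hx <;> rcases hy with hy | hy
    · exact hT x hx y hy hxy
    · exact hy.2 (h x hx y hy.1 hxy)
    · exact hx.2 (h y hy x hx.1 hxy.symm)
    · exact hS x hx.1 y hy.1 hxy
  have h2 := hmax _ h1
  have h3 : Disjoint T (S \ R) := disjoint_of_subset_right sdiff_subset hTS
  have h4 : wt G (T ∪ (S \ R)) = wt G T + wt G (S \ R) := by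
    unfold wt; exact sum_union h3
  have h5 : wt G (S \ R) + wt G R = wt G S := by
    unfold wt; exact sum_sdiff hR
  linarith

/-- a triangle-free set of at most four vertices is the union of two stable sets -/
theorem two_sets {N : Finset V} (hc : N.card ≤ 4)
    (ht : ∀ x ∈ N, ∀ y ∈ N, ∀ z ∈ N, G.Adj x y → G.Adj y z → ¬ G.Adj x z) :
    ∃ B C : Finset V, IsStable G B ∧ IsStable G C ∧ ∀ x, x ∈ N ↔ x ∈ B ∨ x ∈ C := by
  classical
  obtain ⟨c⟩ := two_col (G.induce (N : Set V)) (by simpa using hc) (by
    rintro ⟨x, hx⟩ ⟨y, hy⟩ ⟨z, hz⟩ hxy hyz hxz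
    exact ht x hx y hy z hz hxy hyz hxz)
  refine ⟨N.filter fun x => ∃ h : x ∈ (N : Set V), c ⟨x, h⟩ = 0,
    N.filter fun x => ∃ h : x ∈ (N : Set V), c ⟨x, h⟩ = 1, ?_, ?_, ?_⟩
  · intro x hx y hy hxy
    obtain ⟨-, hx1, hx2⟩ := mem_filter.1 hx
    obtain ⟨-, hy1, hy2⟩ := mem_filter.1 hy
    have hxy' : (G.induce (N : Set V)).Adj ⟨x, hx1⟩ ⟨y, hy1⟩ := hxy
    exact c.valid hxy' (hx2.trans hy2.symm)
  · intro x hx y hy hxy
    obtain ⟨-, hx1, hx2⟩ := mem_filter.1 hx
    obtain ⟨-, hy1, hy2⟩ := mem_filter.1 hy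
    have hxy' : (G.induce (N : Set V)).Adj ⟨x, hx1⟩ ⟨y, hy1⟩ := hxy
    exact c.valid hxy' (hx2.trans hy2.symm)
  · intro x
    constructor
    · intro hx
      have h2 : c ⟨x, hx⟩ = 0 ∨ c ⟨x, hx⟩ = 1 := by
        generalize c ⟨x, hx⟩ = i
        fin_cases i <;> simp
      rcases h2 with h2 | h2
      · exact Or.inl (mem_filter.2 ⟨hx, hx, h2⟩)
      · exact Or.inr (mem_filter.2 ⟨hx, hx, h2⟩)
    · rintro (hx | hx)
      · exact (mem_filter.1 hx).1
      · exact (mem_filter.1 hx).1

theorem cut_of {A B C : Finset V} (hB : IsStable G B) (hC : IsStable G C)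
    (hAB : ∀ x ∈ A, x ∉ B) (hAC : ∀ x ∈ A, x ∉ C)
    (hcl : ∀ x ∈ A, ∀ y, G.Adj x y → y ∈ A ∨ y ∈ B ∨ y ∈ C)
    {a w : V} (ha : a ∈ A) (hw : w ∉ A) (hwB : w ∉ B) (hwC : w ∉ C) : HasBipartiteCut G := by
  classical
  refine ⟨(B ∪ C : Finset V), ?_, ?_⟩
  · refine ⟨SimpleGraph.Coloring.mk (fun x => if x.1 ∈ B then (0 : Fin 2) else 1) ?_⟩
    rintro ⟨x, hx⟩ ⟨y, hy⟩ hxy
    have hxy' : G.Adj x y := hxy
    rw [mem_coe, mem_union] at hx hy
    by_cases hxS : x ∈ B
    · by_cases hyS : y ∈ B
      · exact absurd hxy' (hB x hxS y hyS)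
      · simp [hxS, hyS]
    · by_cases hyS : y ∈ B
      · simp [hxS, hyS]
      · exact absurd hxy' (hC x (hx.resolve_left hxS) y (hy.resolve_left hyS))
  · intro hP
    have hout : ∀ x, x ∉ B → x ∉ C → x ∈ ((B ∪ C : Finset V) : Set V)ᶜ := by
      intro x h1 h2 hx
      rw [mem_coe, mem_union] at hx
      exact hx.elim h1 h2
    have hr := hP ⟨a, hout a (hAB a ha) (hAC a ha)⟩ ⟨w, hout w hwB hwC⟩
    have key : ∀ x y : (((B ∪ C : Finset V) : Set V)ᶜ : Set V),
        (G.induce ((B ∪ C : Finset V) : Set V)ᶜ).Walk x y → x.1 ∈ A → y.1 ∈ A := by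
      intro x y p
      induction p with
      | nil => exact id
      | @cons x y z hxy _ ih =>
        intro hx
        apply ih
        have hxy' : G.Adj x.1 y.1 := hxy
        have hy := y.2
        rcases hcl _ hx _ hxy' with h | h | h
        · exact h
        · exact absurd (by rw [mem_coe]; exact mem_union_left _ h) hy
        · exact absurd (by rw [mem_coe]; exact mem_union_right _ h) hy
    obtain ⟨p⟩ := hr
    exact hw (key _ _ p ha)

theorem exists_outside {A : Finset V} {k : ℕ} (hA : A.card ≤ k) (hk : k < Fintype.card V) :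
    ∃ w, w ∉ A := by
  by_contra h
  push Not at h
  rw [eq_univ_iff_forall.2 h, card_univ] at hA
  omega

/-- the neighbours of `v` in `S` -/
def nb (G : SimpleGraph V) [DecidableRel G.Adj] (S : Finset V) (v : V) : Finset V :=
  S.filter fun t => G.Adj v t

theorem priv_of_card {S : Finset V} (hS : IsStable G S) {s v : V} (hs : s ∈ S) (hv : G.Adj s v)
    (h : (nb G S v).card = 1) : v ∈ priv G S s := by
  obtain ⟨t, ht⟩ := card_eq_one.1 h
  have h1 : s ∈ nb G S v := mem_filter.2 ⟨hs, hv.symm⟩
  rw [ht, mem_singleton] at h1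
  rw [mem_priv]
  refine ⟨fun hvS => hS s hs v hvS hv, ?_⟩
  rw [h1]; exact ht


/-- two different non-adjacent vertices have at most two common neighbours -/
def H1 (G : SimpleGraph V) : Prop := ∀ u w a b c : V, u ≠ w → ¬ G.Adj u w → a ≠ b → a ≠ c → b ≠ c →
  G.Adj u a → G.Adj u b → G.Adj u c → G.Adj w a → G.Adj w b → G.Adj w c → False

/-- no neighbourhood is a clique -/
def H2 (G : SimpleGraph V) : Prop := ∀ v : V,
  (∀ x y, G.Adj v x → G.Adj v y → x ≠ y → G.Adj x y) → False

/-- no clique of five vertices of degree five -/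
def H3 (G : SimpleGraph V) [DecidableRel G.Adj] : Prop := ∀ Q : Finset V, Q.card = 5 →
  (∀ x ∈ Q, ∀ y ∈ Q, x ≠ y → G.Adj x y) → (∀ x ∈ Q, G.degree x = 5) → False

/-- a small set that separates contains a triangle -/
theorem cut_small (hG : ¬ HasBipartiteCut G) {A M : Finset V} (hc : M.card ≤ 4)
    (hAM : ∀ x ∈ A, x ∉ M) (hcl : ∀ x ∈ A, ∀ y, G.Adj x y → y ∈ A ∨ y ∈ M) {a w : V} (ha : a ∈ A)
    (hwA : w ∉ A) (hwM : w ∉ M) :
    ∃ x ∈ M, ∃ y ∈ M, ∃ z ∈ M, G.Adj x y ∧ G.Adj y z ∧ G.Adj x z := by
  by_contra hcon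
  push Not at hcon
  obtain ⟨B, C, hB, hC, hBC⟩ := two_sets (G := G) hc hcon
  apply hG
  refine cut_of (A := A) hB hC ?_ ?_ ?_ ha hwA ?_ ?_
  · exact fun x hx h => hAM x hx ((hBC x).2 (Or.inl h))
  · exact fun x hx h => hAM x hx ((hBC x).2 (Or.inr h))
  · intro x hx y hxy
    rcases hcl x hx y hxy with h | h
    · exact Or.inl h
    · exact Or.inr ((hBC y).1 h)
  · exact fun h => hwM ((hBC w).2 (Or.inl h))
  · exact fun h => hwM ((hBC w).2 (Or.inr h))

theorem mem_nf {v x : V} : x ∈ G.neighborFinset v ↔ G.Adj v x :=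
  SimpleGraph.mem_neighborFinset _ _ _

theorem triangle_nbhd (hG : ¬ HasBipartiteCut G) {s : V} (h4 : G.degree s ≤ 4)
    (hn : G.degree s + 2 ≤ Fintype.card V) :
    ∃ x y z, G.Adj s x ∧ G.Adj s y ∧ G.Adj s z ∧ G.Adj x y ∧ G.Adj y z ∧ G.Adj x z := by
  have hsN : s ∉ G.neighborFinset s := by simp
  obtain ⟨w, hw⟩ := exists_outside (A := insert s (G.neighborFinset s)) (k := G.degree s + 1)
    (by rw [card_insert_of_notMem hsN, SimpleGraph.card_neighborFinset_eq_degree]) (by omega)
  rw [mem_insert] at hw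
  push Not at hw
  obtain ⟨x, hx, y, hy, z, hz, h1, h2, h3⟩ := cut_small hG (A := {s}) (M := G.neighborFinset s)
    (by rw [SimpleGraph.card_neighborFinset_eq_degree]; exact h4)
    (by
      intro x hx
      rw [mem_singleton] at hx
      rw [hx]; exact hsN)
    (by
      intro x hx y hxy
      rw [mem_singleton] at hx
      rw [hx] at hxy
      exact Or.inr (mem_nf.2 hxy))
    (mem_singleton_self s) (w := w) (by rw [mem_singleton]; exact hw.1) hw.2
  exact ⟨x, y, z, mem_nf.1 hx, mem_nf.1 hy, mem_nf.1 hz, h1, h2, h3⟩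

theorem card3 {x y z : V} (h1 : x ≠ y) (h2 : x ≠ z) (h3 : y ≠ z) :
    ({x, y, z} : Finset V).card = 3 := by
  rw [card_insert_of_notMem, card_insert_of_notMem, card_singleton]
  · simp [h3]
  · simp [h1, h2]

theorem card4 {t x y z : V} (h1 : t ≠ x) (h2 : t ≠ y) (h3 : t ≠ z) (h4 : x ≠ y) (h5 : x ≠ z)
    (h6 : y ≠ z) : ({t, x, y, z} : Finset V).card = 4 := by
  rw [card_insert_of_notMem, card3 h4 h5 h6]
  simp [h1, h2, h3]

theorem three_le (hG : ¬ HasBipartiteCut G) (hn : 4 ≤ Fintype.card V) (s : V) :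
    3 ≤ G.degree s := by
  by_contra hcon
  push Not at hcon
  obtain ⟨x, y, z, hx, hy, hz, h1, h2, h3⟩ := triangle_nbhd hG (s := s) (by omega) (by omega)
  have hsub : ({x, y, z} : Finset V) ⊆ G.neighborFinset s := by
    intro w hw
    simp only [mem_insert, mem_singleton] at hw
    rw [mem_nf]
    rcases hw with rfl | rfl | rfl <;> assumption
  have h4 := card_le_card hsub
  rw [card3 h1.ne h3.ne h2.ne, SimpleGraph.card_neighborFinset_eq_degree] at h4
  omega

theorem four_le (hG : ¬ HasBipartiteCut G) (hn : 5 ≤ Fintype.card V) (h2 : H2 G) (s : V) :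
    4 ≤ G.degree s := by
  by_contra hcon
  push Not at hcon
  obtain ⟨x, y, z, hx, hy, hz, e1, e2, e3⟩ := triangle_nbhd hG (s := s) (by omega) (by omega)
  have hsub : ({x, y, z} : Finset V) ⊆ G.neighborFinset s := by
    intro w hw
    simp only [mem_insert, mem_singleton] at hw
    rw [mem_nf]
    rcases hw with rfl | rfl | rfl <;> assumption
  have heq : ({x, y, z} : Finset V) = G.neighborFinset s :=
    eq_of_subset_of_card_le hsub (by
      rw [card3 e1.ne e3.ne e2.ne, SimpleGraph.card_neighborFinset_eq_degree]; omega)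
  apply h2 s
  intro u v hu hv huv
  have hu' : u ∈ ({x, y, z} : Finset V) := by rw [heq]; exact mem_nf.2 hu
  have hv' : v ∈ ({x, y, z} : Finset V) := by rw [heq]; exact mem_nf.2 hv
  simp only [mem_insert, mem_singleton] at hu' hv'
  rcases hu' with hu' | hu' | hu' <;> rcases hv' with hv' | hv' | hv' <;> rw [hu', hv'] <;>
    first
    | exact absurd (hu'.trans hv'.symm) huv
    | assumption
    | (apply SimpleGraph.Adj.symm; assumption)

/-- the fourth neighbour of a vertex of degree four is adjacent to at most one vertex of the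
triangle -/
theorem kfour (h1 : H1 G) (h2 : H2 G) {s t u v w : V} (hs : G.degree s = 4) (hst : G.Adj s t)
    (hsu : G.Adj s u) (hsv : G.Adj s v) (hsw : G.Adj s w) (htu : G.Adj t u) (htv : G.Adj t v)
    (htw : t ≠ w) (huv : G.Adj u v) (huw : G.Adj u w) (hvw : G.Adj v w) : False := by
  by_cases h : G.Adj t w
  · have hsub : ({t, u, v, w} : Finset V) ⊆ G.neighborFinset s := by
      intro z hz
      simp only [mem_insert, mem_singleton] at hz
      rw [mem_nf]
      rcases hz with rfl | rfl | rfl | rfl <;> assumption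
    have heq : ({t, u, v, w} : Finset V) = G.neighborFinset s :=
      eq_of_subset_of_card_le hsub (by
        rw [card4 htu.ne htv.ne htw huv.ne huw.ne hvw.ne,
          SimpleGraph.card_neighborFinset_eq_degree]; omega)
    apply h2 s
    intro x y hx hy hxy
    have hx' : x ∈ ({t, u, v, w} : Finset V) := by rw [heq]; exact mem_nf.2 hx
    have hy' : y ∈ ({t, u, v, w} : Finset V) := by rw [heq]; exact mem_nf.2 hy
    simp only [mem_insert, mem_singleton] at hx' hy'
    rcases hx' with hx' | hx' | hx' | hx' <;> rcases hy' with hy' | hy' | hy' | hy' <;>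
      rw [hx', hy'] <;>
      first
      | exact absurd (hx'.trans hy'.symm) hxy
      | assumption
      | (apply SimpleGraph.Adj.symm; assumption)
  · exact h1 t w s u v htw h hsu.ne hsv.ne huv.ne hst.symm htu htv hsw.symm huw.symm hvw.symm

/-- a vertex of degree four lies in no triangle of neighbours of another one -/
theorem tfour (hG : ¬ HasBipartiteCut G) (hn : 7 ≤ Fintype.card V) (h1 : H1 G) (h2 : H2 G)
    {s x y z : V} (hs : G.degree s = 4) (hx : G.degree x = 4) (hsx : G.Adj s x) (hyz : y ≠ z)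
    (hsy : G.Adj s y) (hsz : G.Adj s z) (hxy : G.Adj x y) (hxz : G.Adj x z) : False := by
  obtain ⟨M, hM⟩ : ∃ M, M = (G.neighborFinset s ∪ G.neighborFinset x) \ {s, x} := ⟨_, rfl⟩
  have hmem : ∀ u, u ∈ M ↔ (G.Adj s u ∨ G.Adj x u) ∧ u ≠ s ∧ u ≠ x := by
    intro u
    rw [hM, mem_sdiff, mem_union, mem_nf, mem_nf]
    simp
  have hU : (G.neighborFinset s ∪ G.neighborFinset x).card ≤ 6 := by
    have h3 := card_union_add_card_inter (G.neighborFinset s) (G.neighborFinset x)
    rw [SimpleGraph.card_neighborFinset_eq_degree, SimpleGraph.card_neighborFinset_eq_degree, hs,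
      hx] at h3
    have h4 : ({y, z} : Finset V) ⊆ G.neighborFinset s ∩ G.neighborFinset x := by
      intro w hw
      simp only [mem_insert, mem_singleton] at hw
      rw [mem_inter, mem_nf, mem_nf]
      rcases hw with rfl | rfl
      · exact ⟨hsy, hxy⟩
      · exact ⟨hsz, hxz⟩
    have h5 := card_le_card h4
    rw [card_pair hyz] at h5
    omega
  have hsub : ({s, x} : Finset V) ⊆ G.neighborFinset s ∪ G.neighborFinset x := by
    intro w hw
    simp only [mem_insert, mem_singleton] at hw
    rw [mem_union, mem_nf, mem_nf]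
    rcases hw with rfl | rfl
    · exact Or.inr hsx.symm
    · exact Or.inl hsx
  have hMc : M.card ≤ 4 := by
    rw [hM, card_sdiff_of_subset hsub, card_pair hsx.ne]
    omega
  obtain ⟨w, hw⟩ := exists_outside (A := G.neighborFinset s ∪ G.neighborFinset x) hU (by omega)
  have hwN : ¬ G.Adj s w ∧ ¬ G.Adj x w := by
    rw [mem_union, mem_nf, mem_nf] at hw
    push Not at hw
    exact hw
  obtain ⟨u, hu, v, hv, w', hw', huv, hvw, huw⟩ := cut_small hG (A := {s, x}) hMc
    (by
      intro a ha haM
      rw [hmem] at haM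
      simp only [mem_insert, mem_singleton] at ha
      rcases ha with h | h
      · exact haM.2.1 h
      · exact haM.2.2 h)
    (by
      intro a ha b hab
      by_cases hb : b = s ∨ b = x
      · left
        simpa using hb
      · right
        push Not at hb
        rw [hmem]
        simp only [mem_insert, mem_singleton] at ha
        refine ⟨?_, hb.1, hb.2⟩
        rcases ha with h | h
        · left; rw [← h]; exact hab
        · right; rw [← h]; exact hab)
    (a := s) (w := w) (by simp)
    (by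
      simp only [mem_insert, mem_singleton, not_or]
      refine ⟨?_, ?_⟩
      · rintro rfl; exact hwN.2 hsx.symm
      · rintro rfl; exact hwN.1 hsx)
    (by
      intro h
      rw [hmem] at h
      exact h.1.elim hwN.1 hwN.2)
  rw [hmem] at hu hv hw'
  have mix : ∀ a b c, (G.Adj s a ∨ G.Adj x a) ∧ a ≠ s ∧ a ≠ x →
      (G.Adj s b ∨ G.Adj x b) ∧ b ≠ s ∧ b ≠ x → (G.Adj s c ∨ G.Adj x c) ∧ c ≠ s ∧ c ≠ x →
      G.Adj a b → G.Adj b c → G.Adj a c → ¬ G.Adj s a → ¬ G.Adj x b → False := by
    intro a b c ha hb hc hab hbc hac hsa hxb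
    have hxa := ha.1.resolve_left hsa
    have hsb := hb.1.resolve_right hxb
    rcases hc.1 with h | h
    · exact h1 s a x b c (Ne.symm ha.2.1) hsa (Ne.symm hb.2.2) (Ne.symm hc.2.2) hbc.ne hsx hsb h
        hxa.symm hab hac
    · exact h1 x b s a c (Ne.symm hb.2.2) hxb (Ne.symm ha.2.1) (Ne.symm hc.2.1) hac.ne hsx.symm hxa
        h hsb.symm hab.symm hbc
  have side : ∀ s x : V, G.degree s = 4 → G.Adj s x → G.Adj s y → G.Adj s z → G.Adj x y →
      G.Adj x z → ∀ u v w, G.Adj s u → G.Adj s v → G.Adj s w → u ≠ x → v ≠ x → w ≠ x →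
      G.Adj u v → G.Adj v w → G.Adj u w → False := by
    intro s x hs hsx hsy hsz hxy hxz u v w hsu hsv hsw hux hvx hwx huv hvw huw
    have hsub : ({x, u, v, w} : Finset V) ⊆ G.neighborFinset s := by
      intro a ha
      simp only [mem_insert, mem_singleton] at ha
      rw [mem_nf]
      rcases ha with rfl | rfl | rfl | rfl <;> assumption
    have heq : ({x, u, v, w} : Finset V) = G.neighborFinset s :=
      eq_of_subset_of_card_le hsub (by
        rw [card4 (Ne.symm hux) (Ne.symm hvx) (Ne.symm hwx) huv.ne huw.ne hvw.ne,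
          SimpleGraph.card_neighborFinset_eq_degree]; omega)
    have hy' : y ∈ ({x, u, v, w} : Finset V) := by rw [heq]; exact mem_nf.2 hsy
    have hz' : z ∈ ({x, u, v, w} : Finset V) := by rw [heq]; exact mem_nf.2 hsz
    simp only [mem_insert, mem_singleton] at hy' hz'
    rcases hy' with hy' | hy' | hy' | hy' <;> rcases hz' with hz' | hz' | hz' | hz'
    all_goals first
      | exact hyz (hy'.trans hz'.symm)
      | exact hxy.ne hy'.symm
      | exact hxz.ne hz'.symm
      | (rw [hy'] at hxy; rw [hz'] at hxz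
         first
         | exact kfour h1 h2 hs hsx hsu hsv hsw hxy hxz (Ne.symm hwx) huv huw hvw
         | exact kfour h1 h2 hs hsx hsv hsu hsw hxy hxz (Ne.symm hwx) huv.symm hvw huw
         | exact kfour h1 h2 hs hsx hsu hsw hsv hxy hxz (Ne.symm hvx) huw huv hvw.symm
         | exact kfour h1 h2 hs hsx hsw hsu hsv hxy hxz (Ne.symm hvx) huw.symm hvw.symm huv
         | exact kfour h1 h2 hs hsx hsv hsw hsu hxy hxz (Ne.symm hux) hvw huv.symm huw.symm
         | exact kfour h1 h2 hs hsx hsw hsv hsu hxy hxz (Ne.symm hux) hvw.symm huw.symm huv.symm)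
  by_cases hsu : G.Adj s u
  · by_cases hsv : G.Adj s v
    · by_cases hsw : G.Adj s w'
      · exact side s x hs hsx hsy hsz hxy hxz u v w' hsu hsv hsw hu.2.2 hv.2.2 hw'.2.2 huv hvw huw
      · have hxw := hw'.1.resolve_left hsw
        have hxu : G.Adj x u := by
          by_contra h
          exact mix w' u v hw' hu hv huw.symm huv hvw.symm hsw h
        have hxv : G.Adj x v := by
          by_contra h
          exact mix w' v u hw' hv hu hvw.symm huv.symm huw.symm hsw h
        exact side x s hx hsx.symm hxy hxz hsy hsz u v w' hxu hxv hxw hu.2.1 hv.2.1 hw'.2.1 huv hvw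
          huw
    · have hxv := hv.1.resolve_left hsv
      have hxu : G.Adj x u := by
        by_contra h
        exact mix v u w' hv hu hw' huv.symm huw hvw hsv h
      have hxw : G.Adj x w' := by
        by_contra h
        exact mix v w' u hv hw' hu hvw huw.symm huv.symm hsv h
      exact side x s hx hsx.symm hxy hxz hsy hsz u v w' hxu hxv hxw hu.2.1 hv.2.1 hw'.2.1 huv hvw
        huw
  · have hxu := hu.1.resolve_left hsu
    have hxv : G.Adj x v := by
      by_contra h
      exact mix u v w' hu hv hw' huv hvw huw hsu h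
    have hxw : G.Adj x w' := by
      by_contra h
      exact mix u w' v hu hw' hv huw hvw.symm huv hsu h
    exact side x s hx hsx.symm hxy hxz hsy hsz u v w' hxu hxv hxw hu.2.1 hv.2.1 hw'.2.1 huv hvw
      huw

/-- a vertex of degree four has at most one neighbour of degree four -/
theorem uniq4 (hG : ¬ HasBipartiteCut G) (hn : 7 ≤ Fintype.card V) (h1 : H1 G) (h2 : H2 G)
    {s p q : V} (hs : G.degree s = 4) (hp : G.degree p = 4) (hq : G.degree q = 4)
    (hsp : G.Adj s p) (hsq : G.Adj s q) : p = q := by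
  by_contra hpq
  obtain ⟨x, y, z, hx, hy, hz, e1, e2, e3⟩ := triangle_nbhd hG (s := s) (by omega) (by omega)
  have hno : ∀ p, G.degree p = 4 → G.Adj s p → p ≠ x ∧ p ≠ y ∧ p ≠ z := by
    intro p hp hsp
    refine ⟨?_, ?_, ?_⟩ <;> rintro rfl
    · exact tfour hG hn h1 h2 hs hp hsp e2.ne hy hz e1 e3
    · exact tfour hG hn h1 h2 hs hp hsp e3.ne hx hz e1.symm e2
    · exact tfour hG hn h1 h2 hs hp hsp e1.ne hx hy e3.symm e2.symm
  obtain ⟨p1, p2, p3⟩ := hno p hp hsp
  obtain ⟨q1, q2, q3⟩ := hno q hq hsq
  have hsub : ({p, q, x, y, z} : Finset V) ⊆ G.neighborFinset s := by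
    intro w hw
    simp only [mem_insert, mem_singleton] at hw
    rw [mem_nf]
    rcases hw with rfl | rfl | rfl | rfl | rfl <;> assumption
  have h3 := card_le_card hsub
  rw [card_insert_of_notMem (by simp only [mem_insert, mem_singleton, not_or]; exact ⟨hpq, p1, p2, p3⟩),
    card4 q1 q2 q3 e1.ne e3.ne e2.ne, SimpleGraph.card_neighborFinset_eq_degree, hs] at h3
  omega

theorem dom (hdeg : ∀ v, 4 ≤ G.degree v) {S : Finset V} (hS : IsStable G S)
    (hmax : ∀ T, IsStable G T → wt G T ≤ wt G S) (v : V) (hv : v ∉ S) : (nb G S v).Nonempty := by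
  by_contra hcon
  rw [not_nonempty_iff_eq_empty] at hcon
  have h1 := exch (T := {v}) (R := ∅) hS hmax
    (by
      intro u hu w hw huw
      rw [mem_singleton] at hu hw
      rw [hu, hw] at huw
      exact huw.ne rfl)
    (by
      rw [disjoint_left]
      intro u hu
      rw [mem_singleton] at hu
      rw [hu]; exact hv)
    (empty_subset _)
    (by
      intro u hu w hw huw
      rw [mem_singleton] at hu
      rw [hu] at huw
      have : w ∈ nb G S v := mem_filter.2 ⟨hw, huw⟩
      rw [hcon] at this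
      exact this)
  unfold wt at h1
  rw [sum_singleton, sum_empty] at h1
  have := hdeg v
  have : (4 : ℤ) ≤ G.degree v := by exact_mod_cast this
  linarith

/-- exchange of `s` against a stable subset of its private vertices -/
theorem exch_priv {S : Finset V} (hS : IsStable G S)
    (hmax : ∀ T, IsStable G T → wt G T ≤ wt G S) {s : V} (hs : s ∈ S) {T : Finset V}
    (hT : IsStable G T) (hP : ∀ x ∈ T, x ∈ priv G S s) : wt G T ≤ (G.degree s : ℤ) - 2 := by
  have h1 := exch (T := T) (R := {s}) hS hmax hT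
    (disjoint_left.2 fun x hx => (mem_priv.1 (hP x hx)).1) (singleton_subset_iff.2 hs)
    (fun x hx y hy hxy => mem_singleton.2 (priv_only (hP x hx) hy hxy))
  have h2 : wt G {s} = (G.degree s : ℤ) - 2 := by unfold wt; rw [sum_singleton]
  rw [h2] at h1
  exact h1

theorem priv_deg {S : Finset V} (hS : IsStable G S)
    (hmax : ∀ T, IsStable G T → wt G T ≤ wt G S) {s : V} (hs : s ∈ S) {p : V}
    (hp : p ∈ priv G S s) : G.degree p ≤ G.degree s := by
  have h := exch_priv hS hmax hs (T := {p})
    (by
      intro u hu w hw huw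
      rw [mem_singleton] at hu hw
      rw [hu, hw] at huw
      exact huw.ne rfl)
    (by
      intro x hx
      rw [mem_singleton] at hx
      rw [hx]; exact hp)
  unfold wt at h
  rw [sum_singleton] at h
  have : (G.degree p : ℤ) ≤ G.degree s := by linarith
  exact_mod_cast this

theorem priv_pair {S : Finset V} (hS : IsStable G S)
    (hmax : ∀ T, IsStable G T → wt G T ≤ wt G S) {s : V} (hs : s ∈ S) {p q : V}
    (hp : p ∈ priv G S s) (hq : q ∈ priv G S s) (hpq : p ≠ q) (hno : ¬ G.Adj p q) :
    (G.degree p : ℤ) + G.degree q ≤ G.degree s + 2 := by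
  have h := exch_priv hS hmax hs (T := {p, q})
    (by
      intro u hu w hw huw
      simp only [mem_insert, mem_singleton] at hu hw
      rcases hu with rfl | rfl <;> rcases hw with rfl | rfl
      · exact huw.ne rfl
      · exact hno huw
      · exact hno huw.symm
      · exact huw.ne rfl)
    (by
      intro x hx
      simp only [mem_insert, mem_singleton] at hx
      rcases hx with rfl | rfl <;> assumption)
  unfold wt at h
  rw [sum_pair hpq] at h
  linarith

theorem priv_triple {S : Finset V} (hS : IsStable G S)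
    (hmax : ∀ T, IsStable G T → wt G T ≤ wt G S) {s : V} (hs : s ∈ S) {p q r : V}
    (hp : p ∈ priv G S s) (hq : q ∈ priv G S s) (hr : r ∈ priv G S s) (hpq : p ≠ q) (hpr : p ≠ r)
    (hqr : q ≠ r) (n1 : ¬ G.Adj p q) (n2 : ¬ G.Adj p r) (n3 : ¬ G.Adj q r) :
    (G.degree p : ℤ) + G.degree q + G.degree r ≤ G.degree s + 4 := by
  have h := exch_priv hS hmax hs (T := {p, q, r})
    (by
      intro u hu w hw huw
      simp only [mem_insert, mem_singleton] at hu hw
      rcases hu with rfl | rfl | rfl <;> rcases hw with rfl | rfl | rfl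
      · exact huw.ne rfl
      · exact n1 huw
      · exact n2 huw
      · exact n1 huw.symm
      · exact huw.ne rfl
      · exact n3 huw
      · exact n2 huw.symm
      · exact n3 huw.symm
      · exact huw.ne rfl)
    (by
      intro x hx
      simp only [mem_insert, mem_singleton] at hx
      rcases hx with rfl | rfl | rfl <;> assumption)
  unfold wt at h
  rw [sum_insert (by simp [hpq, hpr]), sum_insert (by simp [hqr]), sum_singleton] at h
  linarith

theorem P4 (hG : ¬ HasBipartiteCut G) (hn : 7 ≤ Fintype.card V) (h1 : H1 G) (h2 : H2 G)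
    (hdeg : ∀ v, 4 ≤ G.degree v) {S : Finset V} (hS : IsStable G S)
    (hmax : ∀ T, IsStable G T → wt G T ≤ wt G S) {s : V} (hs : s ∈ S) (h4 : G.degree s = 4) :
    (priv G S s).card ≤ 1 := by
  rw [card_le_one]
  intro p hp q hq
  have hp4 : G.degree p = 4 := le_antisymm (h4 ▸ priv_deg hS hmax hs hp) (hdeg p)
  have hq4 : G.degree q = 4 := le_antisymm (h4 ▸ priv_deg hS hmax hs hq) (hdeg q)
  exact uniq4 hG hn h1 h2 h4 hp4 hq4 (priv_adj hp).symm (priv_adj hq).symm

theorem P5 (h2 : H2 G) (h3 : H3 G)
    (hdeg : ∀ v, 4 ≤ G.degree v) {S : Finset V} (hS : IsStable G S)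
    (hmax : ∀ T, IsStable G T → wt G T ≤ wt G S) {s : V} (hs : s ∈ S) (h5 : G.degree s = 5) :
    (priv G S s).card ≤ 3 := by
  have hadj : ∀ p ∈ priv G S s, ∀ q ∈ priv G S s, p ≠ q → G.Adj p q := by
    intro p hp q hq hpq
    by_contra hno
    have h := priv_pair hS hmax hs hp hq hpq hno
    have e1 : (4 : ℤ) ≤ G.degree p := by exact_mod_cast hdeg p
    have e2 : (4 : ℤ) ≤ G.degree q := by exact_mod_cast hdeg q
    rw [h5] at h
    push_cast at h
    linarith
  have hPN : priv G S s ⊆ G.neighborFinset s := fun p hp => mem_nf.2 (priv_adj hp).symm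
  by_contra hcon
  push Not at hcon
  have hle := card_le_card hPN
  rw [SimpleGraph.card_neighborFinset_eq_degree, h5] at hle
  by_cases h55 : (priv G S s).card = 5
  · have heq : priv G S s = G.neighborFinset s := eq_of_subset_of_card_le hPN (by
      rw [SimpleGraph.card_neighborFinset_eq_degree, h5, h55])
    apply h2 s
    intro x y hx hy hxy
    exact hadj x (by rw [heq]; exact mem_nf.2 hx) y (by rw [heq]; exact mem_nf.2 hy) hxy
  · have h44 : (priv G S s).card = 4 := by omega
    have hsP : s ∉ priv G S s := fun h => (mem_priv.1 h).1 hs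
    have hQ : (insert s (priv G S s)).card = 5 := by rw [card_insert_of_notMem hsP, h44]
    have hcl : ∀ x ∈ insert s (priv G S s), ∀ y ∈ insert s (priv G S s), x ≠ y → G.Adj x y := by
      intro x hx y hy hxy
      rw [mem_insert] at hx hy
      rcases hx with rfl | hx <;> rcases hy with rfl | hy
      · exact absurd rfl hxy
      · exact (priv_adj hy).symm
      · exact priv_adj hx
      · exact hadj x hx y hy hxy
    apply h3 _ hQ hcl
    intro x hx
    have hx5 : G.degree x ≤ 5 := by
      rw [mem_insert] at hx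
      rcases hx with rfl | hx
      · exact h5.le
      · exact h5 ▸ priv_deg hS hmax hs hx
    by_contra hx'
    have hx4 : G.degree x = 4 := by
      have := hdeg x
      omega
    have hsub : (insert s (priv G S s)).erase x ⊆ G.neighborFinset x := by
      intro y hy
      rw [mem_erase] at hy
      exact mem_nf.2 (hcl x hx y hy.2 (Ne.symm hy.1))
    have heq : (insert s (priv G S s)).erase x = G.neighborFinset x :=
      eq_of_subset_of_card_le hsub (by
        rw [card_erase_of_mem hx, hQ, SimpleGraph.card_neighborFinset_eq_degree, hx4])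
    apply h2 x
    intro u v hu hv huv
    have hu' : u ∈ (insert s (priv G S s)).erase x := by rw [heq]; exact mem_nf.2 hu
    have hv' : v ∈ (insert s (priv G S s)).erase x := by rw [heq]; exact mem_nf.2 hv
    exact hcl u (mem_of_mem_erase hu') v (mem_of_mem_erase hv') huv

theorem P6 (hG : ¬ HasBipartiteCut G) (hn : 7 ≤ Fintype.card V) (h1 : H1 G) (h2 : H2 G)
    (hdeg : ∀ v, 4 ≤ G.degree v) {S : Finset V} (hS : IsStable G S)
    (hmax : ∀ T, IsStable G T → wt G T ≤ wt G S) {s : V} (hs : s ∈ S) (h6 : G.degree s = 6) :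
    (priv G S s).card ≤ 5 := by
  have hPN : priv G S s ⊆ G.neighborFinset s := fun p hp => mem_nf.2 (priv_adj hp).symm
  have hle := card_le_card hPN
  rw [SimpleGraph.card_neighborFinset_eq_degree, h6] at hle
  by_contra hcon
  push Not at hcon
  have h66 : (priv G S s).card = 6 := by omega
  have heq : priv G S s = G.neighborFinset s := eq_of_subset_of_card_le hPN (by
    rw [SimpleGraph.card_neighborFinset_eq_degree, h6, h66])
  have hdegZ : ∀ v, (4 : ℤ) ≤ G.degree v := fun v => by exact_mod_cast hdeg v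
  obtain ⟨p, q, hp, hq, hpq, hno⟩ : ∃ p q, p ∈ priv G S s ∧ q ∈ priv G S s ∧ p ≠ q ∧
      ¬ G.Adj p q := by
    by_contra hall
    push Not at hall
    apply h2 s
    intro x y hx hy hxy
    exact hall x y (by rw [heq]; exact mem_nf.2 hx) (by rw [heq]; exact mem_nf.2 hy) hxy
  have both4 : ∀ p q, p ∈ priv G S s → q ∈ priv G S s → p ≠ q → ¬ G.Adj p q →
      G.degree p = 4 ∧ G.degree q = 4 := by
    intro p q hp hq hpq hno
    have h := priv_pair hS hmax hs hp hq hpq hno
    rw [h6] at h
    push_cast at h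
    have e1 := hdegZ p
    have e2 := hdegZ q
    have e3 : (G.degree p : ℤ) ≤ 4 := by linarith
    have e4 : (G.degree q : ℤ) ≤ 4 := by linarith
    have e5 : G.degree p ≤ 4 := by exact_mod_cast e3
    have e6 : G.degree q ≤ 4 := by exact_mod_cast e4
    exact ⟨le_antisymm e5 (hdeg p), le_antisymm e6 (hdeg q)⟩
  obtain ⟨hp4, hq4⟩ := both4 p q hp hq hpq hno
  have hWc : (((priv G S s).erase p).erase q).card = 4 := by
    rw [card_erase_of_mem (mem_erase.2 ⟨Ne.symm hpq, hq⟩), card_erase_of_mem hp, h66]
  have hsub : ((priv G S s).erase p).erase q ⊆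
      ((((priv G S s).erase p).erase q).filter fun r => G.Adj p r ∧ G.Adj q r) ∪
      (((((priv G S s).erase p).erase q).filter fun r => G.Adj p r ∧ G.degree r = 4) ∪
      ((((priv G S s).erase p).erase q).filter fun r => G.Adj q r ∧ G.degree r = 4)) := by
    intro r hr
    have hr' := hr
    rw [mem_erase, mem_erase] at hr'
    rw [mem_union, mem_union, mem_filter, mem_filter, mem_filter]
    by_cases hpr : G.Adj p r
    · by_cases hqr : G.Adj q r
      · exact Or.inl ⟨hr, hpr, hqr⟩
      · exact Or.inr (Or.inl ⟨hr, hpr, (both4 q r hq hr'.2.2 (Ne.symm hr'.1) hqr).2⟩)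
    · by_cases hqr : G.Adj q r
      · exact Or.inr (Or.inr ⟨hr, hqr, (both4 p r hp hr'.2.2 (Ne.symm hr'.2.1) hpr).2⟩)
      · exfalso
        have h := priv_triple hS hmax hs hp hq hr'.2.2 hpq (Ne.symm hr'.2.1) (Ne.symm hr'.1) hno
          hpr hqr
        rw [h6] at h
        push_cast at h
        have e1 := hdegZ p
        have e2 := hdegZ q
        have e3 := hdegZ r
        linarith
  have c1 : ((((priv G S s).erase p).erase q).filter fun r => G.Adj p r ∧ G.Adj q r).card ≤ 1 := by
    rw [card_le_one]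
    intro a ha b hb
    by_contra hab
    rw [mem_filter, mem_erase, mem_erase] at ha hb
    exact h1 p q s a b hpq hno (priv_adj ha.1.2.2).ne' (priv_adj hb.1.2.2).ne' hab
      (priv_adj hp) ha.2.1 hb.2.1 (priv_adj hq) ha.2.2 hb.2.2
  have c2 : ((((priv G S s).erase p).erase q).filter fun r =>
      G.Adj p r ∧ G.degree r = 4).card ≤ 1 := by
    rw [card_le_one]
    intro a ha b hb
    rw [mem_filter] at ha hb
    exact uniq4 hG hn h1 h2 hp4 ha.2.2 hb.2.2 ha.2.1 hb.2.1
  have c3 : ((((priv G S s).erase p).erase q).filter fun r =>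
      G.Adj q r ∧ G.degree r = 4).card ≤ 1 := by
    rw [card_le_one]
    intro a ha b hb
    rw [mem_filter] at ha hb
    exact uniq4 hG hn h1 h2 hq4 ha.2.2 hb.2.2 ha.2.1 hb.2.1
  have h7 := card_le_card hsub
  have h8 := card_union_le ((((priv G S s).erase p).erase q).filter fun r => G.Adj p r ∧ G.Adj q r)
    (((((priv G S s).erase p).erase q).filter fun r => G.Adj p r ∧ G.degree r = 4) ∪
      ((((priv G S s).erase p).erase q).filter fun r => G.Adj q r ∧ G.degree r = 4))
  have h9 := card_union_le ((((priv G S s).erase p).erase q).filter fun r =>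
      G.Adj p r ∧ G.degree r = 4)
    ((((priv G S s).erase p).erase q).filter fun r => G.Adj q r ∧ G.degree r = 4)
  omega

/-- `s` has degree four and a private neighbour that is not adjacent to `v` -/
abbrev Sp (G : SimpleGraph V) [DecidableRel G.Adj] (S : Finset V) (v s : V) : Prop :=
  G.degree s = 4 ∧ ∃ p ∈ priv G S s, ¬ G.Adj v p

/-- the share of `s` in the charge of `v` -/
def phi (G : SimpleGraph V) [DecidableRel G.Adj] (S : Finset V) (v s : V) : ℤ :=
  if (nb G S v).card = 1 then 12 else if 3 ≤ (nb G S v).card then 4 else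
    if ((nb G S v).filter fun t => Sp G S v t).card = 1 then
      (if Sp G S v s then 5 else 7) else 6

theorem phi_sum {S : Finset V} {v : V} (h : (nb G S v).Nonempty) :
    12 ≤ ∑ s ∈ nb G S v, phi G S v s := by
  have h0 := card_pos.2 h
  unfold phi
  by_cases h1 : (nb G S v).card = 1
  · simp only [h1, if_true]
    rw [sum_const, h1]; norm_num
  · by_cases h3 : 3 ≤ (nb G S v).card
    · simp only [h1, h3, if_true, if_false]
      rw [sum_const, nsmul_eq_mul]
      have : (3 : ℤ) ≤ (nb G S v).card := by exact_mod_cast h3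
      linarith
    · have h2 : (nb G S v).card = 2 := by omega
      by_cases h4 : ((nb G S v).filter fun t => Sp G S v t).card = 1
      · simp only [h1, h3, h4, if_true, if_false]
        rw [sum_ite, sum_const, sum_const, h4]
        have h5 := card_filter_add_card_filter_not (s := nb G S v) (fun t => Sp G S v t)
        have h6 : ((nb G S v).filter fun t => ¬ Sp G S v t).card = 1 := by omega
        rw [h6]; norm_num
      · simp only [h1, h3, h4, if_false]
        rw [sum_const, h2]; norm_num

theorem load_sum {S : Finset V} (hS : IsStable G S)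
    (hdom : ∀ v, v ∉ S → (nb G S v).Nonempty) :
    12 * ((Fintype.card V : ℤ) - S.card) ≤
      ∑ s ∈ S, ∑ v ∈ G.neighborFinset s, phi G S v s := by
  have h1 : ∑ s ∈ S, ∑ v ∈ G.neighborFinset s, phi G S v s =
      ∑ v ∈ Sᶜ, ∑ s ∈ nb G S v, phi G S v s := by
    apply sum_comm'
    intro s v
    rw [SimpleGraph.mem_neighborFinset, nb, mem_filter, mem_compl]
    constructor
    · rintro ⟨h1, h2⟩
      exact ⟨⟨h1, h2.symm⟩, fun hv => hS s h1 v hv h2⟩
    · rintro ⟨⟨h1, h2⟩, -⟩
      exact ⟨h1, h2.symm⟩
  rw [h1]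
  have h2 : ∑ _v ∈ Sᶜ, (12 : ℤ) ≤ ∑ v ∈ Sᶜ, ∑ s ∈ nb G S v, phi G S v s :=
    sum_le_sum fun v hv => phi_sum (hdom v (mem_compl.1 hv))
  rw [sum_const, nsmul_eq_mul, card_compl, Nat.cast_sub (card_le_univ S)] at h2
  linarith

theorem phi_strong {S : Finset V} (hS : IsStable G S) {s v : V} (hs : s ∈ S) (hv : G.Adj s v) :
    phi G S v s ≤ 7 + (if v ∈ priv G S s then 5 else 0) := by
  by_cases h1 : (nb G S v).card = 1
  · rw [if_pos (priv_of_card hS hs hv h1)]
    unfold phi
    rw [if_pos h1]
    norm_num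
  · have h2 : phi G S v s ≤ 7 := by
      unfold phi
      rw [if_neg h1]
      split_ifs <;> norm_num
    split_ifs <;> linarith

theorem pair_of_card {S : Finset V} {s v : V} (hs : s ∈ nb G S v) (h2 : (nb G S v).card = 2) :
    ∃ t ∈ S, t ≠ s ∧ nb G S v = {s, t} := by
  have h1 : ((nb G S v).erase s).card = 1 := by rw [card_erase_of_mem hs, h2]
  obtain ⟨t, ht⟩ := card_eq_one.1 h1
  have htn : t ∈ (nb G S v).erase s := by rw [ht]; exact mem_singleton_self t
  rw [mem_erase] at htn
  exact ⟨t, (mem_filter.1 htn.2).1, htn.1, by rw [← insert_erase hs, ht]⟩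

/-- a share of seven comes from a needy partner -/
theorem phi_six {S : Finset V} (hS : IsStable G S) {s v : V} (hs : s ∈ S) (hv : G.Adj s v)
    (h : ∀ t ∈ S, t ≠ s → nb G S v = {s, t} → ¬ Sp G S v t) :
    phi G S v s ≤ 6 + (if v ∈ priv G S s then 6 else 0) := by
  by_cases h1 : (nb G S v).card = 1
  · rw [if_pos (priv_of_card hS hs hv h1)]
    unfold phi
    rw [if_pos h1]
    norm_num
  · have hsnb : s ∈ nb G S v := mem_filter.2 ⟨hs, hv.symm⟩
    have h2 : phi G S v s ≤ 6 := by
      unfold phi
      rw [if_neg h1]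
      by_cases h3 : 3 ≤ (nb G S v).card
      · rw [if_pos h3]; norm_num
      · rw [if_neg h3]
        by_cases h4 : ((nb G S v).filter fun t => Sp G S v t).card = 1
        · rw [if_pos h4]
          by_cases h5 : Sp G S v s
          · rw [if_pos h5]; norm_num
          · exfalso
            have hc2 : (nb G S v).card = 2 := by
              have := card_pos.2 ⟨s, hsnb⟩
              omega
            obtain ⟨t, htS, hts, hnb⟩ := pair_of_card hsnb hc2
            obtain ⟨u, hu⟩ := card_eq_one.1 h4
            have hu' : u ∈ (nb G S v).filter fun t => Sp G S v t := by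
              rw [hu]; exact mem_singleton_self u
            rw [mem_filter, hnb, mem_insert, mem_singleton] at hu'
            rcases hu'.1 with h6 | h6
            · rw [h6] at hu'; exact h5 hu'.2
            · rw [h6] at hu'; exact h t htS hts hnb hu'.2
        · rw [if_neg h4]
    split_ifs <;> linarith

/-- exchange for a needy vertex -/
theorem sp_exch {S : Finset V} (hS : IsStable G S)
    (hmax : ∀ T, IsStable G T → wt G T ≤ wt G S) {s t v p : V} (hs : s ∈ S) (htS : t ∈ S)
    (hts : t ≠ s) (hnb : nb G S v = {s, t}) (hvS : v ∉ S) (hp : p ∈ priv G S s)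
    (hvp : ¬ G.Adj v p) : (G.degree v : ℤ) + G.degree p ≤ G.degree s + G.degree t := by
  have hne : v ≠ p := by
    rintro rfl
    have h1 := (mem_priv.1 hp).2
    have h2 : t ∈ nb G S v := by rw [hnb]; simp
    unfold nb at h2
    rw [h1, mem_singleton] at h2
    exact hts h2
  have h2 := exch (T := {v, p}) (R := {s, t}) hS hmax
    (by
      intro x hx y hy hxy
      simp only [mem_insert, mem_singleton] at hx hy
      rcases hx with rfl | rfl <;> rcases hy with rfl | rfl
      · exact hxy.ne rfl
      · exact hvp hxy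
      · exact hvp hxy.symm
      · exact hxy.ne rfl)
    (by
      rw [disjoint_left]
      intro x hx
      simp only [mem_insert, mem_singleton] at hx
      rcases hx with rfl | rfl
      · exact hvS
      · exact (mem_priv.1 hp).1)
    (by
      intro x hx
      simp only [mem_insert, mem_singleton] at hx
      rcases hx with rfl | rfl
      · exact hs
      · exact htS)
    (by
      intro x hx y hy hxy
      simp only [mem_insert, mem_singleton] at hx
      rcases hx with rfl | rfl
      · rw [← hnb]; exact mem_filter.2 ⟨hy, hxy⟩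
      · rw [priv_only hp hy hxy]; simp)
  unfold wt at h2
  rw [sum_pair hne, sum_pair (Ne.symm hts)] at h2
  linarith

/-- the partner of a needy vertex has degree at least that of `v`, which is at least five -/
theorem sp_big (hG : ¬ HasBipartiteCut G) (hn : 7 ≤ Fintype.card V) (h1 : H1 G) (h2 : H2 G)
    (hdeg : ∀ v, 4 ≤ G.degree v) {S : Finset V} (hS : IsStable G S)
    (hmax : ∀ T, IsStable G T → wt G T ≤ wt G S) {s t v p : V} (hs : s ∈ S) (htS : t ∈ S)
    (hts : t ≠ s) (hnb : nb G S v = {s, t}) (hvS : v ∉ S) (h4 : G.degree s = 4)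
    (hp : p ∈ priv G S s) (hvp : ¬ G.Adj v p) :
    G.degree p = 4 ∧ 5 ≤ G.degree v ∧ G.degree v ≤ G.degree t := by
  have hp4 : G.degree p = 4 := le_antisymm (h4 ▸ priv_deg hS hmax hs hp) (hdeg p)
  have hsv : G.Adj v s := by
    have : s ∈ nb G S v := by rw [hnb]; simp
    exact (mem_filter.1 this).2
  have hne : v ≠ p := by
    rintro rfl
    have h1 := (mem_priv.1 hp).2
    have h2 : t ∈ nb G S v := by rw [hnb]; simp
    unfold nb at h2
    rw [h1, mem_singleton] at h2
    exact hts h2
  refine ⟨hp4, ?_, ?_⟩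
  · by_contra hcon
    have hv4 : G.degree v = 4 := by
      have := hdeg v
      omega
    exact hne (uniq4 hG hn h1 h2 h4 hv4 hp4 hsv.symm (priv_adj hp).symm)
  · have h := sp_exch hS hmax hs htS hts hnb hvS hp hvp
    rw [h4, hp4] at h
    push_cast at h
    have : (G.degree v : ℤ) ≤ G.degree t := by linarith
    exact_mod_cast this

/-- the partner of a needy vertex, if of degree five, has at most one private neighbour -/
theorem lemN (hG : ¬ HasBipartiteCut G) (hn : 7 ≤ Fintype.card V) (h1 : H1 G) (h2 : H2 G)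
    (hdeg : ∀ v, 4 ≤ G.degree v) {S : Finset V} (hS : IsStable G S)
    (hmax : ∀ T, IsStable G T → wt G T ≤ wt G S) {s t v p : V} (hs : s ∈ S) (htS : t ∈ S)
    (hts : t ≠ s) (hnb : nb G S v = {s, t}) (hvS : v ∉ S) (h4 : G.degree s = 4)
    (hp : p ∈ priv G S s) (hvp : ¬ G.Adj v p) (ht5 : G.degree t = 5) :
    (priv G S t).card ≤ 1 := by
  obtain ⟨hp4, hv5, hvt⟩ := sp_big hG hn h1 h2 hdeg hS hmax hs htS hts hnb hvS h4 hp hvp
  have hv5' : G.degree v = 5 := by omega
  have hvs : G.Adj v s := by
    have : s ∈ nb G S v := by rw [hnb]; simp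
    exact (mem_filter.1 this).2
  have hvt' : G.Adj v t := by
    have : t ∈ nb G S v := by rw [hnb]; simp
    exact (mem_filter.1 this).2
  have hne : v ≠ p := by rintro rfl; omega
  -- two common neighbours of `s` and `v`
  obtain ⟨y, z, hyz, hsy, hsz, hvy, hvz⟩ : ∃ y z, y ≠ z ∧ G.Adj s y ∧ G.Adj s z ∧ G.Adj v y ∧
      G.Adj v z := by
    obtain ⟨x, y, z, hx, hy, hz, e1, e2, e3⟩ := triangle_nbhd hG (s := s) (by omega) (by omega)
    have hpx : ∀ w, w = x ∨ w = y ∨ w = z → w ≠ p := by
      rintro w hw rfl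
      rcases hw with rfl | rfl | rfl
      · exact tfour hG hn h1 h2 h4 hp4 hx e2.ne hy hz e1 e3
      · exact tfour hG hn h1 h2 h4 hp4 hy e3.ne hx hz e1.symm e2
      · exact tfour hG hn h1 h2 h4 hp4 hz e1.ne hx hy e3.symm e2.symm
    have hsub : ({p, x, y, z} : Finset V) ⊆ G.neighborFinset s := by
      intro w hw
      simp only [mem_insert, mem_singleton] at hw
      rw [mem_nf]
      rcases hw with rfl | rfl | rfl | rfl
      · exact (priv_adj hp).symm
      · exact hx
      · exact hy
      · exact hz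
    have heq : ({p, x, y, z} : Finset V) = G.neighborFinset s :=
      eq_of_subset_of_card_le hsub (by
        rw [card4 (Ne.symm (hpx x (Or.inl rfl))) (Ne.symm (hpx y (Or.inr (Or.inl rfl))))
          (Ne.symm (hpx z (Or.inr (Or.inr rfl)))) e1.ne e3.ne e2.ne,
          SimpleGraph.card_neighborFinset_eq_degree]; omega)
    have hv : v ∈ ({p, x, y, z} : Finset V) := by rw [heq]; exact mem_nf.2 hvs.symm
    simp only [mem_insert, mem_singleton] at hv
    rcases hv with h | h | h | h
    · exact absurd h hne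
    · rw [h]; exact ⟨y, z, e2.ne, hy, hz, e1, e3⟩
    · rw [h]; exact ⟨x, z, e3.ne, hx, hz, e1.symm, e2⟩
    · rw [h]; exact ⟨x, y, e1.ne, hx, hy, e3.symm, e2.symm⟩
  by_contra hcon
  push Not at hcon
  -- a private neighbour of `t` not adjacent to `v`
  obtain ⟨a, haP, hav⟩ : ∃ a ∈ priv G S t, ¬ G.Adj v a := by
    by_contra hall
    push Not at hall
    have has : ∀ a ∈ priv G S t, ¬ G.Adj a s := fun a ha h => hts (priv_only ha hs h).symm
    have hsub : ({s, t, y, z} : Finset V) ∪ priv G S t ⊆ G.neighborFinset v := by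
      intro w hw
      rw [mem_union] at hw
      rw [mem_nf]
      rcases hw with hw | hw
      · simp only [mem_insert, mem_singleton] at hw
        rcases hw with rfl | rfl | rfl | rfl <;> assumption
      · exact hall w hw
    have hdis : Disjoint ({s, t, y, z} : Finset V) (priv G S t) := by
      rw [disjoint_left]
      intro w hw hwP
      simp only [mem_insert, mem_singleton] at hw
      rcases hw with h | h | h | h
      · rw [h] at hwP; exact (mem_priv.1 hwP).1 hs
      · rw [h] at hwP; exact (mem_priv.1 hwP).1 htS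
      · rw [h] at hwP; exact has y hwP hsy.symm
      · rw [h] at hwP; exact has z hwP hsz.symm
    have h3 := card_le_card hsub
    have hyS : y ∉ S := fun h => hS s hs y h hsy
    have hzS : z ∉ S := fun h => hS s hs z h hsz
    rw [card_union_of_disjoint hdis, SimpleGraph.card_neighborFinset_eq_degree, hv5',
      card4 (Ne.symm hts) hsy.ne hsz.ne (by rintro rfl; exact hyS htS)
        (by rintro rfl; exact hzS htS) hyz] at h3
    omega
  have haS := (mem_priv.1 haP).1
  have hvp' : G.Adj p s := priv_adj hp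
  -- its degree is four
  have hnb' : nb G S v = {t, s} := by rw [hnb]; exact pair_comm s t
  have h5 := sp_exch hS hmax htS hs (Ne.symm hts) hnb' hvS haP hav
  rw [h4, ht5, hv5'] at h5
  push_cast at h5
  have ha4 : G.degree a = 4 := by
    have e1 : (G.degree a : ℤ) ≤ 4 := by linarith
    have e2 : G.degree a ≤ 4 := by exact_mod_cast e1
    exact le_antisymm e2 (hdeg a)
  have hap : G.Adj a p := by
    by_contra hno
    have hap' : a ≠ p := by
      rintro rfl
      exact hts (priv_only haP hs hvp').symm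
    have hva : v ≠ a := by rintro rfl; omega
    have h6 := exch (T := {v, a, p}) (R := {s, t}) hS hmax
      (by
        intro x hx w hw hxw
        simp only [mem_insert, mem_singleton] at hx hw
        rcases hx with rfl | rfl | rfl <;> rcases hw with rfl | rfl | rfl
        · exact hxw.ne rfl
        · exact hav hxw
        · exact hvp hxw
        · exact hav hxw.symm
        · exact hxw.ne rfl
        · exact hno hxw
        · exact hvp hxw.symm
        · exact hno hxw.symm
        · exact hxw.ne rfl)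
      (by
        rw [disjoint_left]
        intro x hx
        simp only [mem_insert, mem_singleton] at hx
        rcases hx with rfl | rfl | rfl
        · exact hvS
        · exact haS
        · exact (mem_priv.1 hp).1)
      (by
        intro x hx
        simp only [mem_insert, mem_singleton] at hx
        rcases hx with rfl | rfl
        · exact hs
        · exact htS)
      (by
        intro x hx w hw hxw
        simp only [mem_insert, mem_singleton] at hx
        rcases hx with rfl | rfl | rfl
        · rw [← hnb]; exact mem_filter.2 ⟨hw, hxw⟩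
        · rw [priv_only haP hw hxw]; simp
        · rw [priv_only hp hw hxw]; simp)
    unfold wt at h6
    rw [sum_insert (by simp [hva, hne]), sum_pair hap', sum_pair (Ne.symm hts), h4, ht5, hv5', ha4,
      hp4] at h6
    norm_num at h6
  have hsa : s = a := uniq4 hG hn h1 h2 hp4 h4 ha4 hvp' hap.symm
  rw [← hsa] at haS
  exact haS hs

theorem load_strong {S : Finset V} (hS : IsStable G S) {s : V} (hs : s ∈ S)
    (hP : 5 * (priv G S s).card + 52 ≤ 13 * G.degree s) :
    12 + ∑ v ∈ G.neighborFinset s, phi G S v s ≤ 20 * ((G.degree s : ℤ) - 2) := by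
  have h1 : ∑ v ∈ G.neighborFinset s, phi G S v s ≤
      ∑ v ∈ G.neighborFinset s, (7 + (if v ∈ priv G S s then (5 : ℤ) else 0)) :=
    sum_le_sum fun v hv => phi_strong hS hs (mem_nf.1 hv)
  rw [sum_add_distrib, sum_const, sum_ite_mem, sum_const,
    SimpleGraph.card_neighborFinset_eq_degree, nsmul_eq_mul, nsmul_eq_mul] at h1
  have h2 : ((G.neighborFinset s ∩ priv G S s).card : ℤ) ≤ (priv G S s).card := by
    exact_mod_cast card_le_card inter_subset_right
  have h3 : 5 * ((priv G S s).card : ℤ) + 52 ≤ 13 * G.degree s := by exact_mod_cast hP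
  linarith

theorem load_five (hG : ¬ HasBipartiteCut G) (hn : 7 ≤ Fintype.card V) (h1 : H1 G) (h2 : H2 G)
    (h3 : H3 G) (hdeg : ∀ v, 4 ≤ G.degree v) {S : Finset V} (hS : IsStable G S)
    (hmax : ∀ T, IsStable G T → wt G T ≤ wt G S) {s : V} (hs : s ∈ S) (h5 : G.degree s = 5) :
    12 + ∑ v ∈ G.neighborFinset s, phi G S v s ≤ 20 * ((G.degree s : ℤ) - 2) := by
  have hle := P5 h2 h3 hdeg hS hmax hs h5
  by_cases hP : (priv G S s).card ≤ 2
  · exact load_strong hS hs (by omega)
  · have h4 : ∑ v ∈ G.neighborFinset s, phi G S v s ≤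
        ∑ v ∈ G.neighborFinset s, (6 + (if v ∈ priv G S s then (6 : ℤ) else 0)) := by
      apply sum_le_sum
      intro v hv
      have hsv := mem_nf.1 hv
      apply phi_six hS hs hsv
      rintro t htS hts hnb ⟨ht4, p, hp, hvp⟩
      have hvS : v ∉ S := fun h => hS s hs v h hsv
      have := lemN hG hn h1 h2 hdeg hS hmax htS hs (Ne.symm hts)
        (by rw [hnb]; exact pair_comm s t) hvS ht4 hp hvp h5
      omega
    rw [sum_add_distrib, sum_const, sum_ite_mem, sum_const,
      SimpleGraph.card_neighborFinset_eq_degree, nsmul_eq_mul, nsmul_eq_mul] at h4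
    have h6 : ((G.neighborFinset s ∩ priv G S s).card : ℤ) ≤ 3 := by
      exact_mod_cast (card_le_card inter_subset_right).trans hle
    rw [h5] at h4 ⊢
    push_cast at h4 ⊢
    linarith

theorem load_weak (hG : ¬ HasBipartiteCut G) (hn : 7 ≤ Fintype.card V) (h1 : H1 G) (h2 : H2 G)
    (hdeg : ∀ v, 4 ≤ G.degree v) {S : Finset V} (hS : IsStable G S)
    (hmax : ∀ T, IsStable G T → wt G T ≤ wt G S) {s : V} (hs : s ∈ S) (h4 : G.degree s = 4) :
    12 + ∑ v ∈ G.neighborFinset s, phi G S v s ≤ 20 * ((G.degree s : ℤ) - 2) := by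
  have hle := P4 hG hn h1 h2 hdeg hS hmax hs h4
  have hweak : ∀ v, G.Adj s v → phi G S v s ≤ 6 + (if v ∈ priv G S s then 6 else 0) := by
    intro v hsv
    apply phi_six hS hs hsv
    rintro t htS hts hnb ⟨ht4, p, hp, hvp⟩
    have hvS : v ∉ S := fun h => hS s hs v h hsv
    have := sp_big hG hn h1 h2 hdeg hS hmax htS hs (Ne.symm hts)
      (by rw [hnb]; exact pair_comm s t) hvS ht4 hp hvp
    omega
  by_cases hP0 : (priv G S s).card = 0
  · have h3 : ∑ v ∈ G.neighborFinset s, phi G S v s ≤
        ∑ v ∈ G.neighborFinset s, (6 + (if v ∈ priv G S s then (6 : ℤ) else 0)) :=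
      sum_le_sum fun v hv => hweak v (mem_nf.1 hv)
    rw [sum_add_distrib, sum_const, sum_ite_mem, sum_const,
      SimpleGraph.card_neighborFinset_eq_degree, nsmul_eq_mul, nsmul_eq_mul] at h3
    have h5 : ((G.neighborFinset s ∩ priv G S s).card : ℤ) ≤ 0 := by
      exact_mod_cast (card_le_card inter_subset_right).trans hP0.le
    rw [h4] at h3 ⊢
    push_cast at h3 ⊢
    linarith
  · obtain ⟨p, hP⟩ := card_eq_one.1 (by omega : (priv G S s).card = 1)
    have hpP : p ∈ priv G S s := by rw [hP]; simp
    have hp4 : G.degree p = 4 := le_antisymm (h4 ▸ priv_deg hS hmax hs hpP) (hdeg p)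
    have hsp := (priv_adj hpP).symm
    obtain ⟨x, y, z, hx, hy, hz, e1, e2, e3⟩ := triangle_nbhd hG (s := s) (by omega) (by omega)
    have hnp : ∀ v, v = x ∨ v = y ∨ v = z → v ≠ p := by
      rintro v hv rfl
      rcases hv with rfl | rfl | rfl
      · exact tfour hG hn h1 h2 h4 hp4 hx e2.ne hy hz e1 e3
      · exact tfour hG hn h1 h2 h4 hp4 hy e3.ne hx hz e1.symm e2
      · exact tfour hG hn h1 h2 h4 hp4 hz e1.ne hx hy e3.symm e2.symm
    have low : ∀ v, G.Adj s v → v ≠ p → ¬ G.Adj v p → phi G S v s ≤ 5 := by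
      intro v hsv hv hvp
      have hvS : v ∉ S := fun h => hS s hs v h hsv
      have hvP : v ∉ priv G S s := by rw [hP, mem_singleton]; exact hv
      have hk1 : (nb G S v).card ≠ 1 := fun h => hvP (priv_of_card hS hs hsv h)
      have hsnb : s ∈ nb G S v := mem_filter.2 ⟨hs, hsv.symm⟩
      unfold phi
      rw [if_neg hk1]
      by_cases hk3 : 3 ≤ (nb G S v).card
      · rw [if_pos hk3]; norm_num
      · rw [if_neg hk3]
        have hk2 : (nb G S v).card = 2 := by
          have := card_pos.2 ⟨s, hsnb⟩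
          omega
        obtain ⟨t, htS, hts, hnb⟩ := pair_of_card hsnb hk2
        obtain ⟨-, hv5, hvt⟩ := sp_big hG hn h1 h2 hdeg hS hmax hs htS hts hnb hvS h4 hpP hvp
        have hSp : Sp G S v s := ⟨h4, p, hpP, hvp⟩
        have h6 : ((nb G S v).filter fun t => Sp G S v t) = {s} := by
          rw [hnb]
          ext w
          simp only [mem_filter, mem_insert, mem_singleton]
          constructor
          · rintro ⟨h | h, hw⟩
            · exact h
            · rw [h] at hw
              have := hw.1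
              omega
          · intro h
            rw [h]
            exact ⟨Or.inl rfl, hSp⟩
        rw [h6, card_singleton, if_pos rfl, if_pos hSp]
    -- two of `x, y, z` are not adjacent to `p`
    obtain ⟨u, v, huv, hu, hv, hsu, hsv, hup, hvp⟩ : ∃ u v, u ≠ v ∧ (u = x ∨ u = y ∨ u = z) ∧
        (v = x ∨ v = y ∨ v = z) ∧ G.Adj s u ∧ G.Adj s v ∧ ¬ G.Adj u p ∧ ¬ G.Adj v p := by
      have hpx : p ≠ x := Ne.symm (hnp x (Or.inl rfl))
      have hpy : p ≠ y := Ne.symm (hnp y (Or.inr (Or.inl rfl)))
      have hpz : p ≠ z := Ne.symm (hnp z (Or.inr (Or.inr rfl)))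
      by_cases hxp : G.Adj x p
      · have hyp : ¬ G.Adj y p := fun h =>
          kfour h1 h2 h4 hsp hx hy hz hxp.symm h.symm hpz e1 e3 e2
        have hzp : ¬ G.Adj z p := fun h =>
          kfour h1 h2 h4 hsp hx hz hy hxp.symm h.symm hpy e3 e1 e2.symm
        exact ⟨y, z, e2.ne, Or.inr (Or.inl rfl), Or.inr (Or.inr rfl), hy, hz, hyp, hzp⟩
      · by_cases hyp : G.Adj y p
        · have hzp : ¬ G.Adj z p := fun h =>
            kfour h1 h2 h4 hsp hy hz hx hyp.symm h.symm hpx e2 e1.symm e3.symm
          exact ⟨x, z, e3.ne, Or.inl rfl, Or.inr (Or.inr rfl), hx, hz, hxp, hzp⟩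
        · exact ⟨x, y, e1.ne, Or.inl rfl, Or.inr (Or.inl rfl), hx, hy, hxp, hyp⟩
    have hlu := low u hsu (hnp u hu) hup
    have hlv := low v hsv (hnp v hv) hvp
    have huP : u ∉ priv G S s := by rw [hP, mem_singleton]; exact hnp u hu
    have hvP : v ∉ priv G S s := by rw [hP, mem_singleton]; exact hnp v hv
    have h3 : ∑ w ∈ G.neighborFinset s, phi G S w s ≤
        ∑ w ∈ G.neighborFinset s, (6 + (if w ∈ priv G S s then (6 : ℤ) else 0) +
          (if w = u then (-1 : ℤ) else 0) + (if w = v then (-1 : ℤ) else 0)) := by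
      apply sum_le_sum
      intro w hw
      rw [mem_nf] at hw
      by_cases hwu : w = u
      · rw [hwu, if_neg huP, if_pos rfl, if_neg huv]
        linarith
      · by_cases hwv : w = v
        · rw [hwv, if_neg hvP, if_neg (Ne.symm huv), if_pos rfl]
          linarith
        · rw [if_neg hwu, if_neg hwv]
          have := hweak w hw
          linarith
    rw [sum_add_distrib, sum_add_distrib, sum_add_distrib, sum_const, sum_ite_mem, sum_const,
      sum_ite_eq', sum_ite_eq', if_pos (mem_nf.2 hsu), if_pos (mem_nf.2 hsv),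
      SimpleGraph.card_neighborFinset_eq_degree, nsmul_eq_mul, nsmul_eq_mul] at h3
    have h5 : ((G.neighborFinset s ∩ priv G S s).card : ℤ) ≤ 1 := by
      exact_mod_cast (card_le_card inter_subset_right).trans hle
    rw [h4] at h3 ⊢
    push_cast at h3 ⊢
    linarith

/-- the bound for graphs without reductions, large case -/
theorem irr_large (hG : ¬ HasBipartiteCut G) (hn : 9 ≤ Fintype.card V) (h1 : H1 G) (h2 : H2 G)
    (h3 : H3 G) : 13 * (Fintype.card V : ℤ) - 15 ≤ 5 * G.edgeFinset.card := by
  have hdeg : ∀ v, 4 ≤ G.degree v := four_le hG (by omega) h2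
  obtain ⟨S, hS, hmax⟩ := exists_heaviest (G := G)
  have e1 := load_sum hS (dom hdeg hS hmax)
  have e2 : ∀ s ∈ S, 12 + ∑ v ∈ G.neighborFinset s, phi G S v s ≤
      20 * ((G.degree s : ℤ) - 2) := by
    intro s hs
    have hs4 := hdeg s
    by_cases h4 : G.degree s = 4
    · exact load_weak hG (by omega) h1 h2 hdeg hS hmax hs h4
    · by_cases h5 : G.degree s = 5
      · exact load_five hG (by omega) h1 h2 h3 hdeg hS hmax hs h5
      · apply load_strong hS hs
        by_cases h6 : G.degree s = 6
        · have := P6 hG (by omega) h1 h2 hdeg hS hmax hs h6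
          omega
        · have := priv_card_le S s (G := G)
          omega
  have e3 := sum_le_sum e2
  rw [sum_add_distrib, sum_const, nsmul_eq_mul, ← mul_sum] at e3
  have e4 := edges_ge hG hS
  linarith

/-- the bound for graphs without reductions -/
theorem irr (hG : ¬ HasBipartiteCut G) (hn : 5 ≤ Fintype.card V) (h1 : H1 G) (h2 : H2 G)
    (h3 : 9 ≤ Fintype.card V → H3 G) :
    3 * (Fintype.card V : ℤ) ≤ G.edgeFinset.card + 6 ∨
      13 * (Fintype.card V : ℤ) ≤ 5 * G.edgeFinset.card + 15 := by
  by_cases hn9 : 9 ≤ Fintype.card V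
  · have := irr_large hG hn9 h1 h2 (h3 hn9)
    right
    linarith
  · left
    have hdeg : ∀ v, 4 ≤ G.degree v := four_le hG (by omega) h2
    have hsum := G.sum_degrees_eq_twice_card_edges
    have e1 : ∑ _v : V, 4 ≤ ∑ v : V, G.degree v := sum_le_sum fun v _ => hdeg v
    rw [sum_const, smul_eq_mul, card_univ, hsum] at e1
    by_cases hn7 : 7 ≤ Fintype.card V
    · by_cases hall : ∀ v, 5 ≤ G.degree v
      · have e2 : ∑ _v : V, 5 ≤ ∑ v : V, G.degree v := sum_le_sum fun v _ => hall v
        rw [sum_const, smul_eq_mul, card_univ, hsum] at e2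
        omega
      · push Not at hall
        obtain ⟨s, hs⟩ := hall
        have hs4 : G.degree s = 4 := by
          have := hdeg s
          omega
        obtain ⟨x, y, z, hx, hy, hz, f1, f2, f3⟩ :=
          triangle_nbhd hG (s := s) (by omega) (by omega)
        have five : ∀ v, v ∈ ({x, y, z} : Finset V) → 5 ≤ G.degree v := by
          intro v hv
          by_contra hcon
          have hv4 : G.degree v = 4 := by
            have := hdeg v
            omega
          simp only [mem_insert, mem_singleton] at hv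
          rcases hv with rfl | rfl | rfl
          · exact tfour hG hn7 h1 h2 hs4 hv4 hx f2.ne hy hz f1 f3
          · exact tfour hG hn7 h1 h2 hs4 hv4 hy f3.ne hx hz f1.symm f2
          · exact tfour hG hn7 h1 h2 hs4 hv4 hz f1.ne hx hy f3.symm f2.symm
        have e2 : ∑ v : V, (4 + if v ∈ ({x, y, z} : Finset V) then 1 else 0) ≤
            ∑ v : V, G.degree v := by
          apply sum_le_sum
          intro v _
          by_cases hv : v ∈ ({x, y, z} : Finset V)
          · rw [if_pos hv]; exact five v hv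
          · rw [if_neg hv]; exact hdeg v
        rw [sum_add_distrib, sum_const, smul_eq_mul, card_univ, hsum, sum_ite_mem, univ_inter,
          sum_const, card3 f1.ne f3.ne f2.ne, smul_eq_mul] at e2
        omega
    · omega

/-- four vertices -/
theorem base (hG : ¬ HasBipartiteCut G) (hn : Fintype.card V = 4) :
    3 * (Fintype.card V : ℤ) ≤ G.edgeFinset.card + 6 := by
  have hsum := G.sum_degrees_eq_twice_card_edges
  have e1 : ∑ _v : V, 3 ≤ ∑ v : V, G.degree v := sum_le_sum fun v _ => three_le hG (by omega) v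
  rw [sum_const, smul_eq_mul, card_univ, hsum] at e1
  omega

end Pool.Agent.Lib.MP_aecbcf_co.Gen
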