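import Pool.Agent.Results.MP_aecbcf_co.FourColourable

/-!
# Heaviest stable sets in graphs without a bipartite cut
-/

set_option autoImplicit false

namespace Pool.Agent.Lib.MP_aecbcf_co.Heavy

open Finset Pool.Agent.Results.MP_aecbcf_co.FourColourable

/-- `v` lies in a clique with exactly `k` vertices. -/
def InClique {V : Type*} (G : SimpleGraph V) (k : ℕ) (v : V) : Prop :=
  ∃ Q : Finset V, G.IsNClique k Q ∧ v ∈ Q

/-- a triangle-free graph with at most four vertices is bipartite -/
theorem two_col {W : Type*} [Fintype W] (H : SimpleGraph W) (hc : Fintype.card W ≤ 4)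
    (ht : ∀ x y z, H.Adj x y → H.Adj y z → ¬ H.Adj x z) : H.Colorable 2 := by
  classical
  by_cases h : ∃ u a b, a ≠ b ∧ H.Adj u a ∧ H.Adj u b
  · obtain ⟨u, a, b, hab, ha, hb⟩ := h
    refine ⟨SimpleGraph.Coloring.mk (fun x => if H.Adj u x then (0 : Fin 2) else 1) ?_⟩
    intro x y hxy
    by_cases hx : H.Adj u x
    · by_cases hy : H.Adj u y
      · exact absurd hy (ht u x y hx hxy)
      · simp [hx, hy]
    · by_cases hy : H.Adj u y
      · simp [hx, hy]
      · exfalso
        have hxu : u ≠ x := by rintro rfl; exact hy hxy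
        have hyu : u ≠ y := by rintro rfl; exact hx hxy.symm
        have hax : a ≠ x := by rintro rfl; exact hx ha
        have hay : a ≠ y := by rintro rfl; exact hy ha
        have hbx : b ≠ x := by rintro rfl; exact hx hb
        have hby : b ≠ y := by rintro rfl; exact hy hb
        have h5 : ({u, a, b, x, y} : Finset W).card = 5 := by
          rw [card_insert_of_notMem, card_insert_of_notMem, card_insert_of_notMem,
            card_insert_of_notMem, card_singleton]
          · simp [hxy.ne]
          · simp [hbx, hby]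
          · simp [hab, hax, hay]
          · simp [ha.ne, hb.ne, hxu, hyu]
        have := card_le_univ ({u, a, b, x, y} : Finset W)
        omega
  · push Not at h
    let e := Fintype.equivFin W
    refine ⟨SimpleGraph.Coloring.mk
      (fun x => if ∃ y, H.Adj x y ∧ e x < e y then (0 : Fin 2) else 1) ?_⟩
    have key : ∀ x y, H.Adj x y → e x < e y →
        (∃ z, H.Adj x z ∧ e x < e z) ∧ ¬ ∃ z, H.Adj y z ∧ e y < e z := by
      intro x y hxy hlt
      refine ⟨⟨y, hxy, hlt⟩, ?_⟩
      rintro ⟨z, hyz, hlt'⟩
      refine h y x z ?_ hxy.symm hyz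
      rintro rfl
      exact absurd hlt (not_lt.2 hlt'.le)
    intro x y hxy
    rcases lt_trichotomy (e x) (e y) with h1 | h1 | h1
    · obtain ⟨h2, h3⟩ := key x y hxy h1
      rw [if_pos h2, if_neg h3]
      decide
    · exact absurd (e.injective h1) hxy.ne
    · obtain ⟨h2, h3⟩ := key y x hxy.symm h1
      rw [if_pos h2, if_neg h3]
      decide

section

variable {V : Type*} [Fintype V] [DecidableEq V] {G : SimpleGraph V} [DecidableRel G.Adj]

/-- a vertex of degree at most four outside all `K_4` is adjacent to all others -/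
theorem low (hG : ¬ HasBipartiteCut G) (v : V) (h4 : G.degree v ≤ 4) (hK : ¬ InClique G 4 v) :
    Fintype.card V ≤ G.degree v + 1 := by
  classical
  by_contra hcon
  push Not at hcon
  apply hG
  refine ⟨G.neighborSet v, ?_, ?_⟩
  · apply two_col
    · have : Fintype.card (G.neighborSet v) = G.degree v := G.card_neighborSet_eq_degree v
      rw [← Nat.card_eq_fintype_card] at this ⊢
      omega
    · rintro ⟨x, hx⟩ ⟨y, hy⟩ ⟨z, hz⟩ hxy hyz hxz
      have hx' : G.Adj v x := hx
      have hy' : G.Adj v y := hy
      have hz' : G.Adj v z := hz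
      have hxy' : G.Adj x y := hxy
      have hyz' : G.Adj y z := hyz
      have hxz' : G.Adj x z := hxz
      refine hK ⟨{v, x, y, z}, ?_, by simp⟩
      rw [SimpleGraph.isNClique_iff, SimpleGraph.isClique_iff]
      constructor
      · intro a ha b hb hab
        simp only [coe_insert, coe_singleton, Set.mem_insert_iff, Set.mem_singleton_iff] at ha hb
        rcases ha with ha | ha | ha | ha <;> rcases hb with hb | hb | hb | hb <;> rw [ha, hb] <;>
          first
          | exact absurd (ha.trans hb.symm) hab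
          | assumption
          | (apply SimpleGraph.Adj.symm; assumption)
      · rw [card_insert_of_notMem, card_insert_of_notMem, card_insert_of_notMem, card_singleton]
        · simp [hyz'.ne]
        · simp [hxy'.ne, hxz'.ne]
        · simp [hx'.ne, hy'.ne, hz'.ne]
  · intro hP
    have hlt : (insert v (G.neighborFinset v)).card < Fintype.card V := by
      refine lt_of_le_of_lt (card_insert_le _ _) ?_
      rw [SimpleGraph.card_neighborFinset_eq_degree]
      exact hcon
    obtain ⟨w, hw⟩ : ∃ w, w ∉ insert v (G.neighborFinset v) := by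
      by_contra hall
      push Not at hall
      rw [eq_univ_iff_forall.2 hall, card_univ] at hlt
      exact absurd hlt (lt_irrefl _)
    rw [mem_insert, SimpleGraph.mem_neighborFinset] at hw
    push Not at hw
    have hv : v ∈ (G.neighborSet v)ᶜ := fun h => G.loopless.irrefl v h
    have hw' : w ∈ (G.neighborSet v)ᶜ := fun h => hw.2 h
    obtain ⟨p⟩ := hP ⟨v, hv⟩ ⟨w, hw'⟩
    cases p with
    | nil => exact hw.1 rfl
    | @cons _ y _ hxy _ =>
      have h1 : G.Adj v y.1 := hxy
      exact y.2 h1

/-- the vertices outside `S` whose only neighbour in `S` is `s` -/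
def priv (G : SimpleGraph V) [DecidableRel G.Adj] (S : Finset V) (s : V) : Finset V :=
  univ.filter fun v => v ∉ S ∧ (S.filter fun t => G.Adj v t) = {s}

theorem mem_priv {S : Finset V} {s v : V} :
    v ∈ priv G S s ↔ v ∉ S ∧ (S.filter fun t => G.Adj v t) = {s} := by
  simp [priv]

theorem priv_adj {S : Finset V} {s v : V} (h : v ∈ priv G S s) : G.Adj v s := by
  have h1 := (mem_priv.1 h).2
  have h2 : s ∈ S.filter fun t => G.Adj v t := by rw [h1]; exact mem_singleton_self s
  exact (mem_filter.1 h2).2

theorem priv_only {S : Finset V} {s v t : V} (h : v ∈ priv G S s) (ht : t ∈ S)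
    (hvt : G.Adj v t) : t = s := by
  have h1 := (mem_priv.1 h).2
  have h2 : t ∈ S.filter fun t => G.Adj v t := mem_filter.2 ⟨ht, hvt⟩
  rw [h1] at h2
  exact mem_singleton.1 h2

theorem priv_card_le (S : Finset V) (s : V) : (priv G S s).card ≤ G.degree s := by
  rw [← SimpleGraph.card_neighborFinset_eq_degree]
  apply card_le_card
  intro v hv
  rw [SimpleGraph.mem_neighborFinset]
  exact (priv_adj hv).symm

/-- double counting of the edges between `S` and its complement -/
theorem count {S : Finset V} (hS : IsStable G S)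
    (hmax : ∀ v, v ∉ S → (S.filter fun s => G.Adj v s).Nonempty) :
    2 * Fintype.card V ≤ ∑ s ∈ S, (2 + G.degree s + (priv G S s).card) := by
  have h1 : ∑ s ∈ S, G.degree s = ∑ v ∈ Sᶜ, (S.filter fun s => G.Adj v s).card := by
    have h3 : ∀ s ∈ S, G.degree s = (Sᶜ.filter fun v => G.Adj s v).card := by
      intro s hs
      rw [← SimpleGraph.card_neighborFinset_eq_degree]
      congr 1
      ext v
      rw [SimpleGraph.mem_neighborFinset, mem_filter, mem_compl]
      exact ⟨fun h => ⟨fun hv => hS s hs v hv h, h⟩, fun h => h.2⟩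
    rw [sum_congr rfl h3]
    have := sum_card_bipartiteAbove_eq_sum_card_bipartiteBelow (s := S) (t := Sᶜ)
      (fun a b => G.Adj a b)
    simp only [bipartiteAbove, bipartiteBelow] at this
    rw [this]
    apply sum_congr rfl
    intro v _
    congr 1
    ext s
    simp [G.adj_comm]
  have h2 : ∑ s ∈ S, (priv G S s).card =
      ∑ v ∈ Sᶜ, (S.filter fun s => (S.filter fun t => G.Adj v t) = {s}).card := by
    have h3 : ∀ s ∈ S, (priv G S s).card =
        (Sᶜ.filter fun v => (S.filter fun t => G.Adj v t) = {s}).card := by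
      intro s _
      congr 1
      ext v
      rw [mem_priv, mem_filter, mem_compl]
    rw [sum_congr rfl h3]
    have := sum_card_bipartiteAbove_eq_sum_card_bipartiteBelow (s := S) (t := Sᶜ)
      (fun a b => (S.filter fun t => G.Adj b t) = {a})
    simp only [bipartiteAbove, bipartiteBelow] at this
    rw [this]
  have h3 : ∑ v ∈ Sᶜ, 2 ≤ ∑ v ∈ Sᶜ, ((S.filter fun s => G.Adj v s).card +
      (S.filter fun s => (S.filter fun t => G.Adj v t) = {s}).card) := by
    apply sum_le_sum
    intro v hv
    rw [mem_compl] at hv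
    have h4 := card_pos.2 (hmax v hv)
    by_cases h5 : (S.filter fun s => G.Adj v s).card = 1
    · obtain ⟨s, hs⟩ := card_eq_one.1 h5
      have h6 : s ∈ S := by
        have : s ∈ S.filter fun s => G.Adj v s := by rw [hs]; exact mem_singleton_self s
        exact (mem_filter.1 this).1
      have h7 : 0 < (S.filter fun s => (S.filter fun t => G.Adj v t) = {s}).card :=
        card_pos.2 ⟨s, mem_filter.2 ⟨h6, hs⟩⟩
      omega
    · omega
  rw [sum_const, smul_eq_mul, card_compl, sum_add_distrib, ← h1, ← h2] at h3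
  have h8 : S.card ≤ Fintype.card V := card_le_univ S
  have h9 : ∑ s ∈ S, (2 + G.degree s + (priv G S s).card) =
      S.card * 2 + ∑ s ∈ S, G.degree s + ∑ s ∈ S, (priv G S s).card := by
    rw [sum_add_distrib, sum_add_distrib, sum_const, smul_eq_mul]
  rw [h9]
  omega

/-- the weight of a set -/
def wt (G : SimpleGraph V) [DecidableRel G.Adj] (S : Finset V) : ℤ :=
  ∑ v ∈ S, ((G.degree v : ℤ) - 2)

theorem exists_heaviest : ∃ S : Finset V, IsStable G S ∧ ∀ T, IsStable G T → wt G T ≤ wt G S := by
  classical
  obtain ⟨S, hS, hmax⟩ := exists_max_image (univ.filter fun S : Finset V => IsStable G S) (wt G)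
    ⟨∅, by
      rw [mem_filter]
      exact ⟨mem_univ _, fun x hx => absurd hx (notMem_empty x)⟩⟩
  rw [mem_filter] at hS
  exact ⟨S, hS.2, fun T hT => hmax T (mem_filter.2 ⟨mem_univ _, hT⟩)⟩

theorem heaviest_dom {S : Finset V} (hS : IsStable G S) (hmax : ∀ T, IsStable G T → wt G T ≤ wt G S)
    (hdeg : ∀ v, 5 ≤ G.degree v) (v : V) (hv : v ∉ S) :
    (S.filter fun s => G.Adj v s).Nonempty := by
  by_contra hcon
  rw [not_nonempty_iff_eq_empty] at hcon
  have hno : ∀ s ∈ S, ¬ G.Adj v s := by
    intro s hs h
    have : s ∈ S.filter fun s => G.Adj v s := mem_filter.2 ⟨hs, h⟩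
    rw [hcon] at this
    exact absurd this (notMem_empty s)
  have h1 : IsStable G (insert v S) := by
    intro x hx y hy hxy
    rw [mem_insert] at hx hy
    rcases hx with rfl | hx <;> rcases hy with rfl | hy
    · exact hxy.ne rfl
    · exact hno y hy hxy
    · exact hno x hx hxy.symm
    · exact hS x hx y hy hxy
  have h2 := hmax _ h1
  have h3 := hdeg v
  unfold wt at h2
  rw [sum_insert hv] at h2
  have h4 : (5 : ℤ) ≤ G.degree v := by exact_mod_cast h3
  linarith

theorem heaviest_clique {S : Finset V} (hS : IsStable G S)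
    (hmax : ∀ T, IsStable G T → wt G T ≤ wt G S) (hdeg : ∀ v, 5 ≤ G.degree v) {s : V}
    (hs : s ∈ S) (h7 : G.degree s ≤ 7) {p q : V} (hp : p ∈ priv G S s) (hq : q ∈ priv G S s)
    (hpq : p ≠ q) : G.Adj p q := by
  by_contra hno
  have hpS := (mem_priv.1 hp).1
  have hqS := (mem_priv.1 hq).1
  have hp' : ∀ t ∈ S.erase s, ¬ G.Adj p t := by
    intro t ht h
    rw [mem_erase] at ht
    exact ht.1 (priv_only hp ht.2 h)
  have hq' : ∀ t ∈ S.erase s, ¬ G.Adj q t := by
    intro t ht h
    rw [mem_erase] at ht
    exact ht.1 (priv_only hq ht.2 h)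
  have h1 : IsStable G (insert p (insert q (S.erase s))) := by
    intro x hx y hy hxy
    rw [mem_insert, mem_insert] at hx hy
    rcases hx with rfl | rfl | hx <;> rcases hy with rfl | rfl | hy
    · exact hxy.ne rfl
    · exact hno hxy
    · exact hp' y hy hxy
    · exact hno hxy.symm
    · exact hxy.ne rfl
    · exact hq' y hy hxy
    · exact hp' x hx hxy.symm
    · exact hq' x hx hxy.symm
    · exact hS x (mem_of_mem_erase hx) y (mem_of_mem_erase hy) hxy
  have h2 := hmax _ h1
  have hqE : q ∉ S.erase s := fun h => hqS (mem_of_mem_erase h)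
  have hpE : p ∉ insert q (S.erase s) := by
    rw [mem_insert]
    rintro (h | h)
    · exact hpq h
    · exact hpS (mem_of_mem_erase h)
  unfold wt at h2
  rw [sum_insert hpE, sum_insert hqE, ← sum_erase_add S _ hs] at h2
  have h3 : (5 : ℤ) ≤ G.degree p := by exact_mod_cast hdeg p
  have h4 : (5 : ℤ) ≤ G.degree q := by exact_mod_cast hdeg q
  have h5 : (G.degree s : ℤ) ≤ 7 := by exact_mod_cast h7
  linarith

/-- the general inequality -/
theorem slope (hG : ¬ HasBipartiteCut G) (hdeg : ∀ v, 5 ≤ G.degree v) (p q : ℤ) (hp : 0 ≤ p)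
    (hq : 0 ≤ q)
    (h : ∀ (s : V) (k : ℕ), k ≤ G.degree s → (G.degree s ≤ 7 → InClique G (k + 1) s) →
      q * (2 + G.degree s + k) ≤ p * ((G.degree s : ℤ) - 2)) :
    (2 * p + 2 * q) * Fintype.card V - 3 * p ≤ p * G.edgeFinset.card := by
  obtain ⟨S, hS, hmax⟩ := exists_heaviest (G := G)
  have h1 := count hS (heaviest_dom hS hmax hdeg)
  have h2 : ∀ s ∈ S, q * (2 + G.degree s + (priv G S s).card) ≤ p * ((G.degree s : ℤ) - 2) := by
    intro s hs
    apply h s _ (priv_card_le S s)
    intro h7
    have hsp : s ∉ priv G S s := fun h => (mem_priv.1 h).1 hs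
    refine ⟨insert s (priv G S s), ?_, mem_insert_self _ _⟩
    rw [SimpleGraph.isNClique_iff]
    refine ⟨?_, card_insert_of_notMem hsp⟩
    rw [SimpleGraph.isClique_iff]
    intro x hx y hy hxy
    rw [mem_coe, mem_insert] at hx hy
    rcases hx with rfl | hx <;> rcases hy with rfl | hy
    · exact absurd rfl hxy
    · exact (priv_adj hy).symm
    · exact priv_adj hx
    · exact heaviest_clique hS hmax hdeg hs h7 hx hy hxy
  have h3 := sum_le_sum h2
  rw [← mul_sum, ← mul_sum] at h3
  have h4 := edges_ge hG hS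
  have h5 : (2 * Fintype.card V : ℤ) ≤ ∑ s ∈ S, (2 + (G.degree s : ℤ) + (priv G S s).card) := by
    exact_mod_cast h1
  have h6 := mul_le_mul_of_nonneg_left h5 hq
  have h7 := mul_le_mul_of_nonneg_left h4 hp
  rw [mul_add] at h7
  linarith

/-- a vertex in a clique with at least `k` vertices lies in one with `k` vertices -/
theorem inClique_mono {s : V} {k l : ℕ} (hk : 1 ≤ k) (hkl : k ≤ l) (h : InClique G l s) :
    InClique G k s := by
  obtain ⟨Q, hQ, hsQ⟩ := h
  rw [SimpleGraph.isNClique_iff] at hQ
  obtain ⟨R, hsR, hRQ, hR⟩ := exists_subsuperset_card_eq (s := {s}) (t := Q) (n := k)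
    (singleton_subset_iff.2 hsQ) (by rw [card_singleton]; exact hk) (by rw [hQ.2]; exact hkl)
  refine ⟨R, ?_, singleton_subset_iff.1 hsR⟩
  rw [SimpleGraph.isNClique_iff]
  exact ⟨hQ.1.subset (coe_subset.2 hRQ), hR⟩

theorem deg_ge (hn : 4 ≤ Fintype.card V) (hG : ¬ HasBipartiteCut G)
    (h4 : ∀ v, G.degree v ≤ 4 → ¬ InClique G 4 v) (v : V) : 5 ≤ G.degree v := by
  by_contra hcon
  push Not at hcon
  have h1 := low hG v (by omega) (h4 v (by omega))
  have hall : ∀ w, Fintype.card V ≤ G.degree w + 1 := by
    intro w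
    by_contra hw
    have h2 : 5 ≤ G.degree w := by
      by_contra h3
      exact hw (low hG w (by omega) (h4 w (by omega)))
    omega
  have hadj : ∀ x y, x ≠ y → G.Adj x y := by
    intro x y hxy
    have h2 := hall x
    have h3 : G.neighborFinset x = univ.erase x := by
      apply eq_of_subset_of_card_le
      · intro z hz
        rw [SimpleGraph.mem_neighborFinset] at hz
        exact mem_erase.2 ⟨hz.ne', mem_univ _⟩
      · rw [card_erase_of_mem (mem_univ _), card_univ,
          SimpleGraph.card_neighborFinset_eq_degree]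
        omega
    have h4 : y ∈ G.neighborFinset x := by
      rw [h3]
      exact mem_erase.2 ⟨hxy.symm, mem_univ _⟩
    exact (SimpleGraph.mem_neighborFinset _ _ _).1 h4
  apply h4 v (by omega)
  apply inClique_mono (l := Fintype.card V) (by omega) hn
  refine ⟨univ, ?_, mem_univ _⟩
  rw [SimpleGraph.isNClique_iff]
  exact ⟨fun x _ y _ hxy => hadj x y hxy, card_univ⟩

end

end Pool.Agent.Lib.MP_aecbcf_co.Heavy
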