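import Pool.Agent.Lib.MP_aecbcf_co.Red
import Pool.Agent.Lib.MP_aecbcf_co.Gen

/-! The induction: every graph with at least four vertices and without a bipartite cut has at least
`3 n - 6` or at least `(13 n - 15) / 5` edges. -/

set_option autoImplicit false

namespace Pool.Agent.Lib.MP_aecbcf_co.Ind

open Finset Pool.Agent.Lib.BipCut Pool.Agent.Results.MP_aecbcf_co.FourColourable
open Pool.Agent.Lib.MP_aecbcf_co.Red Pool.Agent.Lib.MP_aecbcf_co.Gen

variable {α : Type*} [DecidableEq α]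

/-- the graph on the members of `A` -/
def toG (r : α → α → Prop) (hs : Sy r) (hi : ∀ x, ¬ r x x) (A : Finset α) :
    SimpleGraph {x // x ∈ A} where
  Adj x y := r x.1 y.1
  symm := ⟨fun _ _ h => hs h⟩
  loopless := ⟨fun x => hi x.1⟩

instance (r : α → α → Prop) [DecidableRel r] (hs : Sy r) (hi : ∀ x, ¬ r x x) (A : Finset α) :
    DecidableRel (toG r hs hi A).Adj := fun x y => inferInstanceAs (Decidable (r x.1 y.1))

theorem toG_degree (r : α → α → Prop) [DecidableRel r] (hs : Sy r) (hi : ∀ x, ¬ r x x)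
    (A : Finset α) (x : {x // x ∈ A}) :
    (toG r hs hi A).degree x = (A.filter fun y => r x.1 y).card := by
  rw [← SimpleGraph.card_neighborFinset_eq_degree]
  apply card_bij (fun y _ => y.1)
  · intro y hy
    rw [SimpleGraph.mem_neighborFinset] at hy
    exact mem_filter.2 ⟨y.2, hy⟩
  · intro y _ z _ h
    exact Subtype.ext h
  · intro y hy
    rw [mem_filter] at hy
    exact ⟨⟨y, hy.1⟩, (SimpleGraph.mem_neighborFinset _ _ _).2 hy.2, rfl⟩

theorem toG_edges (r : α → α → Prop) [DecidableRel r] (hs : Sy r) (hi : ∀ x, ¬ r x x)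
    (A : Finset α) : 2 * (toG r hs hi A).edgeFinset.card = m2 r A := by
  rw [← SimpleGraph.sum_degrees_eq_twice_card_edges, m2_eq_sum]
  rw [← sum_coe_sort A (fun x => (A.filter fun y => r x y).card)]
  exact sum_congr rfl fun x _ => toG_degree r hs hi A x

theorem toG_nocut (r : α → α → Prop) (hs : Sy r) (hi : ∀ x, ¬ r x x) (A : Finset α)
    (h : HasBipartiteCut (toG r hs hi A)) : Cut r A := by
  classical
  obtain ⟨M, ⟨c⟩, hP⟩ := h
  unfold SimpleGraph.Preconnected at hP
  push Not at hP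
  obtain ⟨a, b, hab⟩ := hP
  refine ⟨A.filter fun x => ∃ (h : x ∈ A) (h' : (⟨x, h⟩ : {x // x ∈ A}) ∈ M),
      c ⟨⟨x, h⟩, h'⟩ = 0,
    A.filter fun x => ∃ (h : x ∈ A) (h' : (⟨x, h⟩ : {x // x ∈ A}) ∈ M), c ⟨⟨x, h⟩, h'⟩ = 1,
    A.filter fun x => ∃ (h : x ∈ A) (h' : (⟨x, h⟩ : {x // x ∈ A}) ∈ Mᶜ),
      ((toG r hs hi A).induce Mᶜ).Reachable a ⟨⟨x, h⟩, h'⟩,
    A.filter fun x => ∃ (h : x ∈ A) (h' : (⟨x, h⟩ : {x // x ∈ A}) ∈ Mᶜ),
      ¬ ((toG r hs hi A).induce Mᶜ).Reachable a ⟨⟨x, h⟩, h'⟩, ?_, ?_, ?_, ?_, ?_, ?_, ?_, ?_, ?_⟩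
  · intro x hx y hy hxy
    obtain ⟨-, h1, h2, h3⟩ := mem_filter.1 hx
    obtain ⟨-, k1, k2, k3⟩ := mem_filter.1 hy
    have : ((toG r hs hi A).induce M).Adj ⟨⟨x, h1⟩, h2⟩ ⟨⟨y, k1⟩, k2⟩ := hxy
    exact c.valid this (h3.trans k3.symm)
  · intro x hx y hy hxy
    obtain ⟨-, h1, h2, h3⟩ := mem_filter.1 hx
    obtain ⟨-, k1, k2, k3⟩ := mem_filter.1 hy
    have : ((toG r hs hi A).induce M).Adj ⟨⟨x, h1⟩, h2⟩ ⟨⟨y, k1⟩, k2⟩ := hxy
    exact c.valid this (h3.trans k3.symm)
  · ext x
    simp only [mem_union, mem_filter]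
    constructor
    · intro hx
      by_cases hM : (⟨x, hx⟩ : {x // x ∈ A}) ∈ M
      · have h2 : c ⟨⟨x, hx⟩, hM⟩ = 0 ∨ c ⟨⟨x, hx⟩, hM⟩ = 1 := by
          generalize c ⟨⟨x, hx⟩, hM⟩ = i
          fin_cases i <;> simp
        rcases h2 with h2 | h2
        · exact Or.inl (Or.inl (Or.inl ⟨hx, hx, hM, h2⟩))
        · exact Or.inl (Or.inl (Or.inr ⟨hx, hx, hM, h2⟩))
      · by_cases hr : ((toG r hs hi A).induce Mᶜ).Reachable a ⟨⟨x, hx⟩, hM⟩
        · exact Or.inl (Or.inr ⟨hx, hx, hM, hr⟩)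
        · exact Or.inr ⟨hx, hx, hM, hr⟩
    · rintro (((h | h) | h) | h) <;> exact h.1
  · rw [disjoint_left]
    intro x hx hx'
    obtain ⟨-, k1, k2, -⟩ := mem_filter.1 hx'
    rcases mem_union.1 hx with h | h
    · obtain ⟨-, h1, h2, -⟩ := mem_filter.1 h
      exact k2 h2
    · obtain ⟨-, h1, h2, -⟩ := mem_filter.1 h
      exact k2 h2
  · rw [disjoint_left]
    intro x hx hx'
    obtain ⟨-, k1, k2, -⟩ := mem_filter.1 hx'
    rcases mem_union.1 hx with h | h
    · obtain ⟨-, h1, h2, -⟩ := mem_filter.1 h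
      exact k2 h2
    · obtain ⟨-, h1, h2, -⟩ := mem_filter.1 h
      exact k2 h2
  · rw [disjoint_left]
    intro x hx hx'
    obtain ⟨-, h1, h2, h3⟩ := mem_filter.1 hx
    obtain ⟨-, k1, k2, k3⟩ := mem_filter.1 hx'
    exact k3 h3
  · exact ⟨a.1.1, mem_filter.2 ⟨a.1.2, a.1.2, a.2, SimpleGraph.Reachable.refl _⟩⟩
  · exact ⟨b.1.1, mem_filter.2 ⟨b.1.2, b.1.2, b.2, hab⟩⟩
  · intro x hx y hy hxy
    obtain ⟨-, h1, h2, h3⟩ := mem_filter.1 hx
    obtain ⟨-, k1, k2, k3⟩ := mem_filter.1 hy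
    have : ((toG r hs hi A).induce Mᶜ).Adj ⟨⟨x, h1⟩, h2⟩ ⟨⟨y, k1⟩, k2⟩ := hxy
    exact k3 (h3.trans this.reachable)

theorem bound : ∀ (n : ℕ) (r : α → α → Prop) [DecidableRel r], Sy r → (∀ x, ¬ r x x) →
    ∀ A : Finset α, A.card = n → 4 ≤ n → ¬ Cut r A →
      6 * n ≤ m2 r A + 12 ∨ 26 * n ≤ 5 * m2 r A + 30 := by
  intro n
  induction n using Nat.strong_induction_on with
  | _ n IH =>
  intro r _ hs hi A hA hn hcut
  have hG : ¬ HasBipartiteCut (toG r hs hi A) := fun h => hcut (toG_nocut r hs hi A h)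
  have hcard : Fintype.card {x // x ∈ A} = n := by rw [Fintype.card_coe, hA]
  have hedge := toG_edges r hs hi A
  by_contra hcon
  push Not at hcon
  by_cases hn4 : n = 4
  · have h := base hG (by rw [hcard, hn4])
    rw [hcard] at h
    omega
  have hn5 : 5 ≤ n := by omega
  have hH1 : H1 (toG r hs hi A) := by
    intro u w a b c huw hno hab hac hbc hua hub huc hwa hwb hwc
    have huw' : u.1 ≠ w.1 := fun h => huw (Subtype.ext h)
    have hno' : ¬ r u.1 w.1 := hno
    have h := IH (n - 1) (by omega) (con r u.1 w.1) (con_symm hs _ _) (con_irrefl _ _)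
      (A.erase w.1) (by rw [card_erase_of_mem w.2, hA]) (by omega)
      (fun hc => hcut (cut_con hs hi u.2 w.2 huw' hno' hc))
    have h2 := m2_con_eq hs hi u.2 w.2 huw' hno'
    have h3 : 3 ≤ (A.filter fun x => r u.1 x ∧ r w.1 x).card := by
      have h4 : ({a.1, b.1, c.1} : Finset α) ⊆ A.filter fun x => r u.1 x ∧ r w.1 x := by
        intro x hx
        simp only [mem_insert, mem_singleton] at hx
        rcases hx with rfl | rfl | rfl
        · exact mem_filter.2 ⟨a.2, hua, hwa⟩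
        · exact mem_filter.2 ⟨b.2, hub, hwb⟩
        · exact mem_filter.2 ⟨c.2, huc, hwc⟩
      have h5 := card_le_card h4
      rw [card_insert_of_notMem, card_insert_of_notMem, card_singleton] at h5
      · exact h5
      · rw [mem_singleton]
        exact fun h => hbc (Subtype.ext h)
      · simp only [mem_insert, mem_singleton, not_or]
        exact ⟨fun h => hab (Subtype.ext h), fun h => hac (Subtype.ext h)⟩
    omega
  have hH2 : H2 (toG r hs hi A) := by
    intro v hv
    have h := IH (n - 1) (by omega) r hs hi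
      (A.erase v.1) (by rw [card_erase_of_mem v.2, hA]) (by omega)
      (fun hc => hcut (cut_simplicial hs v.2 (by
        intro x hx y hy hvx hvy hxy
        exact hv ⟨x, hx⟩ ⟨y, hy⟩ hvx hvy (fun e => hxy (congrArg Subtype.val e))) hc))
    have h2 := m2_insert (r := r) hs hi (notMem_erase v.1 A)
    rw [insert_erase v.2] at h2
    have h3 : 3 ≤ (toG r hs hi A).degree v := three_le hG (by rw [hcard]; omega) v
    rw [toG_degree] at h3
    have h4 : ((A.erase v.1).filter fun x => r v.1 x) = A.filter fun x => r v.1 x := by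
      ext x
      rw [mem_filter, mem_filter, mem_erase]
      constructor
      · rintro ⟨⟨-, h1⟩, h2⟩
        exact ⟨h1, h2⟩
      · rintro ⟨h1, h2⟩
        refine ⟨⟨?_, h1⟩, h2⟩
        rintro rfl
        exact hi _ h2
    rw [h4] at h2
    omega
  have hH3 : 9 ≤ Fintype.card {x // x ∈ A} → H3 (toG r hs hi A) := by
    intro h9 Q hQ hcl hdeg
    rw [hcard] at h9
    obtain ⟨Q', hQ'⟩ : ∃ Q' : Finset α, Q' = Q.image Subtype.val := ⟨_, rfl⟩
    have hQ'c : Q'.card = 5 := by
      rw [hQ', card_image_of_injective _ Subtype.val_injective, hQ]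
    have hmem : ∀ x, x ∈ Q' ↔ ∃ h : x ∈ A, (⟨x, h⟩ : {x // x ∈ A}) ∈ Q := by
      intro x
      rw [hQ', mem_image]
      constructor
      · rintro ⟨y, hy, rfl⟩
        exact ⟨y.2, hy⟩
      · rintro ⟨h, hx⟩
        exact ⟨⟨x, h⟩, hx, rfl⟩
    have hQA : Q' ⊆ A := fun x hx => ((hmem x).1 hx).1
    have hcl' : ∀ x ∈ Q', ∀ y ∈ Q', x ≠ y → r x y := by
      intro x hx y hy hxy
      obtain ⟨hxA, hxQ⟩ := (hmem x).1 hx
      obtain ⟨hyA, hyQ⟩ := (hmem y).1 hy
      exact hcl _ hxQ _ hyQ (fun e => hxy (congrArg Subtype.val e))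
    have hdeg' : ∀ x ∈ Q', (A.filter fun y => r x y).card = 5 := by
      intro x hx
      obtain ⟨hxA, hxQ⟩ := (hmem x).1 hx
      have := hdeg _ hxQ
      rw [toG_degree] at this
      exact this
    have hone : ∀ q ∈ Q', ∀ x ∈ A \ Q', ∀ y ∈ A \ Q', r q x → r q y → x = y := by
      intro q hq x hx y hy hqx hqy
      by_contra hxy
      rw [mem_sdiff] at hx hy
      have h1 : insert x (insert y (Q'.erase q)) ⊆ A.filter fun y => r q y := by
        intro z hz
        rw [mem_insert, mem_insert] at hz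
        rcases hz with rfl | rfl | hz
        · exact mem_filter.2 ⟨hx.1, hqx⟩
        · exact mem_filter.2 ⟨hy.1, hqy⟩
        · rw [mem_erase] at hz
          exact mem_filter.2 ⟨hQA hz.2, hcl' q hq z hz.2 (Ne.symm hz.1)⟩
      have h2 := card_le_card h1
      rw [card_insert_of_notMem, card_insert_of_notMem, card_erase_of_mem hq, hQ'c,
        hdeg' q hq] at h2
      · omega
      · exact fun h => hy.2 (mem_of_mem_erase h)
      · rw [mem_insert]
        rintro (h | h)
        · exact hxy h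
        · exact hx.2 (mem_of_mem_erase h)
    have h := IH (n - 5) (by omega) r hs hi (A \ Q') (by
        rw [card_sdiff_of_subset hQA, hA, hQ'c]) (by omega)
      (fun hc => hcut (cut_pendant hs hi hQA hQ'c.le hone hc))
    have h2 := m2_sdiff (r := r) hs hQA
    rw [sum_congr rfl hdeg', sum_const, hQ'c, smul_eq_mul] at h2
    have h3 : ∑ _q ∈ Q', 1 ≤ ∑ q ∈ Q', ((A \ Q').filter fun y => r q y).card := by
      apply sum_le_sum
      intro q hq
      have h4 : (A.filter fun y => r q y) ⊆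
          ((A \ Q').filter fun y => r q y) ∪ (Q'.erase q) := by
        intro z hz
        rw [mem_filter] at hz
        rw [mem_union, mem_filter, mem_sdiff, mem_erase]
        by_cases hzQ : z ∈ Q'
        · right
          refine ⟨?_, hzQ⟩
          rintro rfl
          exact hi _ hz.2
        · exact Or.inl ⟨⟨hz.1, hzQ⟩, hz.2⟩
      have h5 := (card_le_card h4).trans (card_union_le _ _)
      rw [hdeg' q hq, card_erase_of_mem hq, hQ'c] at h5
      omega
    rw [sum_const, hQ'c, smul_eq_mul] at h3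
    omega
  have h := irr hG (by rw [hcard]; exact hn5) hH1 hH2 hH3
  rw [hcard] at h
  omega

/-- a cut in relational form is a bipartite cut of the graph -/
theorem cut_graph {V : Type*} [Fintype V] [DecidableEq V] (G : SimpleGraph V)
    [DecidableRel G.Adj] (h : Cut G.Adj univ) : HasBipartiteCut G := by
  obtain ⟨B, C, L, R, hB, hC, hS⟩ := h
  obtain ⟨a, ha⟩ := hS.nel
  obtain ⟨b, hb⟩ := hS.ner
  refine cut_of (A := L) (B := B) (C := C) hB hC ?_ ?_ ?_ ha (w := b) ?_ ?_ ?_
  · exact fun x hx hx' => disjoint_left.1 hS.ml (mem_union_left _ hx') hx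
  · exact fun x hx hx' => disjoint_left.1 hS.ml (mem_union_right _ hx') hx
  · intro x hx y hxy
    have hy : y ∈ B ∪ C ∪ L ∪ R := by rw [← hS.union]; exact mem_univ y
    simp only [mem_union] at hy
    rcases hy with ((h | h) | h) | h
    · exact Or.inr (Or.inl h)
    · exact Or.inr (Or.inr h)
    · exact Or.inl h
    · exact absurd hxy (hS.no x hx y h)
  · exact fun h => disjoint_left.1 hS.lr h hb
  · exact fun h => disjoint_left.1 hS.mr (mem_union_left _ h) hb
  · exact fun h => disjoint_left.1 hS.mr (mem_union_right _ h) hb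

end Pool.Agent.Lib.MP_aecbcf_co.Ind
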