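import Pool.Agent.Lib.MP_aecbcf_co.Total

/-!
# Kempe chains at the vertices outside the coloured part
-/

set_option autoImplicit false

namespace MP_aecbcf

open Finset

variable {V : Type*}

theorem ke_symm (G : SimpleGraph V) (W : Finset V) (c : V → Fin 4) (p : Fin 4 × Fin 4) (u v : V)
    (h : KE G W c p u v) : KE G W c p v u := ⟨h.1.symm, h.2.2.1, h.2.1, h.2.2.2.2, h.2.2.2.1⟩

/-- If the colouring does not extend to `w` then for each pair of colours one edge at `w` is
superfluous. -/
theorem kempe (G : SimpleGraph V) [DecidableEq V] (W : Finset V) (c : V → Fin 4)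
    (hc : ∀ u v, u ∉ W → v ∉ W → G.Adj u v → c u ≠ c v) (w : V) (hw : w ∈ W)
    (hmin : ¬ ∃ c' : V → Fin 4, ∀ u v, (u = w ∨ u ∉ W) → (v = w ∨ v ∉ W) → G.Adj u v →
      c' u ≠ c' v) (p : Fin 4 × Fin 4) (hp : p.1 ≠ p.2) :
    ∃ D : Finset V, Good G W c p w D ∧ 1 ≤ D.card := by
  classical
  let C : Set V := {y | ∃ x, G.Adj w x ∧ x ∉ W ∧ c x = p.1 ∧
    Relation.ReflTransGen (KE G W c p) x y}
  by_cases h1 : ∃ y ∈ C, G.Adj w y ∧ y ∉ W ∧ c y = p.2
  · obtain ⟨y, ⟨x, hx1, hx2, hx3, hx4⟩, hy1, hy2, hy3⟩ := h1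
    refine ⟨{x}, ?_, by simp⟩
    intro z hz
    rw [mem_singleton] at hz
    subst hz
    refine ⟨hx1, hx2, Or.inl hx3, y, ?_, hy1, hy2, Or.inr hy3, hx4⟩
    rw [mem_singleton]
    rintro rfl
    exact hp (hx3.symm.trans hy3)
  · exfalso
    apply hmin
    push Not at h1
    have hCP : ∀ y ∈ C, c y = p.1 ∨ c y = p.2 := by
      rintro y ⟨x, -, hx2, hx3, hx4⟩
      rcases Relation.ReflTransGen.cases_tail hx4 with h | ⟨z, -, hz⟩
      · rw [h]
        exact Or.inl hx3
      · exact hz.2.2.2.2
    have hCW : ∀ y ∈ C, y ∉ W := by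
      rintro y ⟨x, -, hx2, hx3, hx4⟩
      rcases Relation.ReflTransGen.cases_tail hx4 with h | ⟨z, -, hz⟩
      · rw [h]
        exact hx2
      · exact hz.2.2.1
    have hCK : ∀ y ∈ C, ∀ z, KE G W c p y z → z ∈ C := by
      rintro y ⟨x, hx1, hx2, hx3, hx4⟩ z hz
      exact ⟨x, hx1, hx2, hx3, hx4.tail hz⟩
    have hsw : ∀ a : Fin 4, (a = p.1 ∨ a = p.2) → (Equiv.swap p.1 p.2 a = p.1 ∨
        Equiv.swap p.1 p.2 a = p.2) := by
      rintro a (rfl | rfl)
      · exact Or.inr (Equiv.swap_apply_left _ _)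
      · exact Or.inl (Equiv.swap_apply_right _ _)
    let c' : V → Fin 4 := fun u =>
      if u = w then p.1 else if u ∈ C then Equiv.swap p.1 p.2 (c u) else c u
    have hc'w : c' w = p.1 := by simp [c']
    have hc'C : ∀ u, u ≠ w → u ∈ C → c' u = Equiv.swap p.1 p.2 (c u) := by
      intro u h2 h3
      simp [c', h2, h3]
    have hc'N : ∀ u, u ≠ w → u ∉ C → c' u = c u := by
      intro u h2 h3
      simp [c', h2, h3]
    have hww : ∀ v, v ∉ W → G.Adj w v → c' v ≠ p.1 := by
      intro v hv hwv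
      have hvw : v ≠ w := by
        rintro rfl
        exact hv hw
      by_cases hvC : v ∈ C
      · rw [hc'C v hvw hvC]
        rcases hCP v hvC with h | h
        · rw [h, Equiv.swap_apply_left]
          exact hp.symm
        · exact absurd h (h1 v hvC hwv hv)
      · rw [hc'N v hvw hvC]
        intro h
        exact hvC ⟨v, hwv, hv, h, Relation.ReflTransGen.refl⟩
    have hmix : ∀ u v, u ∉ W → v ∉ W → G.Adj u v → u ∈ C → v ∉ C → c' u ≠ c' v := by
      intro u v hu hv huv huC hvC
      have huw : u ≠ w := by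
        rintro rfl
        exact hu hw
      have hvw : v ≠ w := by
        rintro rfl
        exact hv hw
      rw [hc'C u huw huC, hc'N v hvw hvC]
      intro h
      apply hvC
      refine hCK u huC v ⟨huv, hu, hv, hCP u huC, ?_⟩
      unfold InP
      rw [← h]
      exact hsw _ (hCP u huC)
    refine ⟨c', fun u v hu hv huv => ?_⟩
    rcases hu with rfl | hu
    · rcases hv with rfl | hv
      · exact absurd huv (G.loopless.irrefl _)
      · rw [hc'w]
        exact (hww v hv huv).symm
    · rcases hv with rfl | hv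
      · rw [hc'w]
        exact hww u hu huv.symm
      · by_cases huC : u ∈ C
        · by_cases hvC : v ∈ C
          · have huw : u ≠ w := by
              rintro rfl
              exact hu hw
            have hvw : v ≠ w := by
              rintro rfl
              exact hv hw
            rw [hc'C u huw huC, hc'C v hvw hvC]
            intro h
            exact hc u v hu hv huv ((Equiv.swap p.1 p.2).injective h)
          · exact hmix u v hu hv huv huC hvC
        · by_cases hvC : v ∈ C
          · exact (hmix v u hv hu huv.symm hvC huC).symm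
          · have huw : u ≠ w := by
              rintro rfl
              exact hu hw
            have hvw : v ≠ w := by
              rintro rfl
              exact hv hw
            rw [hc'N u huw huC, hc'N v hvw hvC]
            exact hc u v hu hv huv

/-- If moreover `w` is in no `K₄` then for some pair of colours two edges are superfluous. -/
theorem kempe_two [Fintype V] [DecidableEq V] (G : SimpleGraph V) (hn : 4 ≤ Fintype.card V)
    (hcut : ¬ HasBipartiteCut G) (W : Finset V)
    (c : V → Fin 4) (hc : ∀ u v, u ∉ W → v ∉ W → G.Adj u v → c u ≠ c v) (w : V)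
    (hoff : ∀ x, G.Adj w x → x ∉ W)
    (hK : ¬ InK4 G w) : ∃ p ∈ PP, ∃ D : Finset V, Good G W c p w D ∧ 2 ≤ D.card := by
  classical
  by_contra hno
  push Not at hno
  apply nbr_not_bip hn hcut w
  obtain ⟨f, hf⟩ := two_col (G.comap (Subtype.val : {x // G.Adj w x} → V)) (fun x => c x.1)
    (fun u v huv => hc u.1 v.1 (hoff _ u.2) (hoff _ v.2) huv) (by
      intro u v u' v' huv huv' h1 h2
      by_contra hne
      have hne' : u.1 ≠ u'.1 := fun h => hne (Subtype.ext h)
      have hcuv : c u.1 ≠ c v.1 := hc u.1 v.1 (hoff _ u.2) (hoff _ v.2) huv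
      -- the pair
      have hpair : ∃ p ∈ PP, (c u.1 = p.1 ∨ c u.1 = p.2) ∧ (c v.1 = p.1 ∨ c v.1 = p.2) := by
        rcases lt_or_gt_of_ne hcuv with h | h
        · exact ⟨(c u.1, c v.1), mem_filter.2 ⟨mem_univ _, h⟩, Or.inl rfl, Or.inr rfl⟩
        · exact ⟨(c v.1, c u.1), mem_filter.2 ⟨mem_univ _, h⟩, Or.inr rfl, Or.inl rfl⟩
      obtain ⟨p, hp, hpu, hpv⟩ := hpair
      have h1' : c u.1 = c u'.1 := h1
      have h2' : c v.1 = c v'.1 := h2
      have hpu' : c u'.1 = p.1 ∨ c u'.1 = p.2 := by rwa [← h1']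
      have hpv' : c v'.1 = p.1 ∨ c v'.1 = p.2 := by rwa [← h2']
      have hgood : Good G W c p w {u.1, u'.1} := by
        intro x hx
        rw [mem_insert, mem_singleton] at hx
        rcases hx with rfl | rfl
        · refine ⟨u.2, hoff _ u.2, hpu, v.1, ?_, v.2, hoff _ v.2, hpv,
            Relation.ReflTransGen.single ⟨huv, hoff _ u.2, hoff _ v.2, hpu, hpv⟩⟩
          rw [mem_insert, mem_singleton]
          rintro (h | h)
          · exact hcuv (congrArg c h).symm
          · exact hcuv (h1'.trans (congrArg c h).symm)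
        · refine ⟨u'.2, hoff _ u'.2, hpu', v'.1, ?_, v'.2, hoff _ v'.2, hpv',
            Relation.ReflTransGen.single ⟨huv', hoff _ u'.2, hoff _ v'.2, hpu', hpv'⟩⟩
          rw [mem_insert, mem_singleton]
          rintro (h | h)
          · exact hcuv ((congrArg c h).symm.trans h2'.symm)
          · exact hcuv (h1'.trans ((congrArg c h).symm.trans h2'.symm))
      have := hno p hp _ hgood
      rw [card_pair hne'] at this
      omega) (by
      intro x y z h1 h2 h3
      exact hK ⟨x.1, y.1, z.1, x.2, y.2, z.2, h1, h3, h2⟩)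
  refine ⟨fun x => if h : G.Adj w x then f ⟨x, h⟩ else false, fun x y hx hy hxy => ?_⟩
  simp only [dif_pos hx, dif_pos hy]
  exact hf ⟨x, hx⟩ ⟨y, hy⟩ hxy

theorem deg_inst (G : SimpleGraph V) (w : V) (i1 i2 : Fintype (G.neighborSet w)) :
    @SimpleGraph.degree V G w i1 = @SimpleGraph.degree V G w i2 := by
  rw [Subsingleton.elim i1 i2]

/-- **Inequality (A)** for a set `W` of minimal size. -/
theorem ineq_min [Fintype V] (G : SimpleGraph V) [DecidableRel G.Adj]
    (hn : 4 ≤ Fintype.card V)
    (hcut : ¬ HasBipartiteCut G) (W : Finset V)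
    (c : V → Fin 4) (hc : ∀ u v, u ∉ W → v ∉ W → G.Adj u v → c u ≠ c v)
    (hmin : ∀ w ∈ W, ¬ ∃ c' : V → Fin 4, ∀ u v, (u = w ∨ u ∉ W) → (v = w ∨ v ∉ W) → G.Adj u v →
      c' u ≠ c' v) :
    3 * Fintype.card V ≤ G.edgeFinset.card + 6 + inner G W + ∑ w ∈ W, cost G W w := by
  classical
  have hex : ∀ w ∈ W, ∃ D : Fin 4 × Fin 4 → Finset V, (∀ p ∈ PP, Good G W c p w (D p)) ∧
      2 * G.degree w ≤ cost G W w + 3 + ∑ p ∈ PP, (D p).card := by
    intro w hw
    have h1 : ∀ p : Fin 4 × Fin 4, ∃ D : Finset V, p ∈ PP → (Good G W c p w D ∧ 1 ≤ D.card) := by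
      intro p
      by_cases hp : p ∈ PP
      · have hp' : p.1 ≠ p.2 := ne_of_lt (mem_filter.1 hp).2
        obtain ⟨D, hD⟩ := kempe G W c hc w hw (hmin w hw) p hp'
        exact ⟨D, fun _ => hD⟩
      · exact ⟨∅, fun h => absurd h hp⟩
    choose D hD using h1
    by_cases hK : InK4 G w ∨ (∃ x ∈ W, G.Adj w x)
    · refine ⟨D, fun p hp => (hD p hp).1, ?_⟩
      have h2 : ∑ p ∈ PP, 1 ≤ ∑ p ∈ PP, (D p).card := sum_le_sum (fun p hp => (hD p hp).2)
      rw [sum_const, PP_card] at h2
      have h3 : cost G W w = 2 * G.degree w - 9 := by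
        unfold cost
        rw [if_pos hK, deg_inst G w _ _]
      simp only [smul_eq_mul] at h2
      omega
    · have hK1 : ¬ InK4 G w := fun h => hK (Or.inl h)
      have hK2 : ∀ x, G.Adj w x → x ∉ W := fun x hx h => hK (Or.inr ⟨x, h, hx⟩)
      obtain ⟨p₀, hp₀, D₀, hD₀, hD₀'⟩ := kempe_two G hn hcut W c hc w hK2 hK1
      refine ⟨fun p => if p = p₀ then D₀ else D p, fun p hp => ?_, ?_⟩
      · by_cases h : p = p₀
        · simp only [h, if_true]
          exact hD₀
        · simp only [h, if_false]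
          exact (hD p hp).1
      · have h2 : ∑ p ∈ PP, (1 + if p = p₀ then 1 else 0) ≤
            ∑ p ∈ PP, (if p = p₀ then D₀ else D p).card := by
          apply sum_le_sum
          intro p hp
          by_cases h : p = p₀
          · simp only [h, if_true]
            omega
          · simp only [h, if_false]
            exact (hD p hp).2
        rw [sum_add_distrib, sum_const, PP_card, sum_ite_eq' PP p₀ (fun _ => 1), if_pos hp₀] at h2
        have h3 : cost G W w = 2 * G.degree w - 10 := by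
          unfold cost
          rw [if_neg hK, deg_inst G w _ _]
        simp only [smul_eq_mul] at h2
        show 2 * G.degree w ≤ cost G W w + 3 + ∑ p ∈ PP, (if p = p₀ then D₀ else D p).card
        omega
  have hex' : ∀ w : V, ∃ D : Fin 4 × Fin 4 → Finset V, w ∈ W → ((∀ p ∈ PP, Good G W c p w (D p)) ∧
      2 * G.degree w ≤ cost G W w + 3 + ∑ p ∈ PP, (D p).card) := by
    intro w
    by_cases hw : w ∈ W
    · obtain ⟨D, hD⟩ := hex w hw
      exact ⟨D, fun _ => hD⟩
    · exact ⟨fun _ => ∅, fun h => absurd h hw⟩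
  choose D hD using hex'
  have ht := total_ineq G hcut W c hc (fun p w => D w p) (fun p hp w hw => (hD w hw).1 p hp)
  have hs : ∑ w ∈ W, 2 * G.degree w ≤ ∑ w ∈ W, (cost G W w + 3 + ∑ p ∈ PP, (D w p).card) :=
    sum_le_sum (fun w hw => (hD w hw).2)
  rw [sum_add_distrib, sum_add_distrib, sum_const, smul_eq_mul, ← mul_sum] at hs
  omega

/-- **Inequality (A).** -/
theorem ineqA [Fintype V] (G : SimpleGraph V) [DecidableRel G.Adj]
    (hn : 4 ≤ Fintype.card V) (hcut : ¬ HasBipartiteCut G) (W : Finset V)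
    (hc : ∃ c : V → Fin 4, ∀ u v, u ∉ W → v ∉ W → G.Adj u v → c u ≠ c v) :
    3 * Fintype.card V ≤ G.edgeFinset.card + 6 + inner G W + ∑ w ∈ W, cost G W w := by
  classical
  -- choose a subset of minimal size
  have hex : ∃ k, ∃ W' ⊆ W, W'.card = k ∧
      ∃ c : V → Fin 4, ∀ u v, u ∉ W' → v ∉ W' → G.Adj u v → c u ≠ c v :=
    ⟨W.card, W, Subset.refl _, rfl, hc⟩
  obtain ⟨W', hW', hcard, c, hc'⟩ := Nat.find_spec hex
  have hmin : ∀ w ∈ W', ¬ ∃ c' : V → Fin 4, ∀ u v, (u = w ∨ u ∉ W') → (v = w ∨ v ∉ W') →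
      G.Adj u v → c' u ≠ c' v := by
    rintro w hw ⟨c', h⟩
    have hlt : (W'.erase w).card < Nat.find hex := by
      rw [← hcard]
      exact card_erase_lt_of_mem hw
    refine Nat.find_min hex hlt ⟨W'.erase w, (erase_subset _ _).trans hW', rfl, c', ?_⟩
    intro u v hu hv huv
    refine h u v ?_ ?_ huv
    · by_contra h2
      push Not at h2
      exact hu (mem_erase.2 h2)
    · by_contra h2
      push Not at h2
      exact hv (mem_erase.2 h2)
  have h1 := ineq_min G hn hcut W' c hc' hmin
  have h2 : ∑ w ∈ W', cost G W' w ≤ ∑ w ∈ W, cost G W w := by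
    refine le_trans (sum_le_sum (fun w _ => ?_)) (sum_le_sum_of_subset hW')
    unfold cost
    by_cases h : InK4 G w ∨ (∃ x ∈ W', G.Adj w x)
    · have h' : InK4 G w ∨ (∃ x ∈ W, G.Adj w x) := by
        rcases h with h | ⟨x, hx, hwx⟩
        · exact Or.inl h
        · exact Or.inr ⟨x, hW' hx, hwx⟩
      rw [if_pos h, if_pos h']
    · rw [if_neg h]
      split_ifs <;> omega
  have h3 : inner G W' ≤ inner G W := by
    unfold inner
    apply card_le_card
    intro e he
    rw [mem_filter] at he ⊢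
    exact ⟨he.1, fun x hx => hW' (he.2 x hx)⟩
  omega

end MP_aecbcf
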