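import Pool.Agent.Lib.MP_aecbcf_co.NoSeven

/-!
# Heaviest stable sets with the fewest vertices, reduced graphs
-/

set_option autoImplicit false
set_option linter.unusedSectionVars false

namespace Pool.Agent.Lib.MP_aecbcf_co.Needy

open Finset Pool.Agent.Results.MP_aecbcf_co.FourColourable Pool.Agent.Lib.MP_aecbcf_co.Heavy
  Pool.Agent.Lib.MP_aecbcf_co.NoSeven

variable {V : Type*} [Fintype V] [DecidableEq V] {G : SimpleGraph V} [DecidableRel G.Adj]

/-- The properties of a smallest graph without a bipartite cut. -/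
structure Red (G : SimpleGraph V) [DecidableRel G.Adj] : Prop where
  cut : ¬ HasBipartiteCut G
  h1 : ∀ x y, x ≠ y → ¬ G.Adj x y → (univ.filter fun v => G.Adj x v ∧ G.Adj y v).card ≤ 2
  h2 : ∀ v, ∃ x y, G.Adj v x ∧ G.Adj v y ∧ x ≠ y ∧ ¬ G.Adj x y
  h3 : ∀ Q : Finset V, G.IsNClique 5 Q → ∃ v ∈ Q, G.degree v ≠ 5
  h4 : ∀ v, 4 ≤ G.degree v
  T4 : ∀ v, G.degree v = 4 → ∃ w, G.Adj v w ∧
    (∀ x, G.Adj v x → x ≠ w → 5 ≤ G.degree x ∧ ∀ y, G.Adj v y → y ≠ w → x ≠ y → G.Adj x y) ∧
    (∀ x y, G.Adj v x → G.Adj v y → x ≠ w → y ≠ w → G.Adj w x → G.Adj w y → x = y)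

/-- `S` is a heaviest stable set and has the fewest vertices among these. -/
structure Best (G : SimpleGraph V) [DecidableRel G.Adj] (S : Finset V) : Prop where
  st : IsStable G S
  ex : ∀ T R : Finset V, IsStable G T → Disjoint T S → R ⊆ S →
    (∀ x ∈ T, ∀ y ∈ S, G.Adj x y → y ∈ R) →
    wt G T ≤ wt G R ∧ (T.card < R.card → wt G T < wt G R)

theorem exists_best : ∃ S : Finset V, Best G S := by
  classical
  obtain ⟨S, hS, hmax⟩ := exists_max_image (univ.filter fun S : Finset V => IsStable G S)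
    (fun S => ((Fintype.card V : ℤ) + 1) * wt G S - S.card)
    ⟨∅, by
      rw [mem_filter]
      exact ⟨mem_univ _, fun x hx => absurd hx (notMem_empty x)⟩⟩
  rw [mem_filter] at hS
  refine ⟨S, hS.2, ?_⟩
  intro T R hT hTS hR h
  have h1 : IsStable G ((S \ R) ∪ T) := by
    intro x hx y hy hxy
    rw [mem_union, mem_sdiff] at hx hy
    rcases hx with hx | hx <;> rcases hy with hy | hy
    · exact hS.2 x hx.1 y hy.1 hxy
    · exact hx.2 (h y hy x hx.1 hxy.symm)
    · exact hy.2 (h x hx y hy.1 hxy)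
    · exact hT x hx y hy hxy
  have h2 := hmax _ (mem_filter.2 ⟨mem_univ _, h1⟩)
  have hdis : Disjoint (S \ R) T := (hTS.symm.mono_left sdiff_subset)
  have h3 : wt G ((S \ R) ∪ T) = wt G (S \ R) + wt G T := by
    unfold wt
    rw [sum_union hdis]
  have h4 : wt G S = wt G (S \ R) + wt G R := by
    unfold wt
    rw [sum_sdiff hR]
  have h5 : ((S \ R) ∪ T).card = (S \ R).card + T.card := card_union_of_disjoint hdis
  have h6 : S.card = (S \ R).card + R.card := by
    have := card_sdiff_add_card_eq_card hR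
    omega
  simp only [h3, h5] at h2
  rw [h4, h6] at h2
  push_cast at h2
  have h7 : (T.card : ℤ) ≤ Fintype.card V := by exact_mod_cast card_le_univ T
  have h8 : (0 : ℤ) ≤ R.card := by positivity
  have h9 : ((Fintype.card V : ℤ) + 1) * (wt G T - wt G R) ≤ T.card - R.card := by linarith
  have h10 : wt G T ≤ wt G R := by
    by_contra hcon
    push Not at hcon
    have h11 : (1 : ℤ) ≤ wt G T - wt G R := by omega
    have h12 : ((Fintype.card V : ℤ) + 1) * 1 ≤ ((Fintype.card V : ℤ) + 1) * (wt G T - wt G R) :=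
      mul_le_mul_of_nonneg_left h11 (by positivity)
    linarith
  refine ⟨h10, fun hlt => ?_⟩
  rcases lt_or_eq_of_le h10 with h11 | h11
  · exact h11
  · exfalso
    rw [h11, sub_self, mul_zero] at h9
    have : (T.card : ℤ) < R.card := by exact_mod_cast hlt
    linarith

theorem c3 (h : Red G) {x y a b c : V} (hxy : x ≠ y) (hn : ¬ G.Adj x y) (hab : a ≠ b)
    (hac : a ≠ c) (hbc : b ≠ c) (hxa : G.Adj x a) (hxb : G.Adj x b) (hxc : G.Adj x c)
    (hya : G.Adj y a) (hyb : G.Adj y b) (hyc : G.Adj y c) : False := by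
  have h2 := h.h1 x y hxy hn
  have h3 : ({a, b, c} : Finset V) ⊆ univ.filter fun v => G.Adj x v ∧ G.Adj y v := by
    intro v hv
    simp only [mem_insert, mem_singleton] at hv
    rw [mem_filter]
    rcases hv with rfl | rfl | rfl
    · exact ⟨mem_univ _, hxa, hya⟩
    · exact ⟨mem_univ _, hxb, hyb⟩
    · exact ⟨mem_univ _, hxc, hyc⟩
  have h4 := card_le_card h3
  have h5 : ({a, b, c} : Finset V).card = 3 := card_eq_three.2 ⟨a, b, c, hab, hac, hbc, rfl⟩
  omega

/-- the fourth vertex of a vertex of degree four is its neighbour of degree four -/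
theorem T4' (h : Red G) {v w : V} (hv : G.degree v = 4) (hw : G.degree w = 4)
    (hvw : G.Adj v w) :
    (∀ x, G.Adj v x → x ≠ w → 5 ≤ G.degree x ∧ ∀ y, G.Adj v y → y ≠ w → x ≠ y → G.Adj x y) ∧
    (∀ x y, G.Adj v x → G.Adj v y → x ≠ w → y ≠ w → G.Adj w x → G.Adj w y → x = y) := by
  obtain ⟨w0, _, h2, h3⟩ := h.T4 v hv
  have : w = w0 := by
    by_contra hne
    have := (h2 w hvw hne).1
    omega
  subst this
  exact ⟨h2, h3⟩

/-- no vertex of a clique has degree less than the number of its vertices -/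
theorem clique_deg (h : Red G) (Q : Finset V) (hQ : ∀ x ∈ Q, ∀ y ∈ Q, x ≠ y → G.Adj x y) {v : V}
    (hv : v ∈ Q) : Q.card ≤ G.degree v := by
  by_contra hcon
  push Not at hcon
  have h1 : Q.erase v ⊆ G.neighborFinset v := by
    intro x hx
    rw [mem_erase] at hx
    rw [SimpleGraph.mem_neighborFinset]
    exact hQ v hv x hx.2 (Ne.symm hx.1)
  have h2 : Q.erase v = G.neighborFinset v := by
    apply eq_of_subset_of_card_le h1
    rw [SimpleGraph.card_neighborFinset_eq_degree, card_erase_of_mem hv]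
    omega
  obtain ⟨x, y, hx, hy, hxy, hno⟩ := h.h2 v
  rw [← SimpleGraph.mem_neighborFinset, ← h2, mem_erase] at hx hy
  exact hno (hQ x hx.2 y hy.2 hxy)

/-- a set of neighbours -/
theorem deg_ge_of {v : V} {Q : Finset V} (hQ : ∀ x ∈ Q, G.Adj v x) : Q.card ≤ G.degree v := by
  rw [← SimpleGraph.card_neighborFinset_eq_degree]
  apply card_le_card
  intro x hx
  rw [SimpleGraph.mem_neighborFinset]
  exact hQ x hx

theorem nb_of {v : V} {Q : Finset V} (hQ : ∀ x ∈ Q, G.Adj v x) (hc : G.degree v ≤ Q.card) :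
    ∀ y, G.Adj v y → y ∈ Q := by
  have h1 : Q = G.neighborFinset v := by
    apply eq_of_subset_of_card_le
    · intro x hx
      rw [SimpleGraph.mem_neighborFinset]
      exact hQ x hx
    · rw [SimpleGraph.card_neighborFinset_eq_degree]
      exact hc
  intro y hy
  rw [h1, SimpleGraph.mem_neighborFinset]
  exact hy

section

variable {S : Finset V}

theorem wt1 (x : V) : wt G {x} = (G.degree x : ℤ) - 2 := by
  unfold wt
  rw [sum_singleton]

theorem wt2 {x y : V} (h : x ≠ y) :
    wt G {x, y} = (G.degree x : ℤ) - 2 + ((G.degree y : ℤ) - 2) := by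
  unfold wt
  rw [sum_pair h]

theorem wt3 {x y z : V} (hxy : x ≠ y) (hxz : x ≠ z) (hyz : y ≠ z) :
    wt G {x, y, z} = (G.degree x : ℤ) - 2 + ((G.degree y : ℤ) - 2 + ((G.degree z : ℤ) - 2)) := by
  unfold wt
  rw [sum_insert, sum_pair hyz]
  simp [hxy, hxz]

theorem st1 (x : V) : IsStable G {x} := by
  intro a ha b hb hab
  rw [mem_singleton] at ha hb
  subst ha hb
  exact hab.ne rfl

theorem st2 {x y : V} (h : ¬ G.Adj x y) : IsStable G {x, y} := by
  intro a ha b hb hab
  simp only [mem_insert, mem_singleton] at ha hb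
  rcases ha with rfl | rfl <;> rcases hb with rfl | rfl
  · exact hab.ne rfl
  · exact h hab
  · exact h hab.symm
  · exact hab.ne rfl

theorem st3 {x y z : V} (hxy : ¬ G.Adj x y) (hxz : ¬ G.Adj x z) (hyz : ¬ G.Adj y z) :
    IsStable G {x, y, z} := by
  intro a ha b hb hab
  simp only [mem_insert, mem_singleton] at ha hb
  rcases ha with rfl | rfl | rfl <;> rcases hb with rfl | rfl | rfl
  · exact hab.ne rfl
  · exact hxy hab
  · exact hxz hab
  · exact hxy hab.symm
  · exact hab.ne rfl
  · exact hyz hab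
  · exact hxz hab.symm
  · exact hyz hab.symm
  · exact hab.ne rfl

/-- every vertex outside has a neighbour in `S` -/
theorem dom (h : Red G) (hS : Best G S) {x : V} (hx : x ∉ S) :
    (S.filter fun s => G.Adj x s).Nonempty := by
  by_contra hcon
  rw [not_nonempty_iff_eq_empty] at hcon
  have h1 := (hS.ex {x} ∅ (st1 x) (disjoint_singleton_left.2 hx) (empty_subset _) (by
    intro a ha y hy hay
    rw [mem_singleton] at ha
    subst ha
    have : y ∈ S.filter fun s => G.Adj a s := mem_filter.2 ⟨hy, hay⟩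
    rw [hcon] at this
    exact this)).1
  rw [wt1] at h1
  have h2 := h.h4 x
  have h3 : wt G (∅ : Finset V) = 0 := by unfold wt; simp
  omega

theorem pdeg (hS : Best G S) {s p : V} (hs : s ∈ S) (hp : p ∈ priv G S s) :
    G.degree p ≤ G.degree s := by
  have hpS := (mem_priv.1 hp).1
  have h1 := (hS.ex {p} {s} (st1 p) (disjoint_singleton_left.2 hpS) (singleton_subset_iff.2 hs) (by
    intro a ha y hy hay
    rw [mem_singleton] at ha ⊢
    subst ha
    exact priv_only hp hy hay)).1
  rw [wt1, wt1] at h1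
  omega

theorem pdeg2 (hS : Best G S) {s p q : V} (hs : s ∈ S) (hp : p ∈ priv G S s)
    (hq : q ∈ priv G S s) (hpq : p ≠ q) (hn : ¬ G.Adj p q) :
    G.degree p + G.degree q ≤ G.degree s + 2 := by
  have hpS := (mem_priv.1 hp).1
  have hqS := (mem_priv.1 hq).1
  have h1 := (hS.ex {p, q} {s} (st2 hn) (by
    rw [disjoint_left]
    intro a ha
    simp only [mem_insert, mem_singleton] at ha
    rcases ha with rfl | rfl <;> assumption) (singleton_subset_iff.2 hs) (by
    intro a ha y hy hay
    simp only [mem_insert, mem_singleton] at ha ⊢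
    rcases ha with rfl | rfl
    · exact priv_only hp hy hay
    · exact priv_only hq hy hay)).1
  rw [wt1, wt2 hpq] at h1
  omega

theorem pdeg3 (hS : Best G S) {s p q r : V} (hs : s ∈ S) (hp : p ∈ priv G S s)
    (hq : q ∈ priv G S s) (hr : r ∈ priv G S s) (hpq : p ≠ q) (hpr : p ≠ r) (hqr : q ≠ r)
    (hn : ¬ G.Adj p q) (hn2 : ¬ G.Adj p r) (hn3 : ¬ G.Adj q r) :
    G.degree p + G.degree q + G.degree r ≤ G.degree s + 4 := by
  have hpS := (mem_priv.1 hp).1
  have hqS := (mem_priv.1 hq).1
  have hrS := (mem_priv.1 hr).1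
  have h1 := (hS.ex {p, q, r} {s} (st3 hn hn2 hn3) (by
    rw [disjoint_left]
    intro a ha
    simp only [mem_insert, mem_singleton] at ha
    rcases ha with rfl | rfl | rfl <;> assumption) (singleton_subset_iff.2 hs) (by
    intro a ha y hy hay
    simp only [mem_insert, mem_singleton] at ha ⊢
    rcases ha with rfl | rfl | rfl
    · exact priv_only hp hy hay
    · exact priv_only hq hy hay
    · exact priv_only hr hy hay)).1
  rw [wt1, wt3 hpq hpr hqr] at h1
  omega

/-- `x` has exactly the neighbours `s` and `t` in `S` -/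
structure Sh (G : SimpleGraph V) (S : Finset V) (x s t : V) : Prop where
  hx : x ∉ S
  hs : s ∈ S
  ht : t ∈ S
  ne : s ≠ t
  xs : G.Adj x s
  xt : G.Adj x t
  only : ∀ y ∈ S, G.Adj x y → y = s ∨ y = t

theorem Sh.symm {x s t : V} (h : Sh G S x s t) : Sh G S x t s :=
  ⟨h.hx, h.ht, h.hs, h.ne.symm, h.xt, h.xs, fun y hy hxy => (h.only y hy hxy).symm⟩

theorem Sh.notpriv {x s t : V} (h : Sh G S x s t) {r : V} (hr : x ∈ priv G S r) : False := by
  have h1 := priv_only hr h.hs h.xs
  have h2 := priv_only hr h.ht h.xt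
  exact h.ne (h1.trans h2.symm)

theorem ex1 (hS : Best G S) {x s t : V} (h : Sh G S x s t) :
    G.degree x + 3 ≤ G.degree s + G.degree t := by
  have h1 := (hS.ex {x} {s, t} (st1 x) (disjoint_singleton_left.2 h.hx) (by
    intro a ha
    simp only [mem_insert, mem_singleton] at ha
    rcases ha with rfl | rfl
    · exact h.hs
    · exact h.ht) (by
    intro a ha y hy hay
    rw [mem_singleton] at ha
    subst ha
    simp only [mem_insert, mem_singleton]
    exact h.only y hy hay)).2 (by
      rw [card_singleton, card_pair h.ne]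
      norm_num)
  rw [wt1, wt2 h.ne] at h1
  omega

theorem ex2 (hS : Best G S) {x s t p : V} (h : Sh G S x s t) (hp : p ∈ priv G S s)
    (hpx : ¬ G.Adj p x) : G.degree x + G.degree p ≤ G.degree s + G.degree t := by
  have hpS := (mem_priv.1 hp).1
  have hne : x ≠ p := by rintro rfl; exact h.notpriv hp
  have h1 := (hS.ex {x, p} {s, t} (st2 fun h => hpx h.symm) (by
    rw [disjoint_left]
    intro a ha
    simp only [mem_insert, mem_singleton] at ha
    rcases ha with rfl | rfl
    · exact h.hx
    · exact hpS) (by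
    intro a ha
    simp only [mem_insert, mem_singleton] at ha
    rcases ha with rfl | rfl
    · exact h.hs
    · exact h.ht) (by
    intro a ha y hy hay
    simp only [mem_insert, mem_singleton] at ha ⊢
    rcases ha with rfl | rfl
    · exact h.only y hy hay
    · exact Or.inl (priv_only hp hy hay))).1
  rw [wt2 hne, wt2 h.ne] at h1
  omega

theorem ex3 (hS : Best G S) {x s t p q : V} (h : Sh G S x s t) (hp : p ∈ priv G S s)
    (hq : q ∈ priv G S t) (hpx : ¬ G.Adj p x) (hqx : ¬ G.Adj q x) (hpq : ¬ G.Adj p q) :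
    G.degree x + G.degree p + G.degree q ≤ G.degree s + G.degree t + 2 := by
  have hpS := (mem_priv.1 hp).1
  have hqS := (mem_priv.1 hq).1
  have hne : x ≠ p := by rintro rfl; exact h.notpriv hp
  have hne2 : x ≠ q := by rintro rfl; exact h.notpriv hq
  have hne3 : p ≠ q := by
    rintro rfl
    exact h.ne (priv_only hq h.hs (priv_adj hp))
  have h1 := (hS.ex {x, p, q} {s, t} (st3 (fun h => hpx h.symm) (fun h => hqx h.symm) hpq) (by
    rw [disjoint_left]
    intro a ha
    simp only [mem_insert, mem_singleton] at ha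
    rcases ha with rfl | rfl | rfl
    · exact h.hx
    · exact hpS
    · exact hqS) (by
    intro a ha
    simp only [mem_insert, mem_singleton] at ha
    rcases ha with rfl | rfl
    · exact h.hs
    · exact h.ht) (by
    intro a ha y hy hay
    simp only [mem_insert, mem_singleton] at ha ⊢
    rcases ha with rfl | rfl | rfl
    · exact h.only y hy hay
    · exact Or.inl (priv_only hp hy hay)
    · exact Or.inr (priv_only hq hy hay))).1
  rw [wt3 hne hne2 hne3, wt2 h.ne] at h1
  omega

end

end Pool.Agent.Lib.MP_aecbcf_co.Needy
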