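import Pool.Agent.Lib.MP_aecbcf_co.NeedyA

/-!
# Private neighbours and shared neighbours in reduced graphs
-/

set_option autoImplicit false
set_option linter.unusedSectionVars false

namespace Pool.Agent.Lib.MP_aecbcf_co.Needy

open Finset Pool.Agent.Results.MP_aecbcf_co.FourColourable Pool.Agent.Lib.MP_aecbcf_co.Heavy
  Pool.Agent.Lib.MP_aecbcf_co.NoSeven

variable {V : Type*} [Fintype V] [DecidableEq V] {G : SimpleGraph V} [DecidableRel G.Adj]
variable {S : Finset V}

/-- vertices which may not receive more than a small share -/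
def Needy (G : SimpleGraph V) [DecidableRel G.Adj] (S : Finset V) (s : V) : Prop :=
  (G.degree s = 4 ∧ (priv G S s).card = 1) ∨ (G.degree s = 5 ∧ (priv G S s).card = 3) ∨
    (G.degree s = 6 ∧ (priv G S s).card = 5)

theorem s_notpriv {s : V} (hs : s ∈ S) (t : V) : s ∉ priv G S t := fun h => (mem_priv.1 h).1 hs

theorem priv4 (h : Red G) (hS : Best G S) {s : V} (hs : s ∈ S) (hd : G.degree s = 4) :
    (priv G S s).card ≤ 1 := by
  rw [card_le_one]
  intro p hp q hq
  by_contra hpq
  have h1 := pdeg hS hs hp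
  have h2 := pdeg hS hs hq
  have h3 := h.h4 p
  have h4 := h.h4 q
  have h5 := (T4' h hd (show G.degree p = 4 by omega) (priv_adj hp).symm).1 q (priv_adj hq).symm
    (Ne.symm hpq)
  omega

theorem clq5 (h : Red G) (hS : Best G S) {s : V} (hs : s ∈ S) (hd : G.degree s = 5) {p q : V}
    (hp : p ∈ priv G S s) (hq : q ∈ priv G S s) (hpq : p ≠ q) : G.Adj p q := by
  by_contra hn
  have h1 := pdeg2 hS hs hp hq hpq hn
  have h3 := h.h4 p
  have h4 := h.h4 q
  omega

/-- a clique with five vertices of degree at most five -/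
theorem no5 (h : Red G) {Q : Finset V} (hQ : ∀ x ∈ Q, ∀ y ∈ Q, x ≠ y → G.Adj x y)
    (hc : Q.card = 5) : ∃ v ∈ Q, 6 ≤ G.degree v := by
  obtain ⟨v, hv, hne⟩ := h.h3 Q (by
    rw [SimpleGraph.isNClique_iff, SimpleGraph.isClique_iff]
    exact ⟨fun x hx y hy hxy => hQ x hx y hy hxy, hc⟩)
  have h1 := clique_deg h Q hQ hv
  exact ⟨v, hv, by omega⟩

theorem priv5 (h : Red G) (hS : Best G S) {s : V} (hs : s ∈ S) (hd : G.degree s = 5) :
    (priv G S s).card ≤ 3 := by
  by_contra hcon
  push Not at hcon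
  obtain ⟨Q, hQ, hQc⟩ := exists_subset_card_eq (show 4 ≤ (priv G S s).card by omega)
  have hsQ : s ∉ Q := fun hh => s_notpriv hs s (hQ hh)
  obtain ⟨v, hv, h6⟩ := no5 h (Q := insert s Q) (by
    intro x hx y hy hxy
    rw [mem_insert] at hx hy
    rcases hx with rfl | hx <;> rcases hy with rfl | hy
    · exact absurd rfl hxy
    · exact (priv_adj (hQ hy)).symm
    · exact priv_adj (hQ hx)
    · exact clq5 h hS hs hd (hQ hx) (hQ hy) hxy) (by
    rw [card_insert_of_notMem hsQ, hQc])
  rw [mem_insert] at hv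
  rcases hv with rfl | hv
  · omega
  · have := pdeg hS hs (hQ hv)
    omega

theorem clq6 (h : Red G) (hS : Best G S) {s : V} (hs : s ∈ S) (hd : G.degree s = 6)
    (hc : 5 ≤ (priv G S s).card) {p p' : V}
    (hp : p ∈ priv G S s) (hp' : p' ∈ priv G S s) (hpp : p ≠ p') : G.Adj p p' := by
  by_contra hn
  have h1 := pdeg2 hS hs hp hp' hpp hn
  have hd4 := h.h4
  have hdp : G.degree p = 4 := by have := hd4 p; have := hd4 p'; omega
  have hdp' : G.degree p' = 4 := by have := hd4 p; have := hd4 p'; omega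
  have hsp := priv_adj hp
  have hsp' := priv_adj hp'
  -- the others
  set O := ((priv G S s).erase p).erase p' with hO
  have hOc : 3 ≤ O.card := by
    rw [hO, card_erase_of_mem (mem_erase.2 ⟨Ne.symm hpp, hp'⟩), card_erase_of_mem hp]
    omega
  have hOm : ∀ q ∈ O, q ∈ priv G S s ∧ q ≠ p ∧ q ≠ p' := by
    intro q hq
    rw [hO, mem_erase, mem_erase] at hq
    exact ⟨hq.2.2, hq.2.1, hq.1⟩
  have hor : ∀ q ∈ O, G.Adj q p ∨ G.Adj q p' := by
    intro q hq
    obtain ⟨hq1, hq2, hq3⟩ := hOm q hq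
    by_contra hcon
    push Not at hcon
    have := pdeg3 hS hs hp hp' hq1 hpp (Ne.symm hq2) (Ne.symm hq3) hn (fun h => hcon.1 h.symm)
      (fun h => hcon.2 h.symm)
    have := hd4 q
    omega
  have hnp : ∀ q ∈ O, ¬ G.Adj q p → G.degree q = 4 := by
    intro q hq hqp
    obtain ⟨hq1, hq2, hq3⟩ := hOm q hq
    have := pdeg2 hS hs hq1 hp hq2 hqp
    have := hd4 q
    omega
  have hnp' : ∀ q ∈ O, ¬ G.Adj q p' → G.degree q = 4 := by
    intro q hq hqp
    obtain ⟨hq1, hq2, hq3⟩ := hOm q hq
    have := pdeg2 hS hs hq1 hp' hq3 hqp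
    have := hd4 q
    omega
  -- at most one is adjacent to both
  have hboth : (O.filter fun q => G.Adj q p ∧ G.Adj q p').card ≤ 1 := by
    rw [card_le_one]
    intro q hq r hr
    rw [mem_filter] at hq hr
    by_contra hqr
    have h2 := hOm q hq.1
    have h3 := hOm r hr.1
    exact c3 h hpp hn (a := s) (b := q) (c := r) (priv_adj h2.1).ne.symm
      (priv_adj h3.1).ne.symm hqr hsp hq.2.1.symm hr.2.1.symm hsp' hq.2.2.symm hr.2.2.symm
  -- at most one of degree four is adjacent to p, the same for p'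
  have hone : (O.filter fun q => G.Adj q p ∧ ¬ G.Adj q p').card ≤ 1 := by
    rw [card_le_one]
    intro q hq r hr
    rw [mem_filter] at hq hr
    by_contra hqr
    have h2 := hnp' q hq.1 hq.2.2
    have h3 := hnp' r hr.1 hr.2.2
    have := ((T4' h hdp h2 hq.2.1.symm).1 r hr.2.1.symm (Ne.symm hqr)).1
    omega
  have htwo : (O.filter fun q => ¬ G.Adj q p ∧ G.Adj q p').card ≤ 1 := by
    rw [card_le_one]
    intro q hq r hr
    rw [mem_filter] at hq hr
    by_contra hqr
    have h2 := hnp q hq.1 hq.2.1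
    have h3 := hnp r hr.1 hr.2.1
    have := ((T4' h hdp' h2 hq.2.2.symm).1 r hr.2.2.symm (Ne.symm hqr)).1
    omega
  have hcov : O ⊆ ((O.filter fun q => G.Adj q p ∧ G.Adj q p') ∪
      (O.filter fun q => ¬ G.Adj q p ∧ G.Adj q p')) ∪
      (O.filter fun q => G.Adj q p ∧ ¬ G.Adj q p') := by
    intro q hq
    simp only [mem_union, mem_filter]
    have := hor q hq
    tauto
  have hex : (O.filter fun q => G.Adj q p ∧ ¬ G.Adj q p').Nonempty := by
    rw [← card_pos]
    have h2 := card_le_card hcov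
    have h3 := card_union_le ((O.filter fun q => G.Adj q p ∧ G.Adj q p') ∪
      (O.filter fun q => ¬ G.Adj q p ∧ G.Adj q p')) (O.filter fun q => G.Adj q p ∧ ¬ G.Adj q p')
    have h4 := card_union_le (O.filter fun q => G.Adj q p ∧ G.Adj q p')
      (O.filter fun q => ¬ G.Adj q p ∧ G.Adj q p')
    omega
  obtain ⟨q, hq⟩ := hex
  rw [mem_filter] at hq
  obtain ⟨hqO, hqp, hqp'⟩ := hq
  obtain ⟨hq1, hq2, hq3⟩ := hOm q hqO
  have hdq := hnp' q hqO hqp'
  have hsq := priv_adj hq1
  obtain ⟨t1, t2⟩ := T4' h hdp hdq hqp.symm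
  obtain ⟨t3, t4⟩ := T4' h hdq hdp hqp
  -- N(p) without s and q, N(q) without s and p
  have hA : ∀ v ∈ ((G.neighborFinset p).erase s).erase q, G.Adj p v ∧ v ≠ s ∧ v ≠ q := by
    intro v hv
    rw [mem_erase, mem_erase, SimpleGraph.mem_neighborFinset] at hv
    exact ⟨hv.2.2, hv.2.1, hv.1⟩
  have hB : ∀ v ∈ ((G.neighborFinset q).erase s).erase p, G.Adj q v ∧ v ≠ s ∧ v ≠ p := by
    intro v hv
    rw [mem_erase, mem_erase, SimpleGraph.mem_neighborFinset] at hv
    exact ⟨hv.2.2, hv.2.1, hv.1⟩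
  have hAc : (((G.neighborFinset p).erase s).erase q).card = 2 := by
    rw [card_erase_of_mem, card_erase_of_mem, SimpleGraph.card_neighborFinset_eq_degree, hdp]
    · rw [SimpleGraph.mem_neighborFinset]; exact hsp
    · rw [mem_erase, SimpleGraph.mem_neighborFinset]
      exact ⟨hsq.ne, hqp.symm⟩
  have hBc : (((G.neighborFinset q).erase s).erase p).card = 2 := by
    rw [card_erase_of_mem, card_erase_of_mem, SimpleGraph.card_neighborFinset_eq_degree, hdq]
    · rw [SimpleGraph.mem_neighborFinset]; exact hsq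
    · rw [mem_erase, SimpleGraph.mem_neighborFinset]
      exact ⟨hsp.ne, hqp⟩
  have hAs : ∀ v ∈ ((G.neighborFinset p).erase s).erase q, G.Adj s v ∧ ¬ G.Adj q v := by
    intro v hv
    obtain ⟨v1, v2, v3⟩ := hA v hv
    refine ⟨(t1 s hsp hsq.ne.symm).2 v v1 v3 (Ne.symm v2), fun hqv => ?_⟩
    exact v2 (t2 v s v1 hsp v3 hsq.ne.symm hqv hsq)
  have hBs : ∀ v ∈ ((G.neighborFinset q).erase s).erase p, G.Adj s v ∧ ¬ G.Adj p v := by
    intro v hv
    obtain ⟨v1, v2, v3⟩ := hB v hv
    refine ⟨(t3 s hsq hsp.ne.symm).2 v v1 v3 (Ne.symm v2), fun hpv => ?_⟩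
    exact v2 (t4 v s v1 hsq v3 hsp.ne.symm hpv hsp)
  have hdis : Disjoint (((G.neighborFinset p).erase s).erase q)
      (((G.neighborFinset q).erase s).erase p) := by
    rw [disjoint_left]
    intro v hv hv2
    exact (hBs v hv2).2 (hA v hv).1
  have hdis2 : Disjoint ({p, q, p'} : Finset V) ((((G.neighborFinset p).erase s).erase q) ∪
      (((G.neighborFinset q).erase s).erase p)) := by
    rw [disjoint_left]
    intro v hv hv2
    rw [mem_union] at hv2
    simp only [mem_insert, mem_singleton] at hv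
    rcases hv with rfl | rfl | rfl <;> rcases hv2 with hv2 | hv2
    · exact (hA _ hv2).1.ne rfl
    · exact (hB _ hv2).2.2 rfl
    · exact (hA _ hv2).2.2 rfl
    · exact (hB _ hv2).1.ne rfl
    · exact hn (hA _ hv2).1
    · exact hqp' (hB _ hv2).1
  have h7 : (({p, q, p'} : Finset V) ∪ ((((G.neighborFinset p).erase s).erase q) ∪
      (((G.neighborFinset q).erase s).erase p))).card ≤ G.degree s := by
    apply deg_ge_of
    intro v hv
    rw [mem_union, mem_union] at hv
    simp only [mem_insert, mem_singleton] at hv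
    rcases hv with (rfl | rfl | rfl) | hv | hv
    · exact hsp.symm
    · exact hsq.symm
    · exact hsp'.symm
    · exact (hAs v hv).1
    · exact (hBs v hv).1
  rw [card_union_of_disjoint hdis2, card_union_of_disjoint hdis, hAc, hBc,
    card_eq_three.2 ⟨p, q, p', Ne.symm hq2, hpp, hq3, rfl⟩, hd] at h7
  omega

theorem priv6 (h : Red G) (hS : Best G S) {s : V} (hs : s ∈ S) (hd : G.degree s = 6) :
    (priv G S s).card ≤ 5 := by
  by_contra hcon
  push Not at hcon
  have h1 := clique_deg h (insert s (priv G S s)) (by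
    intro x hx y hy hxy
    rw [mem_insert] at hx hy
    rcases hx with rfl | hx <;> rcases hy with rfl | hy
    · exact absurd rfl hxy
    · exact (priv_adj hy).symm
    · exact priv_adj hx
    · exact clq6 h hS hs hd (by omega) hx hy hxy) (mem_insert_self _ _)
  rw [card_insert_of_notMem (s_notpriv hs s)] at h1
  omega

theorem deg6 (h : Red G) (hS : Best G S) {s : V} (hs : s ∈ S) (hd : G.degree s = 6)
    (hc : (priv G S s).card = 5) {p : V} (hp : p ∈ priv G S s) : G.degree p = 6 := by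
  have h1 := clique_deg h (insert s (priv G S s)) (by
    intro x hx y hy hxy
    rw [mem_insert] at hx hy
    rcases hx with rfl | hx <;> rcases hy with rfl | hy
    · exact absurd rfl hxy
    · exact (priv_adj hy).symm
    · exact priv_adj hx
    · exact clq6 h hS hs hd (by omega) hx hy hxy) (mem_insert_of_mem hp)
  rw [card_insert_of_notMem (s_notpriv hs s)] at h1
  have h2 := pdeg hS hs hp
  omega

/-- a needy vertex and its private neighbours form a clique -/
theorem clqN (h : Red G) (hS : Best G S) {s : V} (hs : s ∈ S) (hN : Needy G S s) {p q : V}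
    (hp : p ∈ priv G S s) (hq : q ∈ priv G S s) (hpq : p ≠ q) : G.Adj p q := by
  rcases hN with ⟨_, h2⟩ | ⟨h1, _⟩ | ⟨h1, h2⟩
  · exact absurd (card_le_one.1 h2.le p hp q hq) hpq
  · exact clq5 h hS hs h1 hp hq hpq
  · exact clq6 h hS hs h1 h2.ge hp hq hpq

end Pool.Agent.Lib.MP_aecbcf_co.Needy
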