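import Pool.Agent.Lib.MP_aecbcf_co.NeedyB

/-!
# No vertex is shared by two needy vertices only
-/

set_option autoImplicit false
set_option linter.unusedSectionVars false

namespace Pool.Agent.Lib.MP_aecbcf_co.Needy

open Finset Pool.Agent.Results.MP_aecbcf_co.FourColourable Pool.Agent.Lib.MP_aecbcf_co.Heavy
  Pool.Agent.Lib.MP_aecbcf_co.NoSeven

variable {V : Type*} [Fintype V] [DecidableEq V] {G : SimpleGraph V} [DecidableRel G.Adj]
variable {S : Finset V}

/-- the private neighbours of `s` which are not adjacent to `x` -/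
def Aw (G : SimpleGraph V) [DecidableRel G.Adj] (S : Finset V) (s x : V) : Finset V :=
  (priv G S s).filter fun p => ¬ G.Adj p x

theorem mem_Aw {s x p : V} : p ∈ Aw G S s x ↔ p ∈ priv G S s ∧ ¬ G.Adj p x := by
  simp [Aw]

/-- if some private neighbour of `s` is not adjacent to `x` then all others but one are not -/
theorem Aw_card (h : Red G) (hS : Best G S) {x s t : V} (hx : Sh G S x s t)
    (hN : Needy G S s) (hne : (Aw G S s x).Nonempty) :
    (priv G S s).card ≤ (Aw G S s x).card + 1 := by
  obtain ⟨p, hp⟩ := hne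
  rw [mem_Aw] at hp
  have h1 : ((priv G S s).filter fun p => G.Adj p x).card ≤ 1 := by
    rw [card_le_one]
    intro q hq r hr
    rw [mem_filter] at hq hr
    by_contra hqr
    have hpq : p ≠ q := by rintro rfl; exact hp.2 hq.2
    have hpr : p ≠ r := by rintro rfl; exact hp.2 hr.2
    have hxp : x ≠ p := by rintro rfl; exact hx.notpriv hp.1
    exact c3 h hxp (fun hh => hp.2 hh.symm) (a := s) (b := q) (c := r)
      (priv_adj hq.1).ne.symm (priv_adj hr.1).ne.symm hqr hx.xs hq.2.symm hr.2.symm
      (priv_adj hp.1) (clqN h hS hx.hs hN hp.1 hq.1 hpq) (clqN h hS hx.hs hN hp.1 hr.1 hpr)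
  have h2 := card_filter_add_card_filter_not (s := priv G S s) (fun p => G.Adj p x)
  unfold Aw
  omega

/-- facts for degree four -/
theorem F4 (h : Red G) (hS : Best G S) {x s t : V} (hx : Sh G S x s t) (hd : G.degree s = 4)
    (hc : (priv G S s).card = 1) : 5 ≤ G.degree x ∧ (G.degree x ≤ G.degree t ∨ 6 ≤ G.degree t) := by
  obtain ⟨u, hu⟩ := card_eq_one.1 hc
  have hu1 : u ∈ priv G S s := by rw [hu]; exact mem_singleton_self u
  have hsu := priv_adj hu1
  have hdu : G.degree u = 4 := by
    have := pdeg hS hx.hs hu1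
    have := h.h4 u
    omega
  have hxu : x ≠ u := by rintro rfl; exact hx.notpriv hu1
  obtain ⟨t1, t2⟩ := T4' h hd hdu hsu.symm
  obtain ⟨t3, t4⟩ := T4' h hdu hd hsu
  have h5 := (t1 x hx.xs.symm hxu).1
  refine ⟨h5, ?_⟩
  by_cases hux : G.Adj u x
  · right
    have hA : ∀ v ∈ ((G.neighborFinset s).erase u).erase x, G.Adj s v ∧ v ≠ u ∧ v ≠ x := by
      intro v hv
      rw [mem_erase, mem_erase, SimpleGraph.mem_neighborFinset] at hv
      exact ⟨hv.2.2, hv.2.1, hv.1⟩
    have hB : ∀ v ∈ ((G.neighborFinset u).erase s).erase x, G.Adj u v ∧ v ≠ s ∧ v ≠ x := by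
      intro v hv
      rw [mem_erase, mem_erase, SimpleGraph.mem_neighborFinset] at hv
      exact ⟨hv.2.2, hv.2.1, hv.1⟩
    have hAc : (((G.neighborFinset s).erase u).erase x).card = 2 := by
      rw [card_erase_of_mem, card_erase_of_mem, SimpleGraph.card_neighborFinset_eq_degree, hd]
      · rw [SimpleGraph.mem_neighborFinset]; exact hsu.symm
      · rw [mem_erase, SimpleGraph.mem_neighborFinset]
        exact ⟨hxu, hx.xs.symm⟩
    have hBc : (((G.neighborFinset u).erase s).erase x).card = 2 := by
      rw [card_erase_of_mem, card_erase_of_mem, SimpleGraph.card_neighborFinset_eq_degree, hdu]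
      · rw [SimpleGraph.mem_neighborFinset]; exact hsu
      · rw [mem_erase, SimpleGraph.mem_neighborFinset]
        exact ⟨hx.xs.ne, hux⟩
    have hAx : ∀ v ∈ ((G.neighborFinset s).erase u).erase x, G.Adj x v := by
      intro v hv
      obtain ⟨v1, v2, v3⟩ := hA v hv
      exact (t1 x hx.xs.symm hxu).2 v v1 v2 (Ne.symm v3)
    have hBx : ∀ v ∈ ((G.neighborFinset u).erase s).erase x, G.Adj x v := by
      intro v hv
      obtain ⟨v1, v2, v3⟩ := hB v hv
      exact (t3 x hux hx.xs.ne).2 v v1 v2 (Ne.symm v3)
    have hdis : Disjoint (((G.neighborFinset s).erase u).erase x)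
        (((G.neighborFinset u).erase s).erase x) := by
      rw [disjoint_left]
      intro v hv hv2
      obtain ⟨v1, v2, v3⟩ := hA v hv
      exact v3 (t2 v x v1 hx.xs.symm v2 hxu (hB v hv2).1 hux)
    have hts : ¬ G.Adj s t := hS.st s hx.hs t hx.ht
    have htu : ¬ G.Adj u t := fun hh => hx.ne (priv_only hu1 hx.ht hh).symm
    have hdis2 : Disjoint ({s, u, t} : Finset V) ((((G.neighborFinset s).erase u).erase x) ∪
        (((G.neighborFinset u).erase s).erase x)) := by
      rw [disjoint_left]
      intro v hv hv2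
      rw [mem_union] at hv2
      simp only [mem_insert, mem_singleton] at hv
      rcases hv with rfl | rfl | rfl <;> rcases hv2 with hv2 | hv2
      · exact (hA _ hv2).1.ne rfl
      · exact (hB _ hv2).2.1 rfl
      · exact (hA _ hv2).2.1 rfl
      · exact (hB _ hv2).1.ne rfl
      · exact hts (hA _ hv2).1
      · exact htu (hB _ hv2).1
    have h7 : (({s, u, t} : Finset V) ∪ ((((G.neighborFinset s).erase u).erase x) ∪
        (((G.neighborFinset u).erase s).erase x))).card ≤ G.degree x := by
      apply deg_ge_of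
      intro v hv
      rw [mem_union, mem_union] at hv
      simp only [mem_insert, mem_singleton] at hv
      rcases hv with (rfl | rfl | rfl) | hv | hv
      · exact hx.xs
      · exact hux.symm
      · exact hx.xt
      · exact hAx v hv
      · exact hBx v hv
    have hut : u ≠ t := by rintro rfl; exact (mem_priv.1 hu1).1 hx.ht
    rw [card_union_of_disjoint hdis2, card_union_of_disjoint hdis, hAc, hBc,
      card_eq_three.2 ⟨s, u, t, hsu.ne.symm, hx.ne, hut, rfl⟩] at h7
    have := ex1 hS hx
    omega
  · left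
    have := ex2 hS hx hu1 hux
    omega

/-- at most one private neighbour has degree four -/
theorem weak (h : Red G) (hS : Best G S) {s : V} (hs : s ∈ S) (hd : G.degree s = 5)
    (hc : (priv G S s).card = 3) {p q : V} (hp : p ∈ priv G S s) (hq : q ∈ priv G S s)
    (hpq : p ≠ q) (hdp : G.degree p = 4) : G.degree q = 5 := by
  have h1 := pdeg hS hs hq
  have h2 := h.h4 q
  by_contra hne
  have hdq : G.degree q = 4 := by omega
  obtain ⟨r, hr, hr'⟩ : ∃ r ∈ priv G S s, r ∉ ({p, q} : Finset V) := by
    apply exists_mem_notMem_of_card_lt_card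
    rw [hc]
    exact lt_of_le_of_lt card_le_two (by norm_num)
  simp only [mem_insert, mem_singleton, not_or] at hr'
  obtain ⟨t1, t2⟩ := T4' h hdp hdq (clq5 h hS hs hd hp hq hpq)
  have := t2 s r (priv_adj hp) (clq5 h hS hs hd hp hr (Ne.symm hr'.1)) (priv_adj hq).ne.symm
    hr'.2 (priv_adj hq) (clq5 h hS hs hd hq hr (Ne.symm hr'.2))
  exact (priv_adj hr).ne this.symm

/-- facts for degree five -/
theorem F5 (h : Red G) (hS : Best G S) {x s t : V} (hx : Sh G S x s t) (hd : G.degree s = 5)
    (hc : (priv G S s).card = 3) :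
    (6 ≤ G.degree x ∧ ∀ p ∈ priv G S s, G.Adj p x) ∨
      (2 ≤ (Aw G S s x).card ∧ (∃ p ∈ Aw G S s x, G.degree p = 5) ∧
        G.degree x ≤ G.degree t) := by
  have hN : Needy G S s := Or.inr (Or.inl ⟨hd, hc⟩)
  by_cases hne : (Aw G S s x).Nonempty
  · right
    have h1 := Aw_card h hS hx hN hne
    have h2 : 2 ≤ (Aw G S s x).card := by omega
    obtain ⟨p, hp, q, hq, hpq⟩ := one_lt_card.1 (show 1 < (Aw G S s x).card by omega)
    have hst : ∃ p ∈ Aw G S s x, G.degree p = 5 := by
      by_cases h5 : G.degree p = 5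
      · exact ⟨p, hp, h5⟩
      · have h3 := pdeg hS hx.hs (mem_Aw.1 hp).1
        have h4 := h.h4 p
        exact ⟨q, hq, weak h hS hx.hs hd hc (mem_Aw.1 hp).1 (mem_Aw.1 hq).1 hpq (by omega)⟩
    refine ⟨h2, hst, ?_⟩
    obtain ⟨r, hr, hr5⟩ := hst
    have := ex2 hS hx (mem_Aw.1 hr).1 (mem_Aw.1 hr).2
    omega
  · left
    have hall : ∀ p ∈ priv G S s, G.Adj p x := by
      intro p hp
      by_contra hh
      exact hne ⟨p, mem_Aw.2 ⟨hp, hh⟩⟩
    refine ⟨?_, hall⟩
    have hxp : x ∉ priv G S s := fun hh => hx.notpriv hh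
    have hsx : s ∉ insert x (priv G S s) := by
      rw [mem_insert, not_or]
      exact ⟨hx.xs.ne.symm, s_notpriv hx.hs s⟩
    obtain ⟨v, hv, h6⟩ := no5 h (Q := insert s (insert x (priv G S s))) (by
      intro a ha b hb hab
      rw [mem_insert, mem_insert] at ha hb
      rcases ha with rfl | rfl | ha <;> rcases hb with rfl | rfl | hb
      · exact absurd rfl hab
      · exact hx.xs.symm
      · exact (priv_adj hb).symm
      · exact hx.xs
      · exact absurd rfl hab
      · exact (hall b hb).symm
      · exact priv_adj ha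
      · exact hall a ha
      · exact clq5 h hS hx.hs hd ha hb hab) (by
      rw [card_insert_of_notMem hsx, card_insert_of_notMem hxp, hc])
    rw [mem_insert, mem_insert] at hv
    rcases hv with rfl | rfl | hv
    · omega
    · exact h6
    · have := pdeg hS hx.hs hv
      omega

/-- facts for degree six -/
theorem F6 (h : Red G) (hS : Best G S) {x s t : V} (hx : Sh G S x s t) (hd : G.degree s = 6)
    (hc : (priv G S s).card = 5) :
    4 ≤ (Aw G S s x).card ∧ G.degree x ≤ G.degree t := by
  have hN : Needy G S s := Or.inr (Or.inr ⟨hd, hc⟩)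
  have hne : (Aw G S s x).Nonempty := by
    by_contra hne
    have hall : ∀ p ∈ priv G S s, G.Adj p x := by
      intro p hp
      by_contra hh
      exact hne ⟨p, mem_Aw.2 ⟨hp, hh⟩⟩
    have hxp : x ∉ priv G S s := fun hh => hx.notpriv hh
    have hsx : s ∉ insert x (priv G S s) := by
      rw [mem_insert, not_or]
      exact ⟨hx.xs.ne.symm, s_notpriv hx.hs s⟩
    have h1 := clique_deg h (insert s (insert x (priv G S s))) (by
      intro a ha b hb hab
      rw [mem_insert, mem_insert] at ha hb
      rcases ha with rfl | rfl | ha <;> rcases hb with rfl | rfl | hb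
      · exact absurd rfl hab
      · exact hx.xs.symm
      · exact (priv_adj hb).symm
      · exact hx.xs
      · exact absurd rfl hab
      · exact (hall b hb).symm
      · exact priv_adj ha
      · exact hall a ha
      · exact clqN h hS hx.hs hN ha hb hab) (mem_insert_self _ _)
    rw [card_insert_of_notMem hsx, card_insert_of_notMem hxp, hc] at h1
    omega
  have h1 := Aw_card h hS hx hN hne
  refine ⟨by omega, ?_⟩
  obtain ⟨p, hp⟩ := hne
  rw [mem_Aw] at hp
  have h2 := ex2 hS hx hp.1 hp.2
  have h3 := deg6 h hS hx.hs hd hc hp.1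
  omega

theorem priv_disj {s t : V} (hst : s ≠ t) (hs : s ∈ S) : Disjoint (priv G S s) (priv G S t) := by
  rw [disjoint_left]
  intro v hv hv2
  exact hst (priv_only hv2 hs (priv_adj hv))

/-- (B) a vertex of degree four shares only its fourth vertex with a needy vertex -/
theorem lemB' (h : Red G) (hS : Best G S) {x s t w : V} (hx : Sh G S x s t)
    (hN : Needy G S s) (hd : G.degree t = 4)
    (hw : ∀ x, G.Adj t x → x ≠ w → 5 ≤ G.degree x ∧ ∀ y, G.Adj t y → y ≠ w → x ≠ y →
      G.Adj x y) (hwt : G.Adj t w) : x = w := by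
  by_contra hxw
  have h5 := (hw x hx.xt.symm hxw).1
  rcases hN with ⟨h1, h2⟩ | ⟨h1, h2⟩ | ⟨h1, h2⟩
  · have := (F4 h hS hx h1 h2).2
    omega
  · rcases F5 h hS hx h1 h2 with h3 | h3
    · have h6 := ex1 hS hx
      have hA : ∀ v ∈ ((G.neighborFinset t).erase w).erase x, G.Adj t v ∧ v ≠ w ∧ v ≠ x := by
        intro v hv
        rw [mem_erase, mem_erase, SimpleGraph.mem_neighborFinset] at hv
        exact ⟨hv.2.2, hv.2.1, hv.1⟩
      have hAc : (((G.neighborFinset t).erase w).erase x).card = 2 := by
        rw [card_erase_of_mem, card_erase_of_mem, SimpleGraph.card_neighborFinset_eq_degree, hd]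
        · rw [SimpleGraph.mem_neighborFinset]; exact hwt
        · rw [mem_erase, SimpleGraph.mem_neighborFinset]
          exact ⟨hxw, hx.xt.symm⟩
      have hst : s ∉ insert t (priv G S s) := by
        rw [mem_insert, not_or]
        exact ⟨hx.ne, s_notpriv hx.hs s⟩
      have hdis : Disjoint (insert s (insert t (priv G S s)))
          (((G.neighborFinset t).erase w).erase x) := by
        rw [disjoint_left]
        intro v hv hv2
        rw [mem_insert, mem_insert] at hv
        rcases hv with rfl | rfl | hv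
        · exact hS.st t hx.ht v hx.hs (hA v hv2).1
        · exact (hA v hv2).1.ne rfl
        · exact hx.ne (priv_only hv hx.ht (hA v hv2).1.symm).symm
      have h7 : ((insert s (insert t (priv G S s))) ∪
          (((G.neighborFinset t).erase w).erase x)).card ≤ G.degree x := by
        apply deg_ge_of
        intro v hv
        rw [mem_union, mem_insert, mem_insert] at hv
        rcases hv with (rfl | rfl | hv) | hv
        · exact hx.xs
        · exact hx.xt
        · exact (h3.2 v hv).symm
        · obtain ⟨v1, v2, v3⟩ := hA v hv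
          exact (hw x hx.xt.symm hxw).2 v v1 v2 (Ne.symm v3)
      rw [card_union_of_disjoint hdis, card_insert_of_notMem hst,
        card_insert_of_notMem (s_notpriv hx.ht s), h2, hAc] at h7
      omega
    · have := h3.2.2
      omega
  · have := (F6 h hS hx h1 h2).2
    omega

/-- a private neighbour of `s` not adjacent to `x` is not adjacent to all members of `Aw` -/
theorem big (h : Red G) (hS : Best G S) {x s t : V} (hx : Sh G S x s t) (hN : Needy G S s)
    {p : V} (hp : p ∈ Aw G S s x) {B : Finset V} (hB : B ⊆ priv G S t)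
    (hall : ∀ q ∈ B, G.Adj p q) : B.card + (priv G S s).card ≤ G.degree p := by
  rw [mem_Aw] at hp
  have hdis : Disjoint ((priv G S s).erase p) B := by
    rw [disjoint_left]
    intro v hv hv2
    exact (disjoint_left.1 (priv_disj hx.ne hx.hs)) (mem_of_mem_erase hv) (hB hv2)
  have hs : s ∉ ((priv G S s).erase p) ∪ B := by
    rw [mem_union, not_or]
    exact ⟨fun hh => s_notpriv hx.hs s (mem_of_mem_erase hh), fun hh => s_notpriv hx.hs t (hB hh)⟩
  have h1 : (insert s (((priv G S s).erase p) ∪ B)).card ≤ G.degree p := by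
    apply deg_ge_of
    intro v hv
    rw [mem_insert, mem_union, mem_erase] at hv
    rcases hv with rfl | ⟨hv, hv'⟩ | hv
    · exact priv_adj hp.1
    · exact clqN h hS hx.hs hN hp.1 hv' (Ne.symm hv)
    · exact hall v hv
  rw [card_insert_of_notMem hs, card_union_of_disjoint hdis, card_erase_of_mem hp.1] at h1
  have h2 := card_pos.2 ⟨p, hp.1⟩
  omega

end Pool.Agent.Lib.MP_aecbcf_co.Needy
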