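import Pool.Agent.Lib.MP_aecbcf_co.NeedyC

/-!
# No vertex is shared by two needy vertices only: the last cases
-/

set_option autoImplicit false
set_option linter.unusedSectionVars false

namespace Pool.Agent.Lib.MP_aecbcf_co.Needy

open Finset Pool.Agent.Results.MP_aecbcf_co.FourColourable Pool.Agent.Lib.MP_aecbcf_co.Heavy
  Pool.Agent.Lib.MP_aecbcf_co.NoSeven

variable {V : Type*} [Fintype V] [DecidableEq V] {G : SimpleGraph V} [DecidableRel G.Adj]
variable {S : Finset V}

/-- degree six on one side -/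
theorem caseX6 (h : Red G) (hS : Best G S) {x s t : V} (hx : Sh G S x s t)
    (hdt : G.degree t = 6) (hct : (priv G S t).card = 5) (hN : Needy G S s)
    (hds : 5 ≤ G.degree s) : False := by
  have hNt : Needy G S t := Or.inr (Or.inr ⟨hdt, hct⟩)
  obtain ⟨h4, hxs⟩ := F6 h hS hx.symm hdt hct
  have hx4 := h.h4 x
  have key : ∀ p ∈ Aw G S s x, ∀ q ∈ Aw G S t x, 2 * G.degree s < 2 * G.degree p + G.degree x →
      G.Adj p q := by
    intro p hp q hq hdd
    by_contra hpq
    rw [mem_Aw] at hp hq
    have h1 := ex3 hS hx hp.1 hq.1 hp.2 hq.2 hpq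
    have h2 := deg6 h hS hx.ht hdt hct hq.1
    have h3 := pdeg hS hx.hs hp.1
    omega
  have hsub : Aw G S t x ⊆ priv G S t := filter_subset _ _
  rcases hN with ⟨h1, _⟩ | ⟨h1, h2⟩ | ⟨h1, h2⟩
  · omega
  · rcases F5 h hS hx h1 h2 with h3 | ⟨_, ⟨p, hp, hp5⟩, _⟩
    · omega
    · have h5 := big h hS hx (Or.inr (Or.inl ⟨h1, h2⟩)) hp hsub (fun q hq => by
        apply key p hp q hq
        omega)
      omega
  · obtain ⟨h3, _⟩ := F6 h hS hx h1 h2
    obtain ⟨p, hp⟩ := card_pos.1 (show 0 < (Aw G S s x).card by omega)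
    have hp6 := deg6 h hS hx.hs h1 h2 (mem_Aw.1 hp).1
    have h5 := big h hS hx (Or.inr (Or.inr ⟨h1, h2⟩)) hp hsub (fun q hq => by
      apply key p hp q hq
      omega)
    omega

/-- the neighbours of the members of `Aw` in the case of degrees five and five -/
theorem nb55 (h : Red G) (hS : Best G S) {x s t : V} (hx : Sh G S x s t)
    (hds : G.degree s = 5) (hcs : (priv G S s).card = 3) (hdt : G.degree t = 5)
    (hct : (priv G S t).card = 3) (ht2 : 2 ≤ (Aw G S t x).card)
    (hs2 : ∃ p ∈ Aw G S s x, G.degree p = 5) (htq : ∃ q ∈ Aw G S t x, G.degree q = 5) :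
    (Aw G S t x).card = 2 ∧
      ∀ p ∈ Aw G S s x, ∀ y, G.Adj p y → y = s ∨ y ∈ priv G S s ∨ y ∈ Aw G S t x := by
  have hx4 := h.h4 x
  have hNs : Needy G S s := Or.inr (Or.inl ⟨hds, hcs⟩)
  have key : ∀ p ∈ Aw G S s x, ∀ q ∈ Aw G S t x, 9 ≤ G.degree p + G.degree q → G.Adj p q := by
    intro p hp q hq hdd
    by_contra hpq
    rw [mem_Aw] at hp hq
    have h1 := ex3 hS hx hp.1 hq.1 hp.2 hq.2 hpq
    omega
  have hsub : Aw G S t x ⊆ priv G S t := filter_subset _ _
  have hc2 : (Aw G S t x).card = 2 := by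
    obtain ⟨p, hp, hp5⟩ := hs2
    have h5 := big h hS hx hNs hp hsub (fun q hq => by
      apply key p hp q hq
      have := h.h4 q
      omega)
    omega
  refine ⟨hc2, ?_⟩
  intro p hp y hy
  have hp1 := (mem_Aw.1 hp).1
  have hpd := pdeg hS hx.hs hp1
  have hp4 := h.h4 p
  -- a set B of neighbours in Aw t
  obtain ⟨B, hB, hBc, hBa⟩ : ∃ B : Finset V, B ⊆ Aw G S t x ∧ G.degree p ≤ B.card + 3 ∧
      ∀ q ∈ B, G.Adj p q := by
    by_cases hp5 : G.degree p = 5
    · refine ⟨Aw G S t x, Subset.refl _, by omega, ?_⟩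
      intro q hq
      apply key p hp q hq
      have := h.h4 q
      omega
    · obtain ⟨q, hq, hq5⟩ := htq
      refine ⟨{q}, singleton_subset_iff.2 hq, by rw [card_singleton]; omega, ?_⟩
      intro r hr
      rw [mem_singleton] at hr
      subst hr
      apply key p hp r hq
      omega
  have hdis : Disjoint ((priv G S s).erase p) B := by
    rw [disjoint_left]
    intro v hv hv2
    exact (disjoint_left.1 (priv_disj hx.ne hx.hs)) (mem_of_mem_erase hv) (hsub (hB hv2))
  have hs : s ∉ ((priv G S s).erase p) ∪ B := by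
    rw [mem_union, not_or]
    exact ⟨fun hh => s_notpriv hx.hs s (mem_of_mem_erase hh),
      fun hh => s_notpriv hx.hs t (hsub (hB hh))⟩
  have h1 := nb_of (v := p) (Q := insert s (((priv G S s).erase p) ∪ B)) (by
    intro v hv
    rw [mem_insert, mem_union, mem_erase] at hv
    rcases hv with rfl | ⟨hv, hv'⟩ | hv
    · exact priv_adj hp1
    · exact clqN h hS hx.hs hNs hp1 hv' (Ne.symm hv)
    · exact hBa v hv) (by
    rw [card_insert_of_notMem hs, card_union_of_disjoint hdis, card_erase_of_mem hp1, hcs]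
    omega) y hy
  rw [mem_insert, mem_union, mem_erase] at h1
  rcases h1 with h1 | ⟨_, h1⟩ | h1
  · exact Or.inl h1
  · exact Or.inr (Or.inl h1)
  · exact Or.inr (Or.inr (hB h1))

/-- degrees five and five -/
theorem case55 (h : Red G) (hS : Best G S) {x s t : V} (hx : Sh G S x s t)
    (hds : G.degree s = 5) (hcs : (priv G S s).card = 3) (hdt : G.degree t = 5)
    (hct : (priv G S t).card = 3) : False := by
  rcases F5 h hS hx hds hcs with h1 | ⟨h1, h1', _⟩ <;>
    rcases F5 h hS hx.symm hdt hct with h2 | ⟨h2, h2', h2''⟩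
  · -- both full
    have hst : s ∉ insert t (priv G S s ∪ priv G S t) := by
      rw [mem_insert, mem_union, not_or, not_or]
      exact ⟨hx.ne, s_notpriv hx.hs s, s_notpriv hx.hs t⟩
    have htt : t ∉ (priv G S s ∪ priv G S t) := by
      rw [mem_union, not_or]
      exact ⟨s_notpriv hx.ht s, s_notpriv hx.ht t⟩
    have h3 : (insert s (insert t (priv G S s ∪ priv G S t))).card ≤ G.degree x := by
      apply deg_ge_of
      intro v hv
      rw [mem_insert, mem_insert, mem_union] at hv
      rcases hv with rfl | rfl | hv | hv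
      · exact hx.xs
      · exact hx.xt
      · exact (h1.2 v hv).symm
      · exact (h2.2 v hv).symm
    rw [card_insert_of_notMem hst, card_insert_of_notMem htt,
      card_union_of_disjoint (priv_disj hx.ne hx.hs), hcs, hct] at h3
    have := ex1 hS hx
    omega
  · omega
  · have := (F5 h hS hx hds hcs)
    rcases this with h3 | ⟨_, _, h3⟩ <;> omega
  · obtain ⟨ct, nbs⟩ := nb55 h hS hx hds hcs hdt hct h2 h1' h2'
    obtain ⟨cs, nbt⟩ := nb55 h hS hx.symm hdt hct hds hcs h1 h2' h1'
    -- the third private neighbours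
    have hsp : ((priv G S s) \ (Aw G S s x)).card = 1 := by
      have hsub : Aw G S s x ⊆ priv G S s := filter_subset _ _
      rw [card_sdiff_of_subset hsub]
      omega
    have htp : ((priv G S t) \ (Aw G S t x)).card = 1 := by
      have hsub : Aw G S t x ⊆ priv G S t := filter_subset _ _
      rw [card_sdiff_of_subset hsub]
      omega
    obtain ⟨a, ha⟩ := card_eq_one.1 hsp
    obtain ⟨b, hb⟩ := card_eq_one.1 htp
    have ha' : a ∈ priv G S s ∧ a ∉ Aw G S s x := by
      rw [← mem_sdiff, ha]; exact mem_singleton_self a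
    have hb' : b ∈ priv G S t ∧ b ∉ Aw G S t x := by
      rw [← mem_sdiff, hb]; exact mem_singleton_self b
    have hsa : ∀ y ∈ priv G S s, y ∈ Aw G S s x ∨ y = a := by
      intro y hy
      by_cases hh : y ∈ Aw G S s x
      · exact Or.inl hh
      · right
        have : y ∈ (priv G S s) \ (Aw G S s x) := mem_sdiff.2 ⟨hy, hh⟩
        rw [ha, mem_singleton] at this
        exact this
    have htb : ∀ y ∈ priv G S t, y ∈ Aw G S t x ∨ y = b := by
      intro y hy
      by_cases hh : y ∈ Aw G S t x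
      · exact Or.inl hh
      · right
        have : y ∈ (priv G S t) \ (Aw G S t x) := mem_sdiff.2 ⟨hy, hh⟩
        rw [hb, mem_singleton] at this
        exact this
    obtain ⟨k, hk, _⟩ := h1'
    have hAs : ∀ v ∈ Aw G S s x, v ∈ priv G S s := fun v hv => (mem_Aw.1 hv).1
    have hAt : ∀ v ∈ Aw G S t x, v ∈ priv G S t := fun v hv => (mem_Aw.1 hv).1
    have hdisj := disjoint_left.1 (priv_disj (G := G) hx.ne hx.hs)
    have hst : ¬ G.Adj s t := hS.st s hx.hs t hx.ht
    have hsb : ¬ G.Adj s b := fun hh => hx.ne (priv_only hb'.1 hx.hs hh.symm)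
    have hta : ¬ G.Adj t a := fun hh => hx.ne (priv_only ha'.1 hx.ht hh.symm).symm
    apply h.cut
    apply sep_cut (K := Aw G S s x ∪ Aw G S t x) (M := {s, a, t, b}) (k := k) (t := x)
      (mem_union_left _ hk)
    · intro p hp y hy
      rw [mem_union] at hp
      simp only [mem_union, mem_insert, mem_singleton]
      rcases hp with hp | hp
      · rcases nbs p hp y hy with h3 | h3 | h3
        · exact Or.inr (Or.inl h3)
        · rcases hsa y h3 with h4 | h4
          · exact Or.inl (Or.inl h4)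
          · exact Or.inr (Or.inr (Or.inl h4))
        · exact Or.inl (Or.inr h3)
      · rcases nbt p hp y hy with h3 | h3 | h3
        · exact Or.inr (Or.inr (Or.inr (Or.inl h3)))
        · rcases htb y h3 with h4 | h4
          · exact Or.inl (Or.inr h4)
          · exact Or.inr (Or.inr (Or.inr (Or.inr h4)))
        · exact Or.inl (Or.inl h3)
    · intro p hp
      rw [mem_union] at hp
      simp only [mem_insert, mem_singleton, not_or]
      rcases hp with hp | hp
      · refine ⟨?_, ?_, ?_, ?_⟩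
        · rintro rfl; exact s_notpriv hx.hs _ (hAs _ hp)
        · rintro rfl; exact ha'.2 hp
        · rintro rfl; exact s_notpriv hx.ht _ (hAs _ hp)
        · rintro rfl; exact hdisj (hAs _ hp) hb'.1
      · refine ⟨?_, ?_, ?_, ?_⟩
        · rintro rfl; exact s_notpriv hx.hs _ (hAt _ hp)
        · rintro rfl; exact hdisj ha'.1 (hAt _ hp)
        · rintro rfl; exact s_notpriv hx.ht _ (hAt _ hp)
        · rintro rfl; exact hb'.2 hp
    · rw [mem_union, not_or]
      exact ⟨fun hh => hx.notpriv (hAs _ hh), fun hh => hx.notpriv (hAt _ hh)⟩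
    · simp only [mem_insert, mem_singleton, not_or]
      refine ⟨?_, ?_, ?_, ?_⟩
      · rintro rfl; exact hx.hx hx.hs
      · rintro rfl; exact hx.notpriv ha'.1
      · rintro rfl; exact hx.hx hx.ht
      · rintro rfl; exact hx.notpriv hb'.1
    · apply col_of
      · exact card_le_four
      · intro c hc d hd e he h3 h4 h5
        simp only [mem_insert, mem_singleton] at hc hd he
        have hst2 : ¬ G.Adj t s := fun hh => hst hh.symm
        have hsb2 : ¬ G.Adj b s := fun hh => hsb hh.symm
        have hta2 : ¬ G.Adj a t := fun hh => hta hh.symm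
        clear nbs nbt hdisj hsa htb hAs hAt ha hb ha' hb' hk hsp htp ct cs h1 h2 h2' h2'' hds
          hdt hcs hct
        rcases hc with rfl | rfl | rfl | rfl <;> rcases hd with rfl | rfl | rfl | rfl <;>
          rcases he with rfl | rfl | rfl | rfl <;>
          first
          | exact h3.ne rfl
          | exact h4.ne rfl
          | exact h5.ne rfl
          | contradiction

/-- (A) no vertex is shared exactly by two needy vertices -/
theorem lemA' (h : Red G) (hS : Best G S) {x s t : V} (hx : Sh G S x s t)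
    (hNs : Needy G S s) (hNt : Needy G S t) : False := by
  have h4 := h.h4 x
  by_cases hs6 : G.degree s = 6
  · have hcs : (priv G S s).card = 5 := by
      rcases hNs with ⟨h1, h2⟩ | ⟨h1, h2⟩ | ⟨h1, h2⟩ <;> omega
    by_cases ht4 : G.degree t = 4
    · have hct : (priv G S t).card = 1 := by
        rcases hNt with ⟨h1, h2⟩ | ⟨h1, h2⟩ | ⟨h1, h2⟩ <;> omega
      have h1 := (F4 h hS hx.symm ht4 hct).1
      have h2 := (F6 h hS hx hs6 hcs).2
      omega
    · have := h.h4 t
      exact caseX6 h hS hx.symm hs6 hcs hNt (by omega)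
  by_cases ht6 : G.degree t = 6
  · have hct : (priv G S t).card = 5 := by
      rcases hNt with ⟨h1, h2⟩ | ⟨h1, h2⟩ | ⟨h1, h2⟩ <;> omega
    by_cases hs4 : G.degree s = 4
    · have hcs : (priv G S s).card = 1 := by
        rcases hNs with ⟨h1, h2⟩ | ⟨h1, h2⟩ | ⟨h1, h2⟩ <;> omega
      have h1 := (F4 h hS hx hs4 hcs).1
      have h2 := (F6 h hS hx.symm ht6 hct).2
      omega
    · have := h.h4 s
      exact caseX6 h hS hx ht6 hct hNs (by omega)
  rcases hNs with ⟨h1, h2⟩ | ⟨h1, h2⟩ | ⟨h1, h2⟩ <;>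
    rcases hNt with ⟨h5, h6⟩ | ⟨h5, h6⟩ | ⟨h5, h6⟩
  · have := F4 h hS hx h1 h2
    omega
  · have h7 := F4 h hS hx h1 h2
    have h8 := F5 h hS hx.symm h5 h6
    rcases h8 with h8 | ⟨_, _, h8⟩ <;> omega
  · omega
  · have h7 := F4 h hS hx.symm h5 h6
    have h8 := F5 h hS hx h1 h2
    rcases h8 with h8 | ⟨_, _, h8⟩ <;> omega
  · exact case55 h hS hx h1 h2 h5 h6
  · omega
  · omega
  · omega
  · omega

end Pool.Agent.Lib.MP_aecbcf_co.Needy
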