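import Pool.Agent.Lib.MP_aecbcf_co.Heavy

/-!
# A vertex of degree five with three private neighbours receives no large share
-/

set_option autoImplicit false
set_option linter.unusedSectionVars false

namespace Pool.Agent.Lib.MP_aecbcf_co.NoSeven

open Finset Pool.Agent.Results.MP_aecbcf_co.FourColourable Pool.Agent.Lib.MP_aecbcf_co.Heavy

variable {V : Type*} [Fintype V] [DecidableEq V] {G : SimpleGraph V} [DecidableRel G.Adj]

theorem nb5 {p a b c d e : V} (hd : G.degree p ≤ 5) (ha : G.Adj p a) (hb : G.Adj p b)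
    (hc : G.Adj p c) (hd' : G.Adj p d) (he : G.Adj p e)
    (hcard : ({a, b, c, d, e} : Finset V).card = 5) :
    ∀ v, G.Adj p v → v = a ∨ v = b ∨ v = c ∨ v = d ∨ v = e := by
  have h1 : ({a, b, c, d, e} : Finset V) = G.neighborFinset p := by
    apply eq_of_subset_of_card_le
    · intro x hx
      rw [SimpleGraph.mem_neighborFinset]
      simp only [mem_insert, mem_singleton] at hx
      rcases hx with rfl | rfl | rfl | rfl | rfl <;> assumption
    · rw [SimpleGraph.card_neighborFinset_eq_degree, hcard]
      exact hd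
  intro v hv
  have h2 : v ∈ ({a, b, c, d, e} : Finset V) := by
    rw [h1, SimpleGraph.mem_neighborFinset]
    exact hv
  simpa only [mem_insert, mem_singleton] using h2

theorem sep_cut {K M : Finset V} {k t : V} (hk : k ∈ K)
    (hN : ∀ x ∈ K, ∀ y, G.Adj x y → y ∈ K ∨ y ∈ M) (hKM : ∀ x ∈ K, x ∉ M) (htK : t ∉ K)
    (htM : t ∉ M) (hcol : (G.induce (M : Set V)).Colorable 2) : HasBipartiteCut G := by
  refine ⟨M, hcol, fun hP => ?_⟩
  have hk' : k ∈ ((M : Set V))ᶜ := fun h => hKM k hk h
  have ht' : t ∈ ((M : Set V))ᶜ := fun h => htM h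
  obtain ⟨w⟩ := hP ⟨k, hk'⟩ ⟨t, ht'⟩
  have key : ∀ (x y : ((M : Set V)ᶜ : Set V)), (G.induce ((M : Set V)ᶜ)).Walk x y →
      x.1 ∈ K → y.1 ∈ K := by
    intro x y w
    induction w with
    | nil => exact id
    | @cons a b c h _ ih =>
      intro hx
      exact ih ((hN _ hx _ h).resolve_right b.2)
  exact htK (key _ _ w hk)

theorem col_of {M : Finset V} (hc : M.card ≤ 4)
    (ht : ∀ x ∈ M, ∀ y ∈ M, ∀ z ∈ M, G.Adj x y → G.Adj y z → ¬ G.Adj x z) :
    (G.induce (M : Set V)).Colorable 2 := by
  classical
  apply two_col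
  · have h1 : Nat.card (M : Set V) = M.card := by
      rw [Nat.card_coe_set_eq, Set.ncard_coe_finset]
    rw [← Nat.card_eq_fintype_card, h1]
    exact hc
  · rintro ⟨x, hx⟩ ⟨y, hy⟩ ⟨z, hz⟩ h1 h2 h3
    exact ht x hx y hy z hz h1 h2 h3

/-- the configuration -/
theorem core (hG : ¬ HasBipartiteCut G) {s p q r u t a : V} (hsp : G.Adj s p) (hsq : G.Adj s q)
    (hsr : G.Adj s r) (hpq : G.Adj p q) (hpr : G.Adj p r) (hqr : G.Adj q r) (hpu : G.Adj p u)
    (hqu : G.Adj q u) (hru : ¬ G.Adj r u) (hsu : ¬ G.Adj s u) (hsu' : s ≠ u) (hru' : r ≠ u)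
    (htu : G.Adj u t) (hts : t ≠ s) (htp : t ≠ p) (htq : t ≠ q) (htr : t ≠ r) (hta : t ≠ a)
    (has : G.Adj s a) (har : G.Adj r a) (hau : ¬ G.Adj a u) (hau' : a ≠ u) (hap : a ≠ p)
    (haq : a ≠ q) (hds : G.degree s ≤ 5) (hdp : G.degree p ≤ 5) (hdq : G.degree q ≤ 5)
    (hdr : G.degree r ≤ 5) (hdu : 4 ≤ G.degree u)
    (hcl : ∀ x y, G.Adj u x → G.Adj u y → x ≠ t → y ≠ t → x ≠ y → G.Adj x y) : False := by
  have hc3 : ({t, p, q} : Finset V).card < (G.neighborFinset u).card := by
    rw [SimpleGraph.card_neighborFinset_eq_degree]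
    refine lt_of_le_of_lt (card_le_three) ?_
    omega
  obtain ⟨o, ho, ho'⟩ := exists_mem_notMem_of_card_lt_card hc3
  rw [SimpleGraph.mem_neighborFinset] at ho
  simp only [mem_insert, mem_singleton, not_or] at ho'
  obtain ⟨hot, hop, hoq⟩ := ho'
  have hpo : G.Adj p o := hcl p o hpu.symm ho (Ne.symm htp) hot (Ne.symm hop)
  have hqo : G.Adj q o := hcl q o hqu.symm ho (Ne.symm htq) hot (Ne.symm hoq)
  have hso : s ≠ o := by rintro rfl; exact hsu ho.symm
  have hro : r ≠ o := by rintro rfl; exact hru ho.symm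
  have hao : a ≠ o := by rintro rfl; exact hau ho.symm
  have hNp := nb5 hdp hsp.symm hpq hpr hpu hpo (by
    rw [card_insert_of_notMem, card_insert_of_notMem, card_insert_of_notMem,
      card_insert_of_notMem, card_singleton]
    · simp [ho.ne]
    · simp [hru', hro]
    · simp [hqr.ne, hqu.ne, Ne.symm hoq]
    · simp [hsq.ne, hsr.ne, hsu', hso])
  have hNq := nb5 hdq hsq.symm hpq.symm hqr hqu hqo (by
    rw [card_insert_of_notMem, card_insert_of_notMem, card_insert_of_notMem,
      card_insert_of_notMem, card_singleton]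
    · simp [ho.ne]
    · simp [hru', hro]
    · simp [hpr.ne, hpu.ne, hpo.ne]
    · simp [hsp.ne, hsr.ne, hsu', hso])
  by_cases hboth : G.Adj s o ∧ G.Adj r o
  · obtain ⟨hs, hr⟩ := hboth
    have hNs := nb5 hds hsp hsq hsr has hs (by
      rw [card_insert_of_notMem, card_insert_of_notMem, card_insert_of_notMem,
        card_insert_of_notMem, card_singleton]
      · simp [hao]
      · simp [har.ne, hro]
      · simp [hqr.ne, Ne.symm haq, hqo.ne]
      · simp [hpq.ne, hpr.ne, Ne.symm hap, hpo.ne])
    have hNr := nb5 hdr hsr.symm hpr.symm hqr.symm har hr (by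
      rw [card_insert_of_notMem, card_insert_of_notMem, card_insert_of_notMem,
        card_insert_of_notMem, card_singleton]
      · simp [hao]
      · simp [Ne.symm haq, hqo.ne]
      · simp [hpq.ne, Ne.symm hap, hpo.ne]
      · simp [hsp.ne, hsq.ne, has.ne, hs.ne])
    apply hG
    apply sep_cut (K := {s, p, q, r}) (M := {a, o, u}) (k := s) (t := t) (by simp)
    · intro x hx y hxy
      simp only [mem_insert, mem_singleton] at hx ⊢
      rcases hx with rfl | rfl | rfl | rfl
      · rcases hNs y hxy with h | h | h | h | h <;> simp [h]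
      · rcases hNp y hxy with h | h | h | h | h <;> simp [h]
      · rcases hNq y hxy with h | h | h | h | h <;> simp [h]
      · rcases hNr y hxy with h | h | h | h | h <;> simp [h]
    · intro x hx
      simp only [mem_insert, mem_singleton, not_or] at hx ⊢
      rcases hx with rfl | rfl | rfl | rfl
      · exact ⟨has.ne, hso, hsu'⟩
      · exact ⟨Ne.symm hap, hpo.ne, hpu.ne⟩
      · exact ⟨Ne.symm haq, hqo.ne, hqu.ne⟩
      · exact ⟨har.ne, hro, hru'⟩
    · simp [hts, htp, htq, htr]
    · simp [hta, Ne.symm hot, htu.ne.symm]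
    · apply col_of
      · exact (card_le_three).trans (by norm_num)
      · intro x hx y hy z hz h1 h2 h3
        simp only [mem_insert, mem_singleton] at hx hy hz
        have hau2 : ¬ G.Adj u a := fun h => hau h.symm
        rcases hx with rfl | rfl | rfl <;> rcases hy with rfl | rfl | rfl <;>
          rcases hz with rfl | rfl | rfl <;>
          first
          | exact h1.ne rfl
          | exact h2.ne rfl
          | exact h3.ne rfl
          | contradiction
  · apply hG
    apply sep_cut (K := {p, q}) (M := {s, r, u, o}) (k := p) (t := t) (by simp)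
    · intro x hx y hxy
      simp only [mem_insert, mem_singleton] at hx ⊢
      rcases hx with rfl | rfl
      · rcases hNp y hxy with h | h | h | h | h <;> simp [h]
      · rcases hNq y hxy with h | h | h | h | h <;> simp [h]
    · intro x hx
      simp only [mem_insert, mem_singleton, not_or] at hx ⊢
      rcases hx with rfl | rfl
      · exact ⟨hsp.ne.symm, hpr.ne, hpu.ne, hpo.ne⟩
      · exact ⟨hsq.ne.symm, hqr.ne, hqu.ne, hqo.ne⟩
    · simp [htp, htq]
    · simp [hts, htr, htu.ne.symm, Ne.symm hot]
    · apply col_of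
      · exact card_le_four
      · intro x hx y hy z hz h1 h2 h3
        simp only [mem_insert, mem_singleton] at hx hy hz
        have hsu2 : ¬ G.Adj u s := fun h => hsu h.symm
        have hru2 : ¬ G.Adj u r := fun h => hru h.symm
        rcases hx with rfl | rfl | rfl | rfl <;> rcases hy with rfl | rfl | rfl | rfl <;>
          rcases hz with rfl | rfl | rfl | rfl <;>
          first
          | exact h1.ne rfl
          | exact h2.ne rfl
          | exact h3.ne rfl
          | contradiction
          | exact hboth ⟨by first | assumption | (apply SimpleGraph.Adj.symm; assumption),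
              by first | assumption | (apply SimpleGraph.Adj.symm; assumption)⟩

theorem mem_pair {S : Finset V} {a s t x : V} (haS : (S.filter fun x => G.Adj a x) = {s, t})
    (hx : x ∈ S) (h : G.Adj a x) : x = s ∨ x = t := by
  have h1 : x ∈ S.filter fun x => G.Adj a x := mem_filter.2 ⟨hx, h⟩
  rw [haS] at h1
  simpa only [mem_insert, mem_singleton] using h1

/-- a vertex of degree five with three private neighbours does not share a neighbour of degree at
least five only with a vertex of degree four with a private neighbour not adjacent to it -/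
theorem no7 (hG : ¬ HasBipartiteCut G)
    (h1 : ∀ x y, x ≠ y → ¬ G.Adj x y →
      (univ.filter fun v => G.Adj x v ∧ G.Adj y v).card ≤ 2)
    (hT : ∀ u t, G.degree u = 4 → G.degree t = 4 → G.Adj u t → ∀ x, G.Adj u x → x ≠ t →
      5 ≤ G.degree x ∧ ∀ y, G.Adj u y → y ≠ t → x ≠ y → G.Adj x y)
    (hP : ∀ S, IsStable G S → (∀ T, IsStable G T → wt G T ≤ wt G S) → ∀ s ∈ S,
      G.degree s = 5 → (priv G S s).card ≤ 3 ∧
        ∀ p ∈ priv G S s, G.degree p ≤ 5 ∧ ∀ q ∈ priv G S s, p ≠ q → G.Adj p q)
    {S : Finset V} (hS : IsStable G S) (hmax : ∀ T, IsStable G T → wt G T ≤ wt G S)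
    {s t a u : V} (hs : s ∈ S) (ht : t ∈ S) (hst : s ≠ t) (hds : G.degree s = 5)
    (hdt : G.degree t = 4) (hcs : 3 ≤ (priv G S s).card) (hu : u ∈ priv G S t)
    (hdu : G.degree u = 4) (ha : a ∉ S) (haS : (S.filter fun x => G.Adj a x) = {s, t})
    (hau : ¬ G.Adj a u) (hda : 5 ≤ G.degree a) : False := by
  have huS : u ∉ S := (mem_priv.1 hu).1
  have hut : G.Adj u t := priv_adj hu
  have has : G.Adj a s := by
    have h : s ∈ S.filter fun x => G.Adj a x := by rw [haS]; simp
    exact (mem_filter.1 h).2
  have hat : G.Adj a t := by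
    have h : t ∈ S.filter fun x => G.Adj a x := by rw [haS]; simp
    exact (mem_filter.1 h).2
  have hus : ¬ G.Adj u s := fun h => hst (priv_only hu hs h)
  have hau' : a ≠ u := by rintro rfl; exact hus has
  -- the other heaviest set
  have huE : u ∉ S.erase t := fun h => huS (mem_of_mem_erase h)
  have hno : ∀ x ∈ S.erase t, ¬ G.Adj u x := by
    intro x hx h
    rw [mem_erase] at hx
    exact hx.1 (priv_only hu hx.2 h)
  have hS' : IsStable G (insert u (S.erase t)) := by
    intro x hx y hy hxy
    rw [mem_insert] at hx hy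
    rcases hx with rfl | hx <;> rcases hy with rfl | hy
    · exact hxy.ne rfl
    · exact hno y hy hxy
    · exact hno x hx hxy.symm
    · exact hS x (mem_of_mem_erase hx) y (mem_of_mem_erase hy) hxy
  have hw : wt G (insert u (S.erase t)) = wt G S := by
    unfold wt
    rw [sum_insert huE, ← sum_erase_add S _ ht, hdu, hdt]
    ring
  have hmax' : ∀ T, IsStable G T → wt G T ≤ wt G (insert u (S.erase t)) := by
    intro T hT
    rw [hw]
    exact hmax T hT
  have hs' : s ∈ insert u (S.erase t) := mem_insert_of_mem (mem_erase.2 ⟨hst, hs⟩)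
  obtain ⟨hc', hP'⟩ := hP _ hS' hmax' s hs' hds
  obtain ⟨hc, hPs⟩ := hP _ hS hmax s hs hds
  have hafil : ((insert u (S.erase t)).filter fun x => G.Adj a x) = {s} := by
    ext x
    simp only [mem_filter, mem_insert, mem_erase, mem_singleton]
    constructor
    · rintro ⟨rfl | ⟨hx, hxS⟩, h⟩
      · exact absurd h hau
      · exact (mem_pair haS hxS h).resolve_right hx
    · rintro rfl
      exact ⟨Or.inr ⟨hst, hs⟩, has⟩
  have hap' : a ∈ priv G (insert u (S.erase t)) s := by
    rw [mem_priv]
    refine ⟨?_, hafil⟩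
    rw [mem_insert, mem_erase, not_or]
    exact ⟨hau', fun h => ha h.2⟩
  have hkeep : ∀ x ∈ priv G S s, ¬ G.Adj x u → x ∈ priv G (insert u (S.erase t)) s := by
    intro x hx hxu
    have hxS := (mem_priv.1 hx).1
    rw [mem_priv]
    refine ⟨?_, ?_⟩
    · rw [mem_insert, mem_erase, not_or]
      refine ⟨?_, fun h => hxS h.2⟩
      rintro rfl
      exact hus (priv_adj hx)
    · ext y
      simp only [mem_filter, mem_insert, mem_erase, mem_singleton]
      constructor
      · rintro ⟨rfl | ⟨_, hyS⟩, h⟩
        · exact absurd h hxu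
        · exact priv_only hx hyS h
      · rintro rfl
        exact ⟨Or.inr ⟨hst, hs⟩, priv_adj hx⟩
  have hanot : a ∉ priv G S s := fun h => hst (priv_only h ht hat).symm
  obtain ⟨x, y, z, hxy, hxz, hyz, hxyz⟩ := card_eq_three.1 (le_antisymm hc hcs)
  have hx : x ∈ priv G S s := by rw [hxyz]; simp
  have hy : y ∈ priv G S s := by rw [hxyz]; simp
  have hz : z ∈ priv G S s := by rw [hxyz]; simp
  -- two members adjacent to u, the third not
  have fin : ∀ p q r, p ∈ priv G S s → q ∈ priv G S s → r ∈ priv G S s → p ≠ q → p ≠ r →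
      q ≠ r → G.Adj p u → G.Adj q u → ¬ G.Adj r u → False := by
    intro p q r hp hq hr hpq hpr hqr hpu hqu hru
    have hps := priv_adj hp
    have hqs := priv_adj hq
    have hrs := priv_adj hr
    have hr' := hkeep r hr hru
    have har : G.Adj r a := (hP' r hr').2 a hap' (fun h => hanot (h ▸ hr))
    refine core hG (s := s) (p := p) (q := q) (r := r) (u := u) (t := t) (a := a)
      hps.symm hqs.symm hrs.symm ((hPs p hp).2 q hq hpq) ((hPs p hp).2 r hr hpr)
      ((hPs q hq).2 r hr hqr) hpu hqu hru (fun h => hus h.symm) ?_ ?_ hut hst.symm ?_ ?_ ?_ ?_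
      has.symm har hau hau' ?_ ?_ hds.le (hPs p hp).1 (hPs q hq).1 (hPs r hr).1 hdu.ge ?_
    · rintro rfl; exact huS hs
    · rintro rfl; exact hus hrs
    · rintro rfl; exact (mem_priv.1 hp).1 ht
    · rintro rfl; exact (mem_priv.1 hq).1 ht
    · rintro rfl; exact (mem_priv.1 hr).1 ht
    · rintro rfl; exact ha ht
    · rintro rfl; exact hanot hp
    · rintro rfl; exact hanot hq
    · intro v w hv hw hvt hwt hvw
      exact (hT u t hdu hdt hut v hv hvt).2 w hw hwt hvw
  -- one member adjacent to u: another one is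
  have two : ∀ p q r, p ∈ priv G S s → q ∈ priv G S s → r ∈ priv G S s → p ≠ q → p ≠ r →
      q ≠ r → G.Adj p u → ¬ G.Adj q u → ¬ G.Adj r u → False := by
    intro p q r hp hq hr hpq hpr hqr hpu hqu hru
    have hps := priv_adj hp
    have hpS := (mem_priv.1 hp).1
    have htp : t ≠ p := by rintro rfl; exact hpS ht
    have h3 : ({t, p} : Finset V).card + 1 < (G.neighborFinset u).card := by
      rw [SimpleGraph.card_neighborFinset_eq_degree, hdu]
      have := card_le_two (a := t) (b := p)
      omega
    obtain ⟨o, ho, ho'⟩ := exists_mem_notMem_of_card_lt_card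
      (lt_of_le_of_lt (Nat.le_succ _) h3)
    obtain ⟨o', ho2, ho2'⟩ := exists_mem_notMem_of_card_lt_card
      (show ({o, t, p} : Finset V).card < (G.neighborFinset u).card from
        lt_of_le_of_lt (card_insert_le _ _) h3)
    rw [SimpleGraph.mem_neighborFinset] at ho ho2
    simp only [mem_insert, mem_singleton, not_or] at ho' ho2'
    have hpo : G.Adj p o := (hT u t hdu hdt hut p hpu.symm (Ne.symm htp)).2 o ho ho'.1
      (Ne.symm ho'.2)
    have hpo2 : G.Adj p o' := (hT u t hdu hdt hut p hpu.symm (Ne.symm htp)).2 o' ho2 ho2'.2.1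
      (Ne.symm ho2'.2.2)
    have hsu' : s ≠ u := by rintro rfl; exact huS hs
    have hqu' : q ≠ u := by rintro rfl; exact hus (priv_adj hq)
    have hru' : r ≠ u := by rintro rfl; exact hus (priv_adj hr)
    have h5 := nb5 (hPs p hp).1 hps ((hPs p hp).2 q hq hpq) ((hPs p hp).2 r hr hpr) hpu hpo (by
      rw [card_insert_of_notMem, card_insert_of_notMem, card_insert_of_notMem,
        card_insert_of_notMem, card_singleton]
      · simp [ho.ne]
      · simp only [mem_insert, mem_singleton, not_or]
        exact ⟨hru', fun h => hru (h ▸ ho.symm)⟩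
      · simp only [mem_insert, mem_singleton, not_or]
        exact ⟨hqr, hqu', fun h => hqu (h ▸ ho.symm)⟩
      · simp only [mem_insert, mem_singleton, not_or]
        exact ⟨(priv_adj hq).ne.symm, (priv_adj hr).ne.symm, hsu', fun h => hus (h ▸ ho)⟩)
    rcases h5 o' hpo2 with h | h | h | h | h
    · exact hus (h ▸ ho2)
    · exact hqu (h ▸ ho2.symm)
    · exact hru (h ▸ ho2.symm)
    · exact ho2.ne h.symm
    · exact ho2'.1 h
  by_cases hxu : G.Adj x u <;> by_cases hyu : G.Adj y u <;> by_cases hzu : G.Adj z u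
  · -- all three: common neighbours of s and u
    have h2 := h1 s u (by rintro rfl; exact huS hs) (fun h => hus h.symm)
    have h3 : ({x, y, z} : Finset V) ⊆ univ.filter fun v => G.Adj s v ∧ G.Adj u v := by
      intro v hv
      simp only [mem_insert, mem_singleton] at hv
      rw [mem_filter]
      rcases hv with rfl | rfl | rfl
      · exact ⟨mem_univ _, (priv_adj hx).symm, hxu.symm⟩
      · exact ⟨mem_univ _, (priv_adj hy).symm, hyu.symm⟩
      · exact ⟨mem_univ _, (priv_adj hz).symm, hzu.symm⟩
    have h4 := card_le_card h3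
    rw [← hxyz] at h4
    omega
  · exact fin x y z hx hy hz hxy hxz hyz hxu hyu hzu
  · exact fin x z y hx hz hy hxz hxy hyz.symm hxu hzu hyu
  · exact two x y z hx hy hz hxy hxz hyz hxu hyu hzu
  · exact fin y z x hy hz hx hyz hxy.symm hxz.symm hyu hzu hxu
  · exact two y x z hy hx hz hxy.symm hyz hxz hyu hxu hzu
  · exact two z x y hz hx hy hxz.symm hyz.symm hxy hzu hxu hyu
  · have h3 : insert a (priv G S s) ⊆ priv G (insert u (S.erase t)) s := by
      intro v hv
      rw [mem_insert] at hv
      rcases hv with rfl | hv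
      · exact hap'
      · apply hkeep v hv
        rw [hxyz] at hv
        simp only [mem_insert, mem_singleton] at hv
        rcases hv with rfl | rfl | rfl <;> assumption
    have h4 := card_le_card h3
    rw [card_insert_of_notMem hanot] at h4
    omega

end Pool.Agent.Lib.MP_aecbcf_co.NoSeven
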