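import Mathlib

/-!
# At most one edge between any two colour classes

A graph with a proper colouring by four colours in which any two colour classes span at most one
edge, and which has no triangle, is bipartite (the cycle space of `K_4` has no odd element other
than the triangles).
-/

set_option autoImplicit false

namespace MP_aecbcf

/-- not exactly two of the three are true -/
def tr (x y z : Bool) : Bool := (!(x && y) || z) && (!(x && z) || y) && (!(y && z) || x)

theorem parity_bool : ∀ a12 a13 a23 : Bool, tr a12 a13 a23 = true →
    ∀ b02 b03 b23 : Bool, tr b02 b03 b23 = true →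
    ∀ c01 c03 c13 : Bool, tr c01 c03 c13 = true → (a12 && b02 && c01) = false →
    ∀ d01 d02 d12 : Bool, tr d01 d02 d12 = true → (a13 && b03 && d01) = false →
    (a23 && c03 && d02) = false → (b23 && c13 && d12) = false →
    ∃ b01 b02' b03' b12 b13 b23' : Bool,
      ((!a12 || (b01 == b02')) && (!a13 || (b01 == b03')) && (!a23 || (b02' == b03')) &&
      (!b02 || ((!b01) == b12)) && (!b03 || ((!b01) == b13)) && (!b23 || (b12 == b13)) &&
      (!c01 || ((!b02') == (!b12))) && (!c03 || ((!b02') == b23')) &&
      (!c13 || ((!b12) == b23')) &&
      (!d01 || ((!b03') == (!b13))) && (!d02 || ((!b03') == (!b23'))) &&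
      (!d12 || ((!b13) == (!b23')))) = true := by
  decide +kernel

end MP_aecbcf
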