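import Pool.Agent.Lib.BipCut.ChenYu

/-! Reductions for bipartite cuts: simplicial vertices, identification of non-adjacent vertices,
cliques with at most one pendant edge at each vertex. -/

set_option autoImplicit false

namespace Pool.Agent.Lib.MP_aecbcf_co.Red

open Finset Pool.Agent.Lib.BipCut

variable {α : Type*} [DecidableEq α]

/-- a bipartite cut of the graph on `A` -/
def Cut (r : α → α → Prop) (A : Finset α) : Prop :=
  ∃ B C L R : Finset α, Stab r B ∧ Stab r C ∧ Sep r A (B ∪ C) L R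

theorem cut_simplicial {r : α → α → Prop} (hs : Sy r) {A : Finset α} {v : α} (hv : v ∈ A)
    (hcl : ∀ x ∈ A, ∀ y ∈ A, r v x → r v y → x ≠ y → r x y) (h : Cut r (A.erase v)) :
    Cut r A := by
  obtain ⟨B, C, L, R, hB, hC, hS⟩ := h
  have key : ∀ L R, Sep r (A.erase v) (B ∪ C) L R → (∀ x ∈ R, ¬ r v x) → Cut r A := by
    intro L R hS hno
    have hmem : ∀ x, x ∈ A.erase v ↔ x ∈ B ∪ C ∪ L ∪ R := fun x => by rw [hS.union]
    have vM : v ∉ B ∪ C := fun h => (notMem_erase v A) ((hmem v).2 (by simp only [mem_union] at h ⊢; tauto))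
    have vL : v ∉ L := fun h => (notMem_erase v A) ((hmem v).2 (by simp only [mem_union]; tauto))
    have vR : v ∉ R := fun h => (notMem_erase v A) ((hmem v).2 (by simp only [mem_union]; tauto))
    refine ⟨B, C, insert v L, R, hB, hC, ?_, ?_, hS.mr, ?_, ⟨v, mem_insert_self _ _⟩, hS.ner, ?_⟩
    · rw [← insert_erase hv, hS.union]
      ext x
      simp only [mem_insert, mem_union]
      tauto
    · rw [disjoint_insert_right]; exact ⟨vM, hS.ml⟩
    · rw [disjoint_insert_left]; exact ⟨vR, hS.lr⟩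
    · intro x hx y hy hxy
      rw [mem_insert] at hx
      rcases hx with rfl | hx
      · exact hno y hy hxy
      · exact hS.no x hx y hy hxy
  by_cases hR : ∀ x ∈ R, ¬ r v x
  · exact key L R hS hR
  · push Not at hR
    obtain ⟨x, hx, hvx⟩ := hR
    apply key R L (hS.symm hs)
    intro y hy hvy
    have hxA : x ∈ A := mem_of_mem_erase (by rw [hS.union]; exact mem_union_right _ hx)
    have hyA : y ∈ A := mem_of_mem_erase (by
      rw [hS.union]; exact mem_union_left _ (mem_union_right _ hy))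
    refine hS.no y hy x hx (hcl y hyA x hxA hvy hvx ?_)
    rintro rfl
    exact disjoint_left.1 hS.lr hy hx

theorem cut_con {r : α → α → Prop} [DecidableRel r] (hs : Sy r) (hi : ∀ x, ¬ r x x) {A : Finset α} {u v : α}
    (hu : u ∈ A) (hv : v ∈ A) (huv : u ≠ v) (hn : ¬ r u v) (h : Cut (con r u v) (A.erase v)) :
    Cut r A := by
  obtain ⟨B, C, L, R, hB, hC, hS⟩ := h
  have hmem : ∀ x, x ∈ A.erase v ↔ x ∈ B ∪ C ∪ L ∪ R := fun x => by rw [hS.union]
  have vB : v ∉ B := fun h => (notMem_erase v A) ((hmem v).2 (by simp only [mem_union]; tauto))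
  have vC : v ∉ C := fun h => (notMem_erase v A) ((hmem v).2 (by simp only [mem_union]; tauto))
  have vL : v ∉ L := fun h => (notMem_erase v A) ((hmem v).2 (by simp only [mem_union]; tauto))
  have vR : v ∉ R := fun h => (notMem_erase v A) ((hmem v).2 (by simp only [mem_union]; tauto))
  have hAe : ∀ x, x ∈ A ↔ x = v ∨ x ∈ B ∪ C ∪ L ∪ R := by
    intro x
    rw [← hmem, mem_erase]
    constructor
    · intro h
      by_cases h1 : x = v
      · exact Or.inl h1
      · exact Or.inr ⟨h1, h⟩
    · rintro (h | h)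
      · rw [h]; exact hv
      · exact h.2
  have hcon : ∀ {x y}, r x y → con r u v x y := fun {x y} h =>
    ⟨fun e => hi x (by rw [← e] at h; exact h), Or.inl h⟩
  have stabr : ∀ M, Stab (con r u v) M → Stab r M := fun M hM x hx y hy hxy =>
    hM x hx y hy (hcon hxy)
  -- `u` in one of the stable sets
  have stabins : ∀ M, Stab (con r u v) M → u ∈ M → Stab r (insert v M) := by
    intro M hM huM x hx y hy hxy
    have haux : ∀ y ∈ M, ¬ r v y := by
      intro y hy h
      by_cases hyu : y = u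
      · rw [hyu] at h; exact hn (hs h)
      · exact hM u huM y hy ⟨Ne.symm hyu, Or.inr (Or.inl ⟨rfl, h⟩)⟩
    rw [mem_insert] at hx hy
    rcases hx with rfl | hx <;> rcases hy with rfl | hy
    · exact hi _ hxy
    · exact haux y hy hxy
    · exact haux x hx (hs hxy)
    · exact hM x hx y hy (hcon hxy)
  have key : ∀ L R, Sep (con r u v) (A.erase v) (B ∪ C) L R → u ∈ L → v ∉ L → v ∉ R →
      Cut r A := by
    intro L R hS huL vL vR
    refine ⟨B, C, insert v L, R, stabr B hB, stabr C hC, ?_, ?_, hS.mr, ?_,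
      ⟨v, mem_insert_self _ _⟩, hS.ner, ?_⟩
    · rw [← insert_erase hv, hS.union]
      ext x
      simp only [mem_insert, mem_union]
      tauto
    · rw [disjoint_insert_right]
      exact ⟨by rw [mem_union]; tauto, hS.ml⟩
    · rw [disjoint_insert_left]; exact ⟨vR, hS.lr⟩
    · intro x hx y hy hxy
      rw [mem_insert] at hx
      rcases hx with rfl | hx
      · refine hS.no u huL y hy ⟨?_, Or.inr (Or.inl ⟨rfl, hxy⟩)⟩
        rintro rfl
        exact disjoint_left.1 hS.lr huL hy
      · exact hS.no x hx y hy (hcon hxy)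
  have huU : u ∈ B ∪ C ∪ L ∪ R := (hmem u).1 (mem_erase.2 ⟨huv, hu⟩)
  simp only [mem_union] at huU
  rcases huU with ((h | h) | h) | h
  · refine ⟨insert v B, C, L, R, stabins B hB h, stabr C hC, ?_, ?_, ?_, hS.lr, hS.nel, hS.ner, ?_⟩
    · ext x
      rw [hAe]
      simp only [mem_insert, mem_union]
      tauto
    · rw [insert_union, disjoint_insert_left]; exact ⟨vL, hS.ml⟩
    · rw [insert_union, disjoint_insert_left]; exact ⟨vR, hS.mr⟩
    · exact fun x hx y hy hxy => hS.no x hx y hy (hcon hxy)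
  · refine ⟨B, insert v C, L, R, stabr B hB, stabins C hC h, ?_, ?_, ?_, hS.lr, hS.nel, hS.ner, ?_⟩
    · ext x
      rw [hAe]
      simp only [mem_insert, mem_union]
      tauto
    · rw [union_insert, disjoint_insert_left]; exact ⟨vL, hS.ml⟩
    · rw [union_insert, disjoint_insert_left]; exact ⟨vR, hS.mr⟩
    · exact fun x hx y hy hxy => hS.no x hx y hy (hcon hxy)
  · exact key L R hS h vL vR
  · exact key R L (hS.symm (con_symm hs u v)) h vR vL

theorem m2_con_eq {r : α → α → Prop} [DecidableRel r] (hs : Sy r) (hi : ∀ x, ¬ r x x)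
    {A : Finset α} {u v : α} (hu : u ∈ A) (hv : v ∈ A) (huv : u ≠ v) (hn : ¬ r u v) :
    m2 (con r u v) (A.erase v) + 2 * (A.filter fun x => r u x ∧ r v x).card = m2 r A := by
  obtain ⟨A', hA'⟩ : ∃ A', A' = (A.erase v).erase u := ⟨_, rfl⟩
  have hmem : ∀ x, x ∈ A' ↔ x ≠ u ∧ x ≠ v ∧ x ∈ A := by
    intro x
    rw [hA', mem_erase, mem_erase]
  have e1 : A.erase v = insert u A' := by
    rw [hA', insert_erase (mem_erase.2 ⟨huv, hu⟩)]
  have e2 : A = insert v (insert u A') := by rw [← e1, insert_erase hv]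
  have uA' : u ∉ A' := fun h => ((hmem u).1 h).1 rfl
  have vA' : v ∉ insert u A' := by
    rw [mem_insert]
    rintro (h | h)
    · exact huv h.symm
    · exact ((hmem v).1 h).2.1 rfl
  have h1 := m2_insert (r := con r u v) (con_symm hs u v) (con_irrefl u v) uA'
  have h2 := m2_insert (r := r) hs hi vA'
  have h3 := m2_insert (r := r) hs hi uA'
  have h4 : m2 (con r u v) A' = m2 r A' := by
    unfold m2
    congr 1
    apply filter_congr
    rintro ⟨x, y⟩ hp
    rw [mem_product] at hp
    have hx := (hmem x).1 hp.1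
    have hy := (hmem y).1 hp.2
    constructor
    · rintro ⟨-, h | ⟨h, -⟩ | ⟨h, -⟩⟩
      · exact h
      · exact absurd h hx.1
      · exact absurd h hy.1
    · intro h
      exact ⟨fun e => hi x (by rw [← e] at h; exact h), Or.inl h⟩
  have h5 : (A'.filter fun x => con r u v u x) =
      (A'.filter fun x => r u x) ∪ (A'.filter fun x => r v x) := by
    ext x
    rw [mem_union, mem_filter, mem_filter, mem_filter]
    constructor
    · rintro ⟨hx, -, h | ⟨-, h⟩ | ⟨h, -⟩⟩
      · exact Or.inl ⟨hx, h⟩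
      · exact Or.inr ⟨hx, h⟩
      · exact absurd h ((hmem x).1 hx).1
    · rintro (⟨hx, h⟩ | ⟨hx, h⟩)
      · exact ⟨hx, Ne.symm ((hmem x).1 hx).1, Or.inl h⟩
      · exact ⟨hx, Ne.symm ((hmem x).1 hx).1, Or.inr (Or.inl ⟨rfl, h⟩)⟩
  have h6 : ((insert u A').filter fun x => r v x) = A'.filter fun x => r v x := by
    rw [filter_insert, if_neg (fun h => hn (hs h))]
  have h7 : (A.filter fun x => r u x ∧ r v x) =
      (A'.filter fun x => r u x) ∩ (A'.filter fun x => r v x) := by
    ext x
    rw [mem_inter, mem_filter, mem_filter, mem_filter, hmem]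
    constructor
    · rintro ⟨hx, h1, h2⟩
      have hxu : x ≠ u := by rintro rfl; exact hi _ h1
      have hxv : x ≠ v := by rintro rfl; exact hi _ h2
      exact ⟨⟨⟨hxu, hxv, hx⟩, h1⟩, ⟨hxu, hxv, hx⟩, h2⟩
    · rintro ⟨⟨⟨-, -, hx⟩, h1⟩, -, h2⟩
      exact ⟨hx, h1, h2⟩
  have h8 := card_union_add_card_inter (A'.filter fun x => r u x) (A'.filter fun x => r v x)
  rw [h7, e1, h1, h4, h5]
  conv_rhs => rw [e2, h2, h3, h6]
  omega

theorem cut_pendant {r : α → α → Prop} (hs : Sy r) (hi : ∀ x, ¬ r x x) {A Q : Finset α}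
    (hQA : Q ⊆ A) (hQ : Q.card ≤ 5)
    (hone : ∀ q ∈ Q, ∀ x ∈ A \ Q, ∀ y ∈ A \ Q, r q x → r q y → x = y)
    (h : Cut r (A \ Q)) : Cut r A := by
  classical
  obtain ⟨B, C, L, R, hB, hC, hS⟩ := h
  have key : ∀ L R, Sep r (A \ Q) (B ∪ C) L R →
      (Q.filter fun q => ∃ y ∈ R, r q y).card ≤ 2 → Cut r A := by
    intro L R hS hcard
    have hmem : ∀ x, x ∈ A \ Q ↔ x ∈ B ∪ C ∪ L ∪ R := fun x => by rw [hS.union]
    obtain ⟨QR, hQR⟩ : ∃ QR, QR = Q.filter fun q => ∃ y ∈ R, r q y := ⟨_, rfl⟩
    rw [← hQR] at hcard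
    have hQR' : ∀ q ∈ QR, q ∈ Q ∧ ∃ y ∈ R, r q y := fun q hq => by
      rw [hQR, mem_filter] at hq; exact hq
    obtain ⟨X, Y, hXY, hX, hY⟩ : ∃ X Y : Finset α, QR = X ∪ Y ∧ X.card ≤ 1 ∧ Y.card ≤ 1 := by
      rcases QR.eq_empty_or_nonempty with h | ⟨q, hq⟩
      · exact ⟨∅, ∅, by rw [h]; simp, by simp, by simp⟩
      · refine ⟨{q}, QR.erase q, ?_, by simp, ?_⟩
        · rw [← insert_eq, insert_erase hq]
        · rw [card_erase_of_mem hq]; omega
    have hXQ : ∀ x ∈ X, x ∈ QR := fun x hx => by rw [hXY]; exact mem_union_left _ hx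
    have hYQ : ∀ x ∈ Y, x ∈ QR := fun x hx => by rw [hXY]; exact mem_union_right _ hx
    have hBA : ∀ b ∈ B, b ∈ A \ Q := fun b hb => (hmem b).2 (by simp only [mem_union]; tauto)
    have hCA : ∀ b ∈ C, b ∈ A \ Q := fun b hb => (hmem b).2 (by simp only [mem_union]; tauto)
    have hLA : ∀ b ∈ L, b ∈ A \ Q := fun b hb => (hmem b).2 (by simp only [mem_union]; tauto)
    have hRA : ∀ b ∈ R, b ∈ A \ Q := fun b hb => (hmem b).2 (by simp only [mem_union]; tauto)
    have noadj : ∀ q ∈ QR, ∀ b, b ∈ B ∪ C → ¬ r q b := by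
      intro q hq b hb hqb
      obtain ⟨hqQ, y, hy, hqy⟩ := hQR' q hq
      have hbA : b ∈ A \ Q := by
        rcases mem_union.1 hb with h | h
        · exact hBA b h
        · exact hCA b h
      have := hone q hqQ b hbA y (hRA y hy) hqb hqy
      rw [this] at hb
      exact disjoint_left.1 hS.mr hb hy
    have stab : ∀ M Z : Finset α, M ⊆ B ∪ C → Stab r M → (∀ x ∈ Z, x ∈ QR) → Z.card ≤ 1 →
        Stab r (M ∪ Z) := by
      intro M Z hM hMs hZ hZ1 x hx y hy hxy
      rw [mem_union] at hx hy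
      rcases hx with hx | hx <;> rcases hy with hy | hy
      · exact hMs x hx y hy hxy
      · exact noadj y (hZ y hy) x (hM hx) (hs hxy)
      · exact noadj x (hZ x hx) y (hM hy) hxy
      · rw [card_le_one.1 hZ1 x hx y hy] at hxy
        exact hi _ hxy
    refine ⟨B ∪ X, C ∪ Y, L ∪ (Q \ QR), R, stab B X subset_union_left hB hXQ hX,
      stab C Y subset_union_right hC hYQ hY, ?_, ?_, ?_, ?_, ?_, hS.ner, ?_⟩
    · ext x
      simp only [mem_union, mem_sdiff]
      constructor
      · intro hx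
        by_cases hxQ : x ∈ Q
        · by_cases hxR : x ∈ QR
          · rw [hXY, mem_union] at hxR
            tauto
          · tauto
        · have := (hmem x).1 (mem_sdiff.2 ⟨hx, hxQ⟩)
          simp only [mem_union] at this
          tauto
      · rintro ((((h | h) | (h | h)) | (h | h)) | h)
        · exact (mem_sdiff.1 (hBA x h)).1
        · exact hQA (hQR' x (hXQ x h)).1
        · exact (mem_sdiff.1 (hCA x h)).1
        · exact hQA (hQR' x (hYQ x h)).1
        · exact (mem_sdiff.1 (hLA x h)).1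
        · exact hQA h.1
        · exact (mem_sdiff.1 (hRA x h)).1
    · rw [disjoint_left]
      intro x hx hx'
      simp only [mem_union, mem_sdiff] at hx hx'
      rcases hx with (h | h) | (h | h)
      · rcases hx' with h' | h'
        · exact disjoint_left.1 hS.ml (mem_union_left _ h) h'
        · exact (mem_sdiff.1 (hBA x h)).2 h'.1
      · rcases hx' with h' | h'
        · exact (mem_sdiff.1 (hLA x h')).2 (hQR' x (hXQ x h)).1
        · exact h'.2 (hXQ x h)
      · rcases hx' with h' | h'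
        · exact disjoint_left.1 hS.ml (mem_union_right _ h) h'
        · exact (mem_sdiff.1 (hCA x h)).2 h'.1
      · rcases hx' with h' | h'
        · exact (mem_sdiff.1 (hLA x h')).2 (hQR' x (hYQ x h)).1
        · exact h'.2 (hYQ x h)
    · rw [disjoint_left]
      intro x hx hx'
      simp only [mem_union] at hx
      rcases hx with (h | h) | (h | h)
      · exact disjoint_left.1 hS.mr (mem_union_left _ h) hx'
      · exact (mem_sdiff.1 (hRA x hx')).2 (hQR' x (hXQ x h)).1
      · exact disjoint_left.1 hS.mr (mem_union_right _ h) hx'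
      · exact (mem_sdiff.1 (hRA x hx')).2 (hQR' x (hYQ x h)).1
    · rw [disjoint_left]
      intro x hx hx'
      simp only [mem_union, mem_sdiff] at hx
      rcases hx with h | h
      · exact disjoint_left.1 hS.lr h hx'
      · exact (mem_sdiff.1 (hRA x hx')).2 h.1
    · exact hS.nel.mono subset_union_left
    · intro x hx y hy hxy
      simp only [mem_union, mem_sdiff] at hx
      rcases hx with h | h
      · exact hS.no x h y hy hxy
      · apply h.2
        rw [hQR, mem_filter]
        exact ⟨h.1, y, hy, hxy⟩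
  have hdis : Disjoint (Q.filter fun q => ∃ y ∈ L, r q y) (Q.filter fun q => ∃ y ∈ R, r q y) := by
    rw [disjoint_left]
    intro q hq hq'
    rw [mem_filter] at hq hq'
    obtain ⟨hqQ, y, hy, hqy⟩ := hq
    obtain ⟨-, z, hz, hqz⟩ := hq'
    have hyA : y ∈ A \ Q := by rw [hS.union]; exact mem_union_left _ (mem_union_right _ hy)
    have hzA : z ∈ A \ Q := by rw [hS.union]; exact mem_union_right _ hz
    have := hone q hqQ y hyA z hzA hqy hqz
    rw [this] at hy
    exact disjoint_left.1 hS.lr hy hz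
  have hsum : (Q.filter fun q => ∃ y ∈ L, r q y).card + (Q.filter fun q => ∃ y ∈ R, r q y).card
      ≤ Q.card := by
    rw [← card_union_of_disjoint hdis]
    exact card_le_card (union_subset (filter_subset _ _) (filter_subset _ _))
  rcases Nat.lt_or_ge 2 (Q.filter fun q => ∃ y ∈ R, r q y).card with h | h
  · exact key R L (hS.symm hs) (by omega)
  · exact key L R hS h

theorem m2_eq_sum {r : α → α → Prop} [DecidableRel r] (A : Finset α) :
    m2 r A = ∑ x ∈ A, (A.filter fun y => r x y).card := by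
  unfold m2
  rw [card_filter, sum_product]
  apply sum_congr rfl
  intro v _
  rw [← card_filter]

theorem m2_sdiff {r : α → α → Prop} [DecidableRel r] (hs : Sy r) {A Q : Finset α} (hQ : Q ⊆ A) :
    m2 r A = m2 r (A \ Q) + ∑ q ∈ Q, (A.filter fun y => r q y).card +
      ∑ q ∈ Q, ((A \ Q).filter fun y => r q y).card := by
  rw [m2_eq_sum, m2_eq_sum, ← sum_sdiff hQ]
  have h1 : ∀ x ∈ A \ Q, (A.filter fun y => r x y).card =
      ((A \ Q).filter fun y => r x y).card + (Q.filter fun y => r x y).card := by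
    intro x _
    rw [← card_union_of_disjoint]
    · congr 1
      ext y
      simp only [mem_filter, mem_union, mem_sdiff]
      constructor
      · rintro ⟨h1, h2⟩
        by_cases h3 : y ∈ Q
        · exact Or.inr ⟨h3, h2⟩
        · exact Or.inl ⟨⟨h1, h3⟩, h2⟩
      · rintro (⟨⟨h1, -⟩, h2⟩ | ⟨h1, h2⟩)
        · exact ⟨h1, h2⟩
        · exact ⟨hQ h1, h2⟩
    · rw [disjoint_left]
      intro y hy hy'
      rw [mem_filter, mem_sdiff] at hy
      rw [mem_filter] at hy'
      exact hy.1.2 hy'.1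
  rw [sum_congr rfl h1, sum_add_distrib]
  have h2 := sum_card_bipartiteAbove_eq_sum_card_bipartiteBelow (s := A \ Q) (t := Q)
    (fun a b => r a b)
  simp only [bipartiteAbove, bipartiteBelow] at h2
  rw [h2]
  have h3 : ∀ q ∈ Q, ((A \ Q).filter fun a => r a q).card =
      ((A \ Q).filter fun y => r q y).card := by
    intro q _
    congr 1
    apply filter_congr
    intro a _
    exact ⟨fun h => hs h, fun h => hs h⟩
  rw [sum_congr rfl h3]
  ring

end Pool.Agent.Lib.MP_aecbcf_co.Red
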