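import Pool.Agent.Lib.MP_aecbcf_co.Count

/-!
# Summation over the six pairs of colours
-/

set_option autoImplicit false

namespace MP_aecbcf

open Finset

/-- The six pairs of colours. -/
def PP : Finset (Fin 4 × Fin 4) := univ.filter (fun p => p.1 < p.2)

theorem PP_card : PP.card = 6 := by decide

theorem PP_one (a : Fin 4) : (PP.filter (fun p => a = p.1 ∨ a = p.2)).card = 3 := by
  revert a
  decide

theorem PP_two (a b : Fin 4) (h : a ≠ b) :
    (PP.filter (fun p => (a = p.1 ∨ a = p.2) ∧ (b = p.1 ∨ b = p.2))).card = 1 := by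
  revert a b
  decide

variable {V : Type*}

/-- ordered adjacent pairs in `W` -/
theorem pairs_eq [Fintype V] [DecidableEq V] (G : SimpleGraph V) [DecidableRel G.Adj]
    (W : Finset V) :
    (∑ q : V × V, if (G.Adj q.1 q.2 ∧ q.1 ∈ W ∧ q.2 ∈ W) then 1 else 0) = 2 * inner G W := by
  classical
  let H : SimpleGraph V :=
    { Adj := fun u v => G.Adj u v ∧ u ∈ W ∧ v ∈ W
      symm := ⟨fun _ _ h => ⟨h.1.symm, h.2.2, h.2.1⟩⟩
      loopless := ⟨fun _ h => G.loopless.irrefl _ h.1⟩ }
  have h1 : inner G W = H.edgeFinset.card := by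
    unfold inner
    congr 1
    ext e
    induction e with
    | _ u v =>
      simp only [mem_filter, SimpleGraph.mem_edgeFinset, SimpleGraph.mem_edgeSet, Sym2.mem_iff,
        forall_eq_or_imp, forall_eq]
      exact Iff.rfl
  rw [h1, ← H.sum_degrees_eq_twice_card_edges, Fintype.sum_prod_type]
  apply sum_congr rfl
  intro u _
  rw [← card_filter, ← SimpleGraph.card_neighborFinset_eq_degree]
  congr 1
  ext v
  rw [mem_filter, SimpleGraph.mem_neighborFinset]
  exact ⟨fun h => h.2, fun h => ⟨mem_univ _, h⟩⟩

theorem total_ineq [Fintype V] [DecidableEq V] (G : SimpleGraph V) [DecidableRel G.Adj]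
    (hcut : ¬ HasBipartiteCut G) (W : Finset V)
    (c : V → Fin 4) (hc : ∀ u v, u ∉ W → v ∉ W → G.Adj u v → c u ≠ c v)
    (D : Fin 4 × Fin 4 → V → Finset V) (hD : ∀ p ∈ PP, ∀ w ∈ W, Good G W c p w (D p w)) :
    3 * Fintype.card V + 3 * W.card + ∑ w ∈ W, ∑ p ∈ PP, (D p w).card ≤
      6 + G.edgeFinset.card + 2 * ∑ w ∈ W, G.degree w + inner G W := by
  classical
  have h1 : ∑ p ∈ PP, (2 * (ZP W c p).card + 2 * ∑ w ∈ W, (D p w).card) ≤
      ∑ p ∈ PP, (2 + ((ZP W c p ×ˢ ZP W c p).filter (fun q => G.Adj q.1 q.2)).card) := by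
    apply sum_le_sum
    intro p hp
    refine pair_ineq G hcut W c hc p ?_ (D p) (hD p hp)
    have := (mem_filter.1 hp).2
    exact ne_of_lt this
  have h2 : ∑ p ∈ PP, (ZP W c p).card = 3 * Fintype.card V + 3 * W.card := by
    have e1 : ∀ p ∈ PP, (ZP W c p).card = ∑ v : V, if (v ∈ W ∨ InP c p v) then 1 else 0 := by
      intro p _
      rw [ZP, card_filter]
    rw [sum_congr rfl e1, sum_comm]
    have e2 : ∀ v : V, (∑ p ∈ PP, if (v ∈ W ∨ InP c p v) then 1 else 0) =
        3 + if v ∈ W then 3 else 0 := by
      intro v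
      by_cases hv : v ∈ W
      · simp [hv, PP_card]
      · simp only [hv, false_or, if_false, add_zero]
        rw [← card_filter]
        exact PP_one (c v)
    rw [sum_congr rfl (fun v _ => e2 v), sum_add_distrib, sum_const, card_univ, smul_eq_mul,
      ← sum_filter, sum_const, smul_eq_mul]
    have : univ.filter (fun v => v ∈ W) = W := by
      ext v
      simp
    rw [this]
    ring
  have h3 : ∑ p ∈ PP, ((ZP W c p ×ˢ ZP W c p).filter (fun q => G.Adj q.1 q.2)).card ≤
      2 * G.edgeFinset.card + 4 * ∑ w ∈ W, G.degree w + 2 * inner G W := by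
    have e1 : ∀ p ∈ PP, ((ZP W c p ×ˢ ZP W c p).filter (fun q => G.Adj q.1 q.2)).card =
        ∑ q : V × V, if (G.Adj q.1 q.2 ∧ q.1 ∈ ZP W c p ∧ q.2 ∈ ZP W c p) then 1 else 0 := by
      intro p _
      rw [← card_filter]
      congr 1
      ext q
      simp only [mem_filter, mem_product, mem_univ, true_and]
      tauto
    rw [sum_congr rfl e1, sum_comm]
    have e2 : ∀ q : V × V, (∑ p ∈ PP,
        if (G.Adj q.1 q.2 ∧ q.1 ∈ ZP W c p ∧ q.2 ∈ ZP W c p) then 1 else 0) ≤
        (if G.Adj q.1 q.2 then 1 else 0) +
          (if (q.1 ∈ W ∧ G.Adj q.1 q.2) then 2 else 0) +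
          (if (q.2 ∈ W ∧ G.Adj q.1 q.2) then 2 else 0) +
          (if (G.Adj q.1 q.2 ∧ q.1 ∈ W ∧ q.2 ∈ W) then 1 else 0) := by
      rintro ⟨u, v⟩
      by_cases huv : G.Adj u v
      · simp only [huv, true_and, and_true, if_true]
        rw [← card_filter]
        by_cases hu : u ∈ W
        · by_cases hv : v ∈ W
          · simp only [hu, hv, if_true, and_self]
            exact (card_filter_le _ _).trans PP_card.le
          · simp only [hu, hv, if_true, if_false, add_zero, and_false]
            refine le_trans (card_le_card ?_) (PP_one (c v)).le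
            intro p hp
            rw [mem_filter] at hp ⊢
            refine ⟨hp.1, ?_⟩
            have := hp.2.2
            simp only [ZP, mem_filter, mem_univ, true_and] at this
            exact this.resolve_left hv
        · by_cases hv : v ∈ W
          · simp only [hu, hv, if_true, if_false, add_zero, false_and]
            refine le_trans (card_le_card ?_) (PP_one (c u)).le
            intro p hp
            rw [mem_filter] at hp ⊢
            refine ⟨hp.1, ?_⟩
            have := hp.2.1
            simp only [ZP, mem_filter, mem_univ, true_and] at this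
            exact this.resolve_left hu
          · simp only [hu, hv, if_false, add_zero, false_and]
            refine le_trans (card_le_card ?_) (PP_two (c u) (c v) (hc u v hu hv huv)).le
            intro p hp
            rw [mem_filter] at hp ⊢
            refine ⟨hp.1, ?_⟩
            have h4 := hp.2.1
            have h5 := hp.2.2
            simp only [ZP, mem_filter, mem_univ, true_and] at h4 h5
            exact ⟨h4.resolve_left hu, h5.resolve_left hv⟩
      · simp [huv]
    refine le_trans (sum_le_sum (fun q _ => e2 q)) ?_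
    rw [sum_add_distrib, sum_add_distrib, sum_add_distrib, pairs_eq G W]
    have f1 : (∑ q : V × V, if G.Adj q.1 q.2 then 1 else 0) = 2 * G.edgeFinset.card := by
      rw [← G.sum_degrees_eq_twice_card_edges, Fintype.sum_prod_type]
      apply sum_congr rfl
      intro u _
      rw [← card_filter, ← SimpleGraph.card_neighborFinset_eq_degree]
      congr 1
      ext v
      simp
    have f2 : (∑ q : V × V, if (q.1 ∈ W ∧ G.Adj q.1 q.2) then 2 else 0) =
        2 * ∑ w ∈ W, G.degree w := by
      rw [Fintype.sum_prod_type, mul_sum]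
      have : ∀ u : V, (∑ v : V, if (u ∈ W ∧ G.Adj u v) then 2 else 0) =
          if u ∈ W then 2 * G.degree u else 0 := by
        intro u
        by_cases hu : u ∈ W
        · simp only [hu, true_and, if_true]
          rw [← sum_filter, sum_const, smul_eq_mul, ← SimpleGraph.card_neighborFinset_eq_degree,
            mul_comm]
          congr 2
          ext v
          simp
        · simp [hu]
      rw [sum_congr rfl (fun u _ => this u), ← sum_filter]
      congr 1
      ext v
      simp
    have f3 : (∑ q : V × V, if (q.2 ∈ W ∧ G.Adj q.1 q.2) then 2 else 0) =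
        2 * ∑ w ∈ W, G.degree w := by
      rw [← f2, Fintype.sum_prod_type, Fintype.sum_prod_type, sum_comm]
      apply sum_congr rfl
      intro u _
      apply sum_congr rfl
      intro v _
      simp only [G.adj_comm]
    rw [f1, f2, f3]
    omega
  rw [sum_add_distrib, sum_add_distrib, ← mul_sum, ← mul_sum, h2, sum_const, PP_card,
    sum_comm] at h1
  rw [smul_eq_mul] at h1
  omega

end MP_aecbcf
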